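import Pool.Agent.CR.Tits

/-! # The chamber tiles the hyperboloid -/

namespace Pool.Agent.CR

open Quaternion Filter Topology

noncomputable section

/-- Cauchy–Schwarz in coordinates -/
lemma cs4 (a0 a1 a2 a3 b0 b1 b2 b3 : ℝ) :
    (a0 * b0 + a1 * b1 + a2 * b2 + a3 * b3) ^ 2 ≤
      (a0 ^ 2 + a1 ^ 2 + a2 ^ 2 + a3 ^ 2) * (b0 ^ 2 + b1 ^ 2 + b2 ^ 2 + b3 ^ 2) := by
  nlinarith [sq_nonneg (a0 * b1 - a1 * b0), sq_nonneg (a0 * b2 - a2 * b0),
    sq_nonneg (a0 * b3 - a3 * b0), sq_nonneg (a1 * b2 - a2 * b1), sq_nonneg (a1 * b3 - a3 * b1),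
    sq_nonneg (a2 * b3 - a3 * b2)]

/-- Reversed Cauchy–Schwarz. -/
lemma rcs {x : V} (hx : x ∈ Hyp) (z : V) : 0 ≤ B x z ^ 2 + B z z := by
  obtain ⟨h1, -⟩ := hx
  obtain ⟨x0, a⟩ := x
  obtain ⟨z0, b⟩ := z
  simp only [B] at h1 ⊢
  set A := a.re ^ 2 + a.imI ^ 2 + a.imJ ^ 2 + a.imK ^ 2 with hA
  set C := b.re ^ 2 + b.imI ^ 2 + b.imJ ^ 2 + b.imK ^ 2 with hC
  set p := a.re * b.re + a.imI * b.imI + a.imJ * b.imJ + a.imK * b.imK with hp
  have h2 : p ^ 2 ≤ A * C := cs4 _ _ _ _ _ _ _ _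
  have hA0 : 0 ≤ A := by positivity
  have hC0 : 0 ≤ C := by positivity
  have hx0 : x0 ^ 2 = 1 + A := by rw [hA]; linarith
  have key : (-(x0 * z0) + p) ^ 2 + (-(z0 * z0) + (b.re * b.re + b.imI * b.imI + b.imJ * b.imJ
      + b.imK * b.imK)) = A * z0 ^ 2 - 2 * x0 * z0 * p + p ^ 2 + C := by
    rw [hC]
    linear_combination z0 ^ 2 * hx0
  rw [key]
  rcases hA0.eq_or_lt with h0 | h0
  · have : p = 0 := by
      rw [← h0, zero_mul] at h2
      exact pow_eq_zero_iff (n := 2) two_ne_zero |>.1 (le_antisymm h2 (sq_nonneg p))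
    rw [this, ← h0]; nlinarith
  · have : 0 ≤ A * (A * z0 ^ 2 - 2 * x0 * z0 * p + p ^ 2 + C) := by
      have e : A * (A * z0 ^ 2 - 2 * x0 * z0 * p + p ^ 2 + C)
          = (A * z0 - x0 * p) ^ 2 + (A * C - p ^ 2) := by
        linear_combination (-(p ^ 2)) * hx0
      rw [e]; nlinarith [sq_nonneg (A * z0 - x0 * p)]
    exact nonneg_of_mul_nonneg_right this h0

lemma one_le_fst {x : V} (hx : x ∈ Hyp) : 1 ≤ x.1 := by
  obtain ⟨h1, h2⟩ := hx
  simp only [B] at h1
  nlinarith [sq_nonneg x.2.re, sq_nonneg x.2.imI, sq_nonneg x.2.imJ, sq_nonneg x.2.imK]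

/-- two points of the hyperboloid have negative product -/
lemma B_neg {x y : V} (hx : x ∈ Hyp) (hy : y ∈ Hyp) : B x y < 0 := by
  have h1 := rcs hx y
  rw [hy.1] at h1
  by_contra h
  push Not at h
  have h2 : 1 ≤ B x y := by nlinarith
  obtain ⟨hx1, hx2⟩ := hx
  obtain ⟨hy1, hy2⟩ := hy
  simp only [B] at *
  have h3 := cs4 x.2.re x.2.imI x.2.imJ x.2.imK y.2.re y.2.imI y.2.imJ y.2.imK
  set A := x.2.re ^ 2 + x.2.imI ^ 2 + x.2.imJ ^ 2 + x.2.imK ^ 2 with hA
  set C := y.2.re ^ 2 + y.2.imI ^ 2 + y.2.imJ ^ 2 + y.2.imK ^ 2 with hC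
  set p := x.2.re * y.2.re + x.2.imI * y.2.imI + x.2.imJ * y.2.imJ + x.2.imK * y.2.imK with hp
  have hA0 : 0 ≤ A := by positivity
  have hC0 : 0 ≤ C := by positivity
  have hx0 : x.1 ^ 2 = 1 + A := by rw [hA]; linarith
  have hy0 : y.1 ^ 2 = 1 + C := by rw [hC]; linarith
  have h4 : (x.1 * y.1) ^ 2 = (1 + A) * (1 + C) := by rw [mul_pow, hx0, hy0]
  have h5 : 0 < x.1 * y.1 := mul_pos hx2 hy2
  nlinarith

/-- the bilinear form as a linear map in the first variable -/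
def Bl (z : V) : V →ₗ[ℝ] ℝ where
  toFun := fun x => B x z
  map_add' := fun x y => B_add_left x y z
  map_smul' := fun c x => B_smul_left c x z

lemma continuous_B_left (z : V) : Continuous fun x : V => B x z :=
  (Bl z).continuous_of_finiteDimensional

lemma continuous_B_self : Continuous fun x : V => B x x := by
  unfold B
  have h1 := Quaternion.continuous_re.comp (continuous_snd (X := ℝ) (Y := ℍ[ℝ]))
  have h2 := Quaternion.continuous_imI.comp (continuous_snd (X := ℝ) (Y := ℍ[ℝ]))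
  have h3 := Quaternion.continuous_imJ.comp (continuous_snd (X := ℝ) (Y := ℍ[ℝ]))
  have h4 := Quaternion.continuous_imK.comp (continuous_snd (X := ℝ) (Y := ℍ[ℝ]))
  have h0 := (continuous_fst (X := ℝ) (Y := ℍ[ℝ]))
  exact ((h0.mul h0).neg).add ((((h1.mul h1).add (h2.mul h2)).add (h3.mul h3)).add (h4.mul h4))

lemma isClosed_Hyp : IsClosed Hyp := by
  have : Hyp = {x : V | B x x = -1} ∩ {x : V | 1 ≤ x.1} := by
    ext x
    constructor
    · intro hx
      exact ⟨hx.1, one_le_fst hx⟩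
    · rintro ⟨h1, h2⟩
      exact ⟨h1, lt_of_lt_of_le one_pos h2⟩
  rw [this]
  exact (isClosed_eq continuous_B_self continuous_const).inter
    (isClosed_le continuous_const continuous_fst)

/-- bounded pieces of the hyperboloid are compact -/
lemma isCompact_Hyp_le (C : ℝ) : IsCompact (Hyp ∩ {x : V | x.1 ≤ C}) := by
  refine Metric.isCompact_of_isClosed_isBounded
    (isClosed_Hyp.inter (isClosed_le continuous_fst continuous_const)) ?_
  rw [isBounded_iff_forall_norm_le]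
  refine ⟨max C 0, ?_⟩
  rintro ⟨x0, a⟩ ⟨⟨h1, h2⟩, h3⟩
  simp only [B] at h1
  change x0 ≤ C at h3
  change 0 < x0 at h2
  have h4 : ‖a‖ ^ 2 = a.re ^ 2 + a.imI ^ 2 + a.imJ ^ 2 + a.imK ^ 2 := by
    rw [pow_two, ← Quaternion.normSq_eq_norm_mul_self, Quaternion.normSq_def']
  rw [Prod.norm_def]
  refine max_le ?_ ?_
  · rw [Real.norm_of_nonneg h2.le]
    exact h3.trans (le_max_left _ _)
  · refine le_trans (b := x0) ?_ (h3.trans (le_max_left _ _))
    refine abs_le_of_sq_le_sq' ?_ h2.le |>.2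
    rw [h4]
    nlinarith

lemma reflB_mem_Hyp {n x : V} (hn : B n n = 1) (hx : x ∈ Hyp) : reflB n x ∈ Hyp := by
  have h1 : B (reflB n x) (reflB n x) = -1 := by rw [reflB_B hn]; exact hx.1
  refine ⟨h1, ?_⟩
  by_contra hneg
  push Not at hneg
  have hne : (reflB n x).1 ≠ 0 := by
    intro h0
    simp only [B, h0] at h1
    nlinarith [sq_nonneg (reflB n x).2.re, sq_nonneg (reflB n x).2.imI,
      sq_nonneg (reflB n x).2.imJ, sq_nonneg (reflB n x).2.imK]
  have hlt : (reflB n x).1 < 0 := lt_of_le_of_ne hneg hne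
  have h2 : (-1 : ℝ) • reflB n x ∈ Hyp := by
    refine ⟨?_, ?_⟩
    · rw [B_smul_left, B_smul_right, h1]; ring
    · show 0 < ((-1 : ℝ) • reflB n x).1
      rw [Prod.smul_fst, smul_eq_mul]; linarith
  have h3 := B_neg h2 hx
  rw [B_smul_left, reflB_apply, B_sub_left, B_smul_left, hx.1, B_comm n x] at h3
  nlinarith [sq_nonneg (B x n)]

variable {S : Type} [Fintype S] [DecidableEq S]

namespace Sys

variable (Q : Sys S)

lemma ρ_mem_Hyp (w : Q.W) {x : V} (hx : x ∈ Hyp) : Q.ρ w x ∈ Hyp := by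
  induction w using Q.cs.simple_induction_left with
  | one => rw [ρ_one]; exact hx
  | mul_simple_left w u ih => rw [ρ_mul, ρ_s]; exact reflB_mem_Hyp (Q.e_self u) ih

lemma continuous_ρ (w : Q.W) : Continuous (Q.ρ w) := (Q.ρ w).continuous_of_finiteDimensional

/-- two non-adjacent mirrors are far apart -/
lemma sep {u v : S} (huv : u ≠ v) (h : Q.adj u v = false) {x : V} (hx : x ∈ Q.P) :
    B x (Q.e u) + B x (Q.e v) ≤ -1 := by
  have h1 := rcs hx.1 (Q.e u + Q.e v)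
  rw [B_add_right, B_add_left, B_add_right, B_add_right, Q.e_self, Q.e_self,
    B_comm (Q.e v) (Q.e u)] at h1
  have h2 := Q.e_nadj u v huv h
  have h3 := hx.2 u
  have h4 := hx.2 v
  nlinarith

/-- product of a list of generators -/
def prodL (l : List S) : Q.W := (l.map Q.s).prod

@[simp] lemma prodL_nil : Q.prodL [] = 1 := rfl
@[simp] lemma prodL_cons (u : S) (l : List S) : Q.prodL (u :: l) = Q.s u * Q.prodL l := by
  simp [prodL]

lemma prodL_fix {x : V} (l : List S) (h : ∀ u ∈ l, B x (Q.e u) = 0) : Q.ρ (Q.prodL l) x = x := by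
  induction l with
  | nil => simp
  | cons u l ih =>
    rw [prodL_cons, ρ_mul, ih (fun v hv => h v (List.mem_cons_of_mem _ hv)), ρ_s, reflB_apply,
      h u List.mem_cons_self]
    module

lemma prodL_B (l : List S) (hl : l.Nodup) (hp : ∀ u ∈ l, ∀ v ∈ l, u ≠ v → Q.adj u v = true)
    (x : V) (v : S) (hv : ∀ u ∈ l, u ≠ v → Q.adj u v = true) :
    B (Q.ρ (Q.prodL l) x) (Q.e v) = if v ∈ l then -B x (Q.e v) else B x (Q.e v) := by
  induction l with
  | nil => simp
  | cons u l ih =>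
    have ih' := ih (List.nodup_cons.1 hl).2
      (fun a ha b hb => hp a (List.mem_cons_of_mem _ ha) b (List.mem_cons_of_mem _ hb))
      (fun a ha => hv a (List.mem_cons_of_mem _ ha))
    rw [prodL_cons, ρ_mul, ρ_s, reflB_apply, B_sub_left, B_smul_left, ih']
    by_cases huv : u = v
    · subst huv
      rw [Q.e_self, ih', if_neg (List.nodup_cons.1 hl).1, if_pos List.mem_cons_self]
      ring
    · rw [Q.e_adj u v (hv u List.mem_cons_self huv)]
      by_cases hvl : v ∈ l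
      · rw [if_pos hvl, if_pos (List.mem_cons_of_mem _ hvl)]; ring
      · rw [if_neg hvl, if_neg (by simp [hvl, Ne.symm huv])]; ring

/-- mirrors through a point of the chamber are adjacent -/
lemma adj_of_act {x : V} (hx : x ∈ Q.P) {u v : S} (huv : u ≠ v) (hu : B x (Q.e u) = 0)
    (hv : B x (Q.e v) = 0) : Q.adj u v = true := by
  by_contra h
  have := Q.sep huv (by simpa using h) hx
  rw [hu, hv] at this
  linarith

lemma near {x₀ : V} (hx₀ : x₀ ∈ Q.P) : ∀ᶠ x in 𝓝 x₀, x ∈ Hyp → ∃ T : Finset S,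
    (∀ u ∈ T, B x₀ (Q.e u) = 0) ∧ Q.ρ (Q.prodL T.toList) x ∈ Q.P := by
  classical
  have h1 : ∀ᶠ x in 𝓝 x₀, ∀ T : Finset S, ∀ u : S, (∀ u ∈ T, B x₀ (Q.e u) = 0) →
      B x₀ (Q.e u) ≠ 0 → B (Q.ρ (Q.prodL T.toList) x) (Q.e u) < 0 := by
    rw [eventually_all]
    intro T
    rw [eventually_all]
    intro u
    by_cases hT : ∀ u ∈ T, B x₀ (Q.e u) = 0
    · by_cases hu : B x₀ (Q.e u) = 0
      · exact Eventually.of_forall fun x _ h => absurd hu h
      · have hc : Continuous fun x => B (Q.ρ (Q.prodL T.toList) x) (Q.e u) :=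
          (continuous_B_left _).comp (Q.continuous_ρ _)
        have hlt : B (Q.ρ (Q.prodL T.toList) x₀) (Q.e u) < 0 := by
          rw [Q.prodL_fix T.toList (fun v hv => hT v (Finset.mem_toList.1 hv))]
          exact lt_of_le_of_ne (hx₀.2 u) hu
        filter_upwards [(hc.tendsto x₀).eventually_lt_const hlt] with x hx _ _
        exact hx
    · exact Eventually.of_forall fun x h _ => absurd h hT
  filter_upwards [h1] with x hx hxH
  set T : Finset S := Finset.univ.filter fun u => B x₀ (Q.e u) = 0 ∧ 0 < B x (Q.e u) with hTdef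
  have hT : ∀ u ∈ T, B x₀ (Q.e u) = 0 := fun u hu => (Finset.mem_filter.1 hu).2.1
  refine ⟨T, hT, Q.ρ_mem_Hyp _ hxH, ?_⟩
  intro u
  by_cases hu : B x₀ (Q.e u) = 0
  · rw [Q.prodL_B T.toList T.nodup_toList]
    · by_cases huT : u ∈ T
      · rw [if_pos (Finset.mem_toList.2 huT)]
        have := (Finset.mem_filter.1 huT).2.2
        linarith
      · rw [if_neg (fun h => huT (Finset.mem_toList.1 h))]
        by_contra hcon
        push Not at hcon
        exact huT (Finset.mem_filter.2 ⟨Finset.mem_univ _, hu, hcon⟩)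
    · intro a ha b hb hab
      exact Q.adj_of_act hx₀ hab (hT a (Finset.mem_toList.1 ha)) (hT b (Finset.mem_toList.1 hb))
    · intro a ha hab
      exact Q.adj_of_act hx₀ hab (hT a (Finset.mem_toList.1 ha)) hu
  · exact (hx T u hT hu).le

/-- The translates of the chamber cover the hyperboloid. -/
theorem cover {x : V} (hx : x ∈ Hyp) : ∃ w : Q.W, Q.ρ w x ∈ Q.P := by
  set O : Set V := Set.range fun w : Q.W => Q.ρ w x with hO
  have hOH : O ⊆ Hyp := by
    rintro _ ⟨w, rfl⟩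
    exact Q.ρ_mem_Hyp w hx
  have hcl : closure O ⊆ Hyp := closure_minimal hOH isClosed_Hyp
  have hK : IsCompact (closure O ∩ (Hyp ∩ {y : V | y.1 ≤ x.1})) :=
    (isCompact_Hyp_le x.1).inter_left isClosed_closure
  have hne : (closure O ∩ (Hyp ∩ {y : V | y.1 ≤ x.1})).Nonempty :=
    ⟨x, subset_closure ⟨1, Q.ρ_one x⟩, hx, le_refl x.1⟩
  obtain ⟨y, ⟨hyO, hyH, hyx⟩, hmin⟩ := hK.exists_isMinOn hne continuous_fst.continuousOn
  have hmin' : ∀ z ∈ closure O, y.1 ≤ z.1 := by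
    intro z hz
    rcases le_total z.1 x.1 with h | h
    · exact hmin ⟨hz, hcl hz, h⟩
    · exact le_trans hyx h
  have hyP : y ∈ Q.P := by
    refine ⟨hyH, fun u => ?_⟩
    by_contra hcon
    push Not at hcon
    have h1 : reflB (Q.e u) y ∈ closure O := by
      have hc : Continuous (reflB (Q.e u)) := (reflB (Q.e u)).continuous_of_finiteDimensional
      have h2 : Set.MapsTo (reflB (Q.e u)) O O := by
        rintro _ ⟨w, rfl⟩
        exact ⟨Q.s u * w, by simp only [ρ_mul, ρ_s]⟩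
      exact h2.closure hc hyO
    have h3 := hmin' _ h1
    rw [reflB_apply, Prod.fst_sub, Prod.smul_fst, smul_eq_mul] at h3
    have := Q.e_pos u
    nlinarith [mul_pos hcon this]
  have h1 := Q.near hyP
  rw [mem_closure_iff_frequently] at hyO
  obtain ⟨z, hz1, hz2⟩ := (hyO.and_eventually h1).exists
  obtain ⟨w, rfl⟩ := hz1
  obtain ⟨T, -, hT⟩ := hz2 (Q.ρ_mem_Hyp w hx)
  exact ⟨Q.prodL T.toList * w, by rw [ρ_mul]; exact hT⟩

lemma p0_mem_Hyp : p0 ∈ Hyp := by
  refine ⟨?_, ?_⟩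
  · simp [B, p0]
  · show (0:ℝ) < 1
    norm_num

lemma B_p0 (u : S) : B p0 (Q.e u) < 0 := by
  have := Q.e_pos u
  simp [B, p0]
  exact this

lemma p0_mem_P : p0 ∈ Q.P := ⟨p0_mem_Hyp, fun u => (Q.B_p0 u).le⟩

/-- `W` acts discretely at the base point. -/
theorem discrete : ∃ U : Set V, IsOpen U ∧ p0 ∈ U ∧ ∀ w : Q.W, Q.ρ w p0 ∈ U → w = 1 := by
  refine ⟨⋂ u, {x : V | B x (Q.e u) < 0}, ?_, ?_, ?_⟩
  · exact isOpen_iInter_of_finite fun u => isOpen_lt (continuous_B_left _) continuous_const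
  · exact Set.mem_iInter.2 fun u => Q.B_p0 u
  · intro w hw
    have h1 := Q.strict w Q.p0_mem_P ⟨Q.ρ_mem_Hyp w p0_mem_Hyp, fun u =>
      (Set.mem_iInter.1 hw u).le⟩
    have h2 : {u | B p0 (Q.e u) = 0} = ∅ := by
      ext u
      exact ⟨fun h => ((Q.B_p0 u).ne h).elim, fun h => h.elim⟩
    rw [h2, Set.image_empty, Subgroup.closure_empty, Subgroup.mem_bot] at h1
    exact h1.2

end Sys

end

end Pool.Agent.CR
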