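import Pool.Agent.CR.SpDef
import Pool.Agent.CR.Geom

/-! # The action of `Sp(1,1)` on `V` -/

namespace Pool.Agent.CR

open Quaternion Filter Topology

noncomputable section

lemma quat_ext {x y : ℍ[ℝ]} (h1 : x.re = y.re) (h2 : x.imI = y.imI) (h3 : x.imJ = y.imJ)
    (h4 : x.imK = y.imK) : x = y := QuaternionAlgebra.ext h1 h2 h3 h4

lemma V_ext {x y : V} (h : x.1 = y.1) (h' : x.2 = y.2) : x = y := Prod.ext h h'

namespace Sp

/-- The action of `Sp(1,1)` on `V`: `X ↦ g X g*` on matrices `[[s, q], [star q, s]]`. -/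
def act (g : Sp) (x : V) : V :=
  (((g.a * x.1 + g.b * star x.2) * star g.a + (g.a * x.2 + g.b * x.1) * star g.b).re,
    (g.a * x.1 + g.b * star x.2) * star g.c + (g.a * x.2 + g.b * x.1) * star g.d)

lemma act_12 (g : Sp) (x : V) : (act g x).2 =
    (g.a * x.1 + g.b * star x.2) * star g.c + (g.a * x.2 + g.b * x.1) * star g.d := rfl

lemma act_21 (g : Sp) (x : V) : star (act g x).2 =
    (g.c * x.1 + g.d * star x.2) * star g.a + (g.c * x.2 + g.d * x.1) * star g.b := by
  rw [act_12]
  simp only [star_add, star_mul, star_star, star_coe]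
  noncomm_ring

lemma act_11 (g : Sp) (x : V) : (((act g x).1 : ℝ) : ℍ[ℝ]) =
    (g.a * x.1 + g.b * star x.2) * star g.a + (g.a * x.2 + g.b * x.1) * star g.b := by
  apply quat_ext <;> simp [act] <;> ring

lemma re_eq (g : Sp) (q : ℍ[ℝ]) : (g.c * q * star g.d).re = (g.a * q * star g.b).re := by
  have h : star g.b * g.a = star g.d * g.c := g.h3's
  have e1 : (g.c * q * star g.d).re = (star g.d * g.c * q).re := by simp; ring
  have e2 : (g.a * q * star g.b).re = (star g.b * g.a * q).re := by simp; ring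
  rw [e1, e2, h]

lemma act_22 (g : Sp) (x : V) : (((act g x).1 : ℝ) : ℍ[ℝ]) =
    (g.c * x.1 + g.d * star x.2) * star g.c + (g.c * x.2 + g.d * x.1) * star g.d := by
  rw [act_11]
  have h := g.re_eq x.2
  have hb := g.normSq_b_eq
  have ha := g.normSq_a_eq
  rw [normSq_def', normSq_def'] at hb ha
  have h' : (g.c * x.2 * star g.d).re - (g.a * x.2 * star g.b).re = 0 := by rw [h, sub_self]
  simp at h'
  apply quat_ext
  · simp
    linear_combination x.1 * ha + x.1 * hb - 2 * h'
  · simp; ring
  · simp; ring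
  · simp; ring

lemma act_one (x : V) : act 1 x = x := by
  apply V_ext
  · simp [act]
  · simp [act]

lemma act_mul (g h : Sp) (x : V) : act (g * h) x = act g (act h x) := by
  have e11 := act_11 h x
  have e12 := act_12 h x
  have e21 := act_21 h x
  have e22 := act_22 h x
  apply V_ext
  · apply coe_injective
    rw [act_11, act_11 g]
    have : (g.a * ((act h x).1 : ℍ[ℝ]) + g.b * star (act h x).2) * star g.a
        + (g.a * (act h x).2 + g.b * ((act h x).1 : ℍ[ℝ])) * star g.b
        = g.a * ((act h x).1 : ℍ[ℝ]) * star g.a + g.b * star (act h x).2 * star g.a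
          + g.a * (act h x).2 * star g.b + g.b * ((act h x).1 : ℍ[ℝ]) * star g.b := by
      noncomm_ring
    rw [this]
    conv_rhs =>
      enter [1, 1, 1, 1, 2]
      rw [e11]
    conv_rhs =>
      enter [2, 1, 2]
      rw [e22]
    rw [e21, e12]
    simp only [mul_a, mul_b, star_add, star_mul]
    noncomm_ring
  · rw [act_12, act_12 g]
    have : (g.a * ((act h x).1 : ℍ[ℝ]) + g.b * star (act h x).2) * star g.c
        + (g.a * (act h x).2 + g.b * ((act h x).1 : ℍ[ℝ])) * star g.d
        = g.a * ((act h x).1 : ℍ[ℝ]) * star g.c + g.b * star (act h x).2 * star g.c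
          + g.a * (act h x).2 * star g.d + g.b * ((act h x).1 : ℍ[ℝ]) * star g.d := by
      noncomm_ring
    rw [this]
    conv_rhs =>
      enter [1, 1, 1, 1, 2]
      rw [e11]
    conv_rhs =>
      enter [2, 1, 2]
      rw [e22]
    rw [e21, e12]
    simp only [mul_a, mul_b, mul_c, mul_d, star_add, star_mul]
    noncomm_ring

lemma act_inv_act (g : Sp) (x : V) : act g⁻¹ (act g x) = x := by
  rw [← act_mul, inv_mul_cancel, act_one]

lemma act_act_inv (g : Sp) (x : V) : act g (act g⁻¹ x) = x := by
  rw [← act_mul, mul_inv_cancel, act_one]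

lemma act_add (g : Sp) (x y : V) : act g (x + y) = act g x + act g y := by
  apply V_ext
  · simp [act]; ring
  · simp only [act_12, Prod.snd_add, Prod.fst_add, coe_add, star_add]; noncomm_ring

lemma coe_B_self (x : V) : ((B x x : ℝ) : ℍ[ℝ]) = x.2 * star x.2 - x.1 * x.1 := by
  rw [self_mul_star, ← coe_mul, ← coe_sub, normSq_def', B]
  congr 1
  ring

lemma B_act_self (g : Sp) (x : V) : B (act g x) (act g x) = B x x := by
  apply coe_injective
  rw [coe_B_self, coe_B_self]
  -- abbreviations
  set α := g.a * x.1 + g.b * star x.2 with hα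
  set β := g.a * x.2 + g.b * x.1 with hβ
  have e11 : (((act g x).1 : ℝ) : ℍ[ℝ]) = α * star g.a + β * star g.b := act_11 g x
  have e12 : (act g x).2 = α * star g.c + β * star g.d := act_12 g x
  have e21 := act_21 g x
  -- first column
  have c1 : star g.a * ((act g x).1 : ℍ[ℝ]) - star g.c * star (act g x).2
      = x.1 * star g.a + x.2 * star g.b := by
    rw [act_11, e21]
    have : star g.a * ((g.a * x.1 + g.b * star x.2) * star g.a + (g.a * x.2 + g.b * x.1) * star g.b)
        - star g.c * ((g.c * x.1 + g.d * star x.2) * star g.a + (g.c * x.2 + g.d * x.1) * star g.b)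
        = (star g.a * g.a - star g.c * g.c) * (x.1 * star g.a + x.2 * star g.b)
          + (star g.a * g.b - star g.c * g.d) * (star x.2 * star g.a + x.1 * star g.b) := by
      noncomm_ring
    rw [this, g.sa', g.h3', sub_self, one_mul, zero_mul, add_zero]
  have c2 : star g.b * ((act g x).1 : ℍ[ℝ]) - star g.d * star (act g x).2
      = -(star x.2 * star g.a + x.1 * star g.b) := by
    rw [act_11, e21]
    have : star g.b * ((g.a * x.1 + g.b * star x.2) * star g.a + (g.a * x.2 + g.b * x.1) * star g.b)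
        - star g.d * ((g.c * x.1 + g.d * star x.2) * star g.a + (g.c * x.2 + g.d * x.1) * star g.b)
        = (star g.b * g.a - star g.d * g.c) * (x.1 * star g.a + x.2 * star g.b)
          - (star g.d * g.d - star g.b * g.b) * (star x.2 * star g.a + x.1 * star g.b) := by
      noncomm_ring
    rw [this, g.sd', g.h3's, sub_self, one_mul, zero_mul, zero_sub]
  have tot : (act g x).2 * star (act g x).2 - ((act g x).1 : ℍ[ℝ]) * ((act g x).1 : ℍ[ℝ])
      = -(α * (star g.a * ((act g x).1 : ℍ[ℝ]) - star g.c * star (act g x).2)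
        + β * (star g.b * ((act g x).1 : ℍ[ℝ]) - star g.d * star (act g x).2)) := by
    conv_lhs =>
      rw [show (act g x).2 * star (act g x).2
        = (α * star g.c + β * star g.d) * star (act g x).2 by rw [← e12]]
      rw [show ((act g x).1 : ℍ[ℝ]) * ((act g x).1 : ℍ[ℝ])
        = (α * star g.a + β * star g.b) * ((act g x).1 : ℍ[ℝ]) by rw [← e11]]
    noncomm_ring
  rw [tot, c1, c2, hα, hβ]
  have hx : ∀ q : ℍ[ℝ], (x.1 : ℍ[ℝ]) * q = q * x.1 := fun q => coe_commutes _ _
  have e1 : -((g.a * x.1 + g.b * star x.2) * (x.1 * star g.a + x.2 * star g.b)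
      + (g.a * x.2 + g.b * x.1) * -(star x.2 * star g.a + x.1 * star g.b))
      = g.a * (x.2 * star x.2 - x.1 * x.1) * star g.a - g.b * (star x.2 * x.2 - x.1 * x.1)
        * star g.b + (g.a * (x.2 * x.1 - x.1 * x.2) * star g.b
          + g.b * (x.1 * star x.2 - star x.2 * x.1) * star g.a) := by
    noncomm_ring
  rw [e1, hx x.2, hx (star x.2), sub_self, sub_self, mul_zero, mul_zero, zero_mul, zero_mul,
    add_zero, add_zero, star_mul_self, self_mul_star, ← coe_mul, ← coe_sub]
  have e2 : g.a * ((normSq x.2 - x.1 * x.1 : ℝ) : ℍ[ℝ]) * star g.a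
      - g.b * ((normSq x.2 - x.1 * x.1 : ℝ) : ℍ[ℝ]) * star g.b
      = ((normSq x.2 - x.1 * x.1 : ℝ) : ℍ[ℝ]) * (g.a * star g.a - g.b * star g.b) := by
    rw [← coe_commutes _ g.a, ← coe_commutes _ g.b]
    noncomm_ring
  rw [e2, g.sa, mul_one]

lemma B_act (g : Sp) (x y : V) : B (act g x) (act g y) = B x y := by
  have h := B_act_self g (x + y)
  rw [act_add, B_add_left, B_add_right, B_add_right, B_add_left, B_add_right, B_add_right,
    B_act_self, B_act_self, B_comm (act g y) (act g x), B_comm y x] at h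
  linarith

lemma continuous_act : Continuous fun p : Sp × V => act p.1 p.2 := by
  have ha := continuous_a.comp (continuous_fst (X := Sp) (Y := V))
  have hb := continuous_b.comp (continuous_fst (X := Sp) (Y := V))
  have hc := continuous_c.comp (continuous_fst (X := Sp) (Y := V))
  have hd := continuous_d.comp (continuous_fst (X := Sp) (Y := V))
  have h1 : Continuous fun p : Sp × V => ((p.2.1 : ℝ) : ℍ[ℝ]) :=
    continuous_coe.comp (continuous_fst.comp continuous_snd)
  have h2 : Continuous fun p : Sp × V => p.2.2 := continuous_snd.comp continuous_snd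
  have hα := (ha.mul h1).add (hb.mul h2.star)
  have hβ := (ha.mul h2).add (hb.mul h1)
  exact (continuous_re.comp ((hα.mul ha.star).add (hβ.mul hb.star))).prodMk
    ((hα.mul hc.star).add (hβ.mul hd.star))

lemma act_p0_fst (g : Sp) : (act g p0).1 = normSq g.a + normSq g.b := by
  simp [act, p0, normSq_def']
  ring

lemma act_mem_Hyp (g : Sp) {x : V} (hx : x ∈ Hyp) : act g x ∈ Hyp := by
  have hp : act g⁻¹ p0 ∈ Hyp := by
    refine ⟨by rw [B_act_self]; exact (Sys.p0_mem_Hyp).1, ?_⟩
    rw [act_p0_fst]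
    have := (g⁻¹).h1
    have h0 : 0 ≤ normSq (g⁻¹).b := normSq_nonneg
    linarith
  have h1 : B (act g x) (act g x) = -1 := by rw [B_act_self]; exact hx.1
  refine ⟨h1, ?_⟩
  have h2 := B_neg hx hp
  rw [← B_act g, act_act_inv] at h2
  simp [B, p0] at h2
  exact h2

/-- the polynomial map `X ↦ B(E,E) X - 2 B(E,X) E` -/
def Qr (E x : V) : V := B E E • x - (2 * B x E) • E

lemma Qr_eq {E : V} (hE : B E E = 1) (x : V) : Qr E x = reflB E x := by
  rw [Qr, hE, one_smul, reflB_apply]

/-- The element of `Sp(1,1)` acting as the product of two reflections. -/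
def pair (E F : V) (hE : B E E = 1) (hF : B F F = 1) : Sp where
  a := ((E.1 * F.1 : ℝ) : ℍ[ℝ]) - E.2 * star F.2
  b := (F.1 : ℍ[ℝ]) * E.2 - (E.1 : ℍ[ℝ]) * F.2
  c := (F.1 : ℍ[ℝ]) * star E.2 - (E.1 : ℍ[ℝ]) * star F.2
  d := ((E.1 * F.1 : ℝ) : ℍ[ℝ]) - star E.2 * F.2
  h1 := by
    have : (1 : ℝ) = B E E * B F F := by rw [hE, hF, one_mul]
    rw [this]
    simp [normSq_def', B]
    ring
  h2 := by
    have : (1 : ℝ) = B E E * B F F := by rw [hE, hF, one_mul]
    rw [this]
    simp [normSq_def', B]
    ring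
  h3 := by
    apply quat_ext <;> simp <;> ring

lemma act_pair (E F : V) (hE : B E E = 1) (hF : B F F = 1) (x : V) :
    act (pair E F hE hF) x = reflB E (reflB F x) := by
  rw [← Qr_eq hE, ← Qr_eq hF]
  apply V_ext
  · simp [act, pair, Qr, B]
    ring
  · apply quat_ext
    · simp [act, pair, Qr, B]
      ring
    · simp [act, pair, Qr, B]
      ring
    · simp [act, pair, Qr, B]
      ring
    · simp [act, pair, Qr, B]
      ring

/-- the kernel of the action -/
lemma eq_one_or {g : Sp} (h : ∀ x, act g x = x) : g = 1 ∨ (g.a = -1 ∧ g.b = 0 ∧ g.c = 0 ∧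
    g.d = -1) := by
  have h1 := h p0
  have h2 := congrArg Prod.fst h1
  rw [act_p0_fst] at h2
  have h3 := g.h1
  have h4 : normSq g.b = 0 := by
    simp only [p0] at h2
    linarith
  have hb : g.b = 0 := normSq_eq_zero.1 h4
  have hc : g.c = 0 := normSq_eq_zero.1 (by rw [← g.normSq_b_eq]; exact h4)
  have ha : g.a * star g.a = 1 := by have := g.sa; rwa [hb, zero_mul, sub_zero] at this
  have hd : g.d * star g.d = 1 := by have := g.sd; rwa [hc, zero_mul, sub_zero] at this
  have hd' : star g.d * g.d = 1 := by have := g.sd'; rwa [hb, mul_zero, sub_zero] at this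
  have key : ∀ q : ℍ[ℝ], g.a * q * star g.d = q := by
    intro q
    have := congrArg Prod.snd (h (0, q))
    rw [act_12] at this
    simpa [hb, hc] using this
  have had : g.a = g.d := by
    have := key 1
    rw [mul_one] at this
    calc g.a = g.a * (star g.d * g.d) := by rw [hd', mul_one]
      _ = (g.a * star g.d) * g.d := by rw [mul_assoc]
      _ = g.d := by rw [this, one_mul]
  have hcomm : ∀ q : ℍ[ℝ], g.a * q = q * g.a := by
    intro q
    calc g.a * q = g.a * q * (star g.d * g.d) := by rw [hd', mul_one]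
      _ = (g.a * q * star g.d) * g.d := by simp only [mul_assoc]
      _ = q * g.a := by rw [key q, had]
  have kK : ∀ q : ℍ[ℝ], g.a.re * q.imK + g.a.imI * q.imJ - g.a.imJ * q.imI + g.a.imK * q.re
      = q.re * g.a.imK + q.imI * g.a.imJ - q.imJ * g.a.imI + q.imK * g.a.re := by
    intro q
    rw [← imK_mul, ← imK_mul, hcomm]
  have kJ : ∀ q : ℍ[ℝ], g.a.re * q.imJ - g.a.imI * q.imK + g.a.imJ * q.re + g.a.imK * q.imI
      = q.re * g.a.imJ - q.imI * g.a.imK + q.imJ * g.a.re + q.imK * g.a.imI := by
    intro q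
    rw [← imJ_mul, ← imJ_mul, hcomm]
  have ej : g.a.imJ = 0 := by
    have := kK ⟨0, 1, 0, 0⟩
    dsimp only at this
    linarith
  have ei : g.a.imI = 0 := by
    have := kK ⟨0, 0, 1, 0⟩
    dsimp only at this
    linarith
  have ek : g.a.imK = 0 := by
    have := kJ ⟨0, 1, 0, 0⟩
    dsimp only at this
    linarith
  have hn : normSq g.a = 1 := by linarith
  rw [normSq_def', ei, ej, ek] at hn
  have hre : g.a.re = 1 ∨ g.a.re = -1 := by
    have : (g.a.re - 1) * (g.a.re + 1) = 0 := by nlinarith
    rcases mul_eq_zero.1 this with h | h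
    · left; linarith
    · right; linarith
  rcases hre with h | h
  · left
    have : g.a = 1 := by apply quat_ext <;> simp [h, ei, ej, ek]
    apply Sp.ext
    · exact this
    · exact hb
    · exact hc
    · rw [← had]; exact this
  · right
    have : g.a = -1 := by apply quat_ext <;> simp [h, ei, ej, ek]
    exact ⟨this, hb, hc, by rw [← had]; exact this⟩

end Sp

end

end Pool.Agent.CR
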