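import Pool.Agent.CR.Data

/-! # The finite certificate for MP_2377fe_an: typed interface -/

namespace Pool.Agent.CR.Data

/-! ### extraction of the kernel checks -/

theorem blt_lt {a b : Nat} (h : Nat.blt a b = true) : a < b := Eq.mp Nat.blt_eq h

theorem img_lt {u x : Nat} (hu : u < 120) (hx : x < 42) : img u x < 42 := by
  have h := (allB_iff _ _).1 ((allB_iff _ _).1 c_invol u hu) x hx
  rw [Bool.and_eq_true] at h
  exact blt_lt h.1

theorem img_img {u x : Nat} (hu : u < 120) (hx : x < 42) : img u (img u x) = x := by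
  have h := (allB_iff _ _).1 ((allB_iff _ _).1 c_invol u hu) x hx
  rw [Bool.and_eq_true] at h
  exact Nat.eq_of_beq_eq_true h.2

theorem adjN_symm {u v : Nat} (hu : u < 120) (hv : v < 120) (h : adjN u v = true) :
    adjN v u = true := by
  have h1 := (allB_iff _ _).1 ((allB_iff _ _).1 c_symm u hu) v hv
  simpa [h] using h1

theorem img_comm {u v x : Nat} (hu : u < 120) (hv : v < 120) (hx : x < 42)
    (h : adjN u v = true) : img u (img v x) = img v (img u x) := by
  have h1 := (allB_iff _ _).1 ((allB_iff _ _).1 c_comm u hu) v hv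
  rw [h] at h1
  have h2 : allB (fun x => Nat.beq (img u (img v x)) (img v (img u x))) 42 = true := by
    simpa using h1
  exact Nat.eq_of_beq_eq_true ((allB_iff _ _).1 h2 x hx)

theorem img_div {u x : Nat} (hu : u < 120) (hx : x < 42) : img u x / 6 = Rn u (x / 6) :=
  Nat.eq_of_beq_eq_true ((allB_iff _ _).1 ((allB_iff _ _).1 c_pt u hu) x hx)

theorem img_row {u i s : Nat} (hu : u < 120) (hi : i < 7) (hs : s < 6) :
    img u (6 * i + s) = lk (row u i) 6 s :=
  Nat.eq_of_beq_eq_true ((allB_iff _ _).1 ((allB_iff _ _).1 ((allB_iff _ _).1 c_row u hu) i hi) s hs)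

theorem id_row {i s : Nat} (hi : i < 7) (hs : s < 6) : 6 * i + s = lk (idrow i) 6 s :=
  Nat.eq_of_beq_eq_true ((allB_iff _ _).1 ((allB_iff _ _).1 c_idrow i hi) s hs)

theorem mirror_row {u i : Nat} (hu : u < 120) (hi : i < 7) (h : Rn u i = i) :
    row u i = idrow i := by
  have h1 := (allB_iff _ _).1 ((allB_iff _ _).1 c_mirror u hu) i hi
  have h2 : Nat.beq (Rn u i) i = true := by rw [h]; exact Nat.beq_refl i
  rw [h2] at h1
  exact Nat.eq_of_beq_eq_true (by simpa using h1)

/-! ### typed versions -/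

/-- adjacency of colours -/
def adj (u v : Fin 120) : Bool := adjN u.1 v.1

theorem adj_symm (u v : Fin 120) : adj u v = adj v u := by
  rw [Bool.eq_iff_iff]
  exact ⟨fun h => adjN_symm u.2 v.2 h, fun h => adjN_symm v.2 u.2 h⟩

theorem adj_irrefl (u : Fin 120) : adj u u = false := by
  have h := (allB_iff _ _).1 c_irrefl u.1 u.2
  simpa [adj] using h

/-- the involution of `Fin 42` of the colour `u` -/
def r (u : Fin 120) : Equiv.Perm (Fin 42) where
  toFun x := ⟨img u.1 x.1, img_lt u.2 x.2⟩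
  invFun x := ⟨img u.1 x.1, img_lt u.2 x.2⟩
  left_inv x := Fin.ext (img_img u.2 x.2)
  right_inv x := Fin.ext (img_img u.2 x.2)

theorem r_val (u : Fin 120) (x : Fin 42) : (r u x).1 = img u.1 x.1 := rfl

theorem r_r (u : Fin 120) (x : Fin 42) : r u (r u x) = x := Fin.ext (img_img u.2 x.2)

theorem r_sq (u : Fin 120) : r u * r u = 1 := Equiv.ext fun x => r_r u x

theorem r_comm_apply {u v : Fin 120} (h : adj u v = true) (x : Fin 42) :
    r u (r v x) = r v (r u x) := Fin.ext (img_comm u.2 v.2 x.2 h)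

theorem r_comm (u v : Fin 120) (h : adj u v = true) : r u * r v = r v * r u :=
  Equiv.ext fun x => r_comm_apply h x

/-- the point of a code -/
def pt (x : Fin 42) : Fin 7 := ⟨x.1 / 6, by omega⟩

/-- the sheet of a code -/
def sh (x : Fin 42) : Fin 6 := ⟨x.1 % 6, by omega⟩

/-- the code of a point and a sheet -/
def code (i : Fin 7) (s : Fin 6) : Fin 42 := ⟨6 * i.1 + s.1, by omega⟩

@[simp] theorem pt_code (i : Fin 7) (s : Fin 6) : pt (code i s) = i := by
  apply Fin.ext; simp only [pt, code]; omega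

@[simp] theorem sh_code (i : Fin 7) (s : Fin 6) : sh (code i s) = s := by
  apply Fin.ext; simp only [sh, code]; omega

@[simp] theorem code_pt_sh (x : Fin 42) : code (pt x) (sh x) = x := by
  apply Fin.ext; simp only [pt, sh, code]; omega

theorem Rn_lt {u i : Nat} (hu : u < 120) (hi : i < 7) : Rn u i < 7 := by
  have h := img_lt hu (x := 6 * i) (by omega)
  have h2 : Rn u i = img u (6 * i) / 6 := rfl
  omega

theorem Rn_Rn {u i : Nat} (hu : u < 120) (hi : i < 7) : Rn u (Rn u i) = i := by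
  have hx : 6 * i < 42 := by omega
  have h1 := img_div hu hx
  have h3 : 6 * i / 6 = i := by omega
  rw [h3] at h1
  have h4 := img_div hu (img_lt hu hx)
  rw [img_img hu hx, h1, h3] at h4
  exact h4.symm

/-- the involution of the set of points of the colour `u` -/
def R (u : Fin 120) : Equiv.Perm (Fin 7) where
  toFun i := ⟨Rn u.1 i.1, Rn_lt u.2 i.2⟩
  invFun i := ⟨Rn u.1 i.1, Rn_lt u.2 i.2⟩
  left_inv i := Fin.ext (Rn_Rn u.2 i.2)
  right_inv i := Fin.ext (Rn_Rn u.2 i.2)

theorem R_val (u : Fin 120) (i : Fin 7) : (R u i).1 = Rn u.1 i.1 := rfl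

theorem R_R (u : Fin 120) (i : Fin 7) : R u (R u i) = i := Fin.ext (Rn_Rn u.2 i.2)

theorem R_sq (u : Fin 120) : R u * R u = 1 := Equiv.ext fun x => R_R u x

theorem pt_r (u : Fin 120) (x : Fin 42) : pt (r u x) = R u (pt x) :=
  Fin.ext (img_div u.2 x.2)

theorem R_comm_apply {u v : Fin 120} (h : adj u v = true) (i : Fin 7) :
    R u (R v i) = R v (R u i) := by
  have h1 := congrArg pt (r_comm_apply h (code i 0))
  simpa [pt_r] using h1

theorem R_comm (u v : Fin 120) (h : adj u v = true) : R u * R v = R v * R u :=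
  Equiv.ext fun x => R_comm_apply h x

/-- A mirror acts trivially on the fibre. -/
theorem r_mirror {u : Fin 120} {x : Fin 42} (h : R u (pt x) = pt x) : r u x = x := by
  have h1 := mirror_row u.2 (pt x).2 (congrArg Fin.val h)
  apply Fin.ext
  have hx : x.1 = 6 * (pt x).1 + (sh x).1 := by simp only [pt, sh]; omega
  rw [r_val, hx, img_row u.2 (pt x).2 (sh x).2, h1, ← id_row (pt x).2 (sh x).2]

/-- the label of a code, a Gaussian integer -/
def lab (x : Fin 42) : ℤ × ℤ :=
  (((lk labT 10 x.1 % 32 : ℕ) : ℤ) - 16, ((lk labT 10 x.1 / 32 : ℕ) : ℤ) - 16)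

/-- the standard inner product of `ℤ × ℤ` -/
def dot (d z : ℤ × ℤ) : ℤ := d.1 * z.1 + d.2 * z.2

theorem dot_sub (d z w : ℤ × ℤ) : dot d (z - w) = dot d z - dot d w := by
  simp only [dot, Prod.fst_sub, Prod.snd_sub]; ring

theorem dot_neg (d z : ℤ × ℤ) : dot (-d) z = - dot d z := by
  simp only [dot, Prod.fst_neg, Prod.snd_neg]; ring

/-- the list of directions -/
def dir (k : Nat) : ℤ × ℤ :=
  (((lk dirD 6 k % 8 : ℕ) : ℤ) - 4, ((lk dirD 6 k / 8 : ℕ) : ℤ) - 4)

theorem V_dir : ∀ k : Fin 24, ∀ x : Fin 42, ((V k.1 x.1 : ℕ) : ℤ) = dot (dir k.1) (lab x) + 64 := by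
  decide +kernel

/-- action of a word in the colours: `actL [u, v, w] x = r u (r v (r w x))` -/
def actL (l : List (Fin 120)) (x : Fin 42) : Fin 42 := l.foldr (fun u y => r u y) x

@[simp] theorem actL_nil (x : Fin 42) : actL [] x = x := rfl

@[simp] theorem actL_cons (u : Fin 120) (l : List (Fin 120)) (x : Fin 42) :
    actL (u :: l) x = r u (actL l x) := rfl

theorem actL_append (l m : List (Fin 120)) (x : Fin 42) :
    actL (l ++ m) x = actL l (actL m x) := by
  simp [actL]

/-- two colours with the same row act in the same way on the fibre -/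
theorem r_eq_of_row {u v : Fin 120} {i : Fin 7} (h : row u.1 i.1 = row v.1 i.1) {x : Fin 42}
    (hx : pt x = i) : r u x = r v x := by
  subst hx
  apply Fin.ext
  have hx : x.1 = 6 * (pt x).1 + (sh x).1 := by simp only [pt, sh]; omega
  rw [r_val, r_val, hx, img_row u.2 (pt x).2 (sh x).2, h, ← img_row v.2 (pt x).2 (sh x).2]

theorem r_eq_of_idrow {u : Fin 120} {i : Fin 7} (h : row u.1 i.1 = idrow i.1) {x : Fin 42}
    (hx : pt x = i) : r u x = x := by
  subst hx
  apply Fin.ext
  have hx : x.1 = 6 * (pt x).1 + (sh x).1 := by simp only [pt, sh]; omega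
  rw [r_val, hx, img_row u.2 (pt x).2 (sh x).2, h, ← id_row (pt x).2 (sh x).2]

/-- at most two different nontrivial rows in a clique -/
theorem triple (i : Fin 7) {u v w : Fin 120} (huv : adj u v = true) (huw : adj u w = true)
    (hvw : adj v w = true) (hu : row u.1 i.1 ≠ idrow i.1) (hv : row v.1 i.1 ≠ idrow i.1)
    (hvu : row v.1 i.1 ≠ row u.1 i.1) :
    row w.1 i.1 = idrow i.1 ∨ row w.1 i.1 = row u.1 i.1 ∨ row w.1 i.1 = row v.1 i.1 := by
  have h1 := (allB_iff _ _).1 ((allB_iff _ _).1 c_triple i.1 i.2) u.1 u.2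
  rw [Bool.or_eq_true] at h1
  rcases h1 with h1 | h1
  · exact absurd (Nat.eq_of_beq_eq_true h1) hu
  have h2 := (allB_iff _ _).1 h1 v.1 v.2
  rw [Bool.or_eq_true, Bool.or_eq_true, Bool.or_eq_true] at h2
  rcases h2 with (h2 | h2 | h2) | h2
  · rw [show adjN u.1 v.1 = true from huv] at h2; exact absurd h2 (by simp)
  · exact absurd (Nat.eq_of_beq_eq_true h2) hv
  · exact absurd (Nat.eq_of_beq_eq_true h2) hvu
  have h3 := (allB_iff _ _).1 h2 w.1 w.2
  rw [Bool.or_eq_true, Bool.or_eq_true, Bool.or_eq_true, Bool.or_eq_true] at h3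
  rcases h3 with (h3 | h3) | (h3 | h3 | h3)
  · rw [show adjN u.1 w.1 = true from huw] at h3; exact absurd h3 (by simp)
  · rw [show adjN v.1 w.1 = true from hvw] at h3; exact absurd h3 (by simp)
  · exact Or.inl (Nat.eq_of_beq_eq_true h3)
  · exact Or.inr (Or.inl (Nat.eq_of_beq_eq_true h3))
  · exact Or.inr (Or.inr (Nat.eq_of_beq_eq_true h3))

/-- consequences of the test `half` -/
theorem half_spec {i u w : Nat} (h : half i u w = true) {s t : Nat} (ht : t < 6) (hst : s < t) :
    ∃ k, k < 24 ∧ V k (6 * i + t) < V k (6 * i + s) ∧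
      V k (img u (6 * i + t)) < V k (img u (6 * i + s)) ∧
      V k (img w (6 * i + t)) < V k (img w (6 * i + s)) ∧
      V k (img u (img w (6 * i + t))) < V k (img u (img w (6 * i + s))) := by
  have h1 := (allB_iff _ _).1 ((allB_iff _ _).1 h t ht) s hst
  obtain ⟨k, hk, h2⟩ := (anyB_iff _ _).1 h1
  rw [Bool.and_eq_true, Bool.and_eq_true, Bool.and_eq_true] at h2
  exact ⟨k, hk, blt_lt h2.1, blt_lt h2.2.1, blt_lt h2.2.2.1, blt_lt h2.2.2.2⟩

/-- In a clique, the words act on the fibre over `i` through at most four maps. -/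
theorem clique_orbit (C : Set (Fin 120)) (hC : ∀ u ∈ C, ∀ v ∈ C, u ≠ v → adj u v = true)
    (i : Fin 7) : ∃ v w : Fin 120, half i.1 v.1 w.1 = true ∧
      ∀ l : List (Fin 120), (∀ u ∈ l, u ∈ C) →
        (∀ x, pt x = i → actL l x = x) ∨ (∀ x, pt x = i → actL l x = r v x) ∨
        (∀ x, pt x = i → actL l x = r w x) ∨ (∀ x, pt x = i → actL l x = r v (r w x)) := by
  have hhalf1 : ∀ u : Fin 120, half i.1 u.1 u.1 = true := fun u =>
    (allB_iff _ _).1 ((allB_iff _ _).1 c_half1 i.1 i.2) u.1 u.2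
  have hcomm : ∀ u ∈ C, ∀ v ∈ C, ∀ x, r u (r v x) = r v (r u x) := by
    intro u hu v hv x
    by_cases huv : u = v
    · rw [huv]
    · exact r_comm_apply (hC u hu v hv huv) x
  by_cases hN : ∀ u ∈ C, row u.1 i.1 = idrow i.1
  · refine ⟨0, 0, hhalf1 0, ?_⟩
    intro l hl
    left
    induction l with
    | nil => intro x _; rfl
    | cons u l ih =>
      intro x hx
      have h1 := ih (fun v hv => hl v (List.mem_cons_of_mem _ hv)) x hx
      rw [actL_cons, h1]
      exact r_eq_of_idrow (hN u (hl u (List.mem_cons_self ..))) hx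
  · push Not at hN
    obtain ⟨v, hvC, hv⟩ := hN
    -- choose w
    obtain ⟨w, hwC, hhalf, hcase⟩ : ∃ w ∈ C, half i.1 v.1 w.1 = true ∧ ∀ u ∈ C,
        row u.1 i.1 = idrow i.1 ∨ row u.1 i.1 = row v.1 i.1 ∨ row u.1 i.1 = row w.1 i.1 := by
      by_cases hall : ∀ u ∈ C, row u.1 i.1 = idrow i.1 ∨ row u.1 i.1 = row v.1 i.1
      · exact ⟨v, hvC, hhalf1 v, fun u hu => (hall u hu).imp_right Or.inl⟩
      · push Not at hall
        obtain ⟨w, hwC, hw1, hw2⟩ := hall
        have hvw : v ≠ w := fun h => hw2 (by rw [h])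
        refine ⟨w, hwC, ?_, ?_⟩
        · have h1 := (allB_iff _ _).1 ((allB_iff _ _).1 c_half2 i.1 i.2) v.1 v.2
          rw [Bool.or_eq_true] at h1
          rcases h1 with h1 | h1
          · exact absurd (Nat.eq_of_beq_eq_true h1) hv
          have h2 := (allB_iff _ _).1 h1 w.1 w.2
          rw [Bool.or_eq_true, Bool.or_eq_true, Bool.or_eq_true] at h2
          rcases h2 with (h2 | h2 | h2) | h2
          · rw [show adjN v.1 w.1 = true from hC v hvC w hwC hvw] at h2
            exact absurd h2 (by simp)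
          · exact absurd (Nat.eq_of_beq_eq_true h2) hw1
          · exact absurd (Nat.eq_of_beq_eq_true h2).symm hw2
          · exact h2
        · intro u hu
          by_cases huv : u = v
          · right; left; rw [huv]
          by_cases huw : u = w
          · right; right; rw [huw]
          exact triple i (hC v hvC w hwC hvw) (hC v hvC u hu (Ne.symm huv))
            (hC w hwC u hu (Ne.symm huw)) hv hw1 hw2
    refine ⟨v, w, hhalf, ?_⟩
    intro l hl
    induction l with
    | nil => left; intro x _; rfl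
    | cons u l ih =>
      have hu : u ∈ C := hl u (List.mem_cons_self ..)
      have ih' := ih (fun v hv => hl v (List.mem_cons_of_mem _ hv))
      -- action of `u` on the fibre
      have hu' : (∀ x, pt x = i → r u x = x) ∨ (∀ x, pt x = i → r u x = r v x) ∨
          (∀ x, pt x = i → r u x = r w x) := by
        rcases hcase u hu with h | h | h
        · exact Or.inl fun x hx => r_eq_of_idrow h hx
        · exact Or.inr (Or.inl fun x hx => r_eq_of_row h hx)
        · exact Or.inr (Or.inr fun x hx => r_eq_of_row h hx)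
      have cuv := hcomm u hu v hvC
      have cuw := hcomm u hu w hwC
      have cvw := hcomm v hvC w hwC
      rcases ih' with h | h | h | h <;> rcases hu' with g | g | g
      · left; intro x hx; rw [actL_cons, h x hx, g x hx]
      · right; left; intro x hx; rw [actL_cons, h x hx, g x hx]
      · right; right; left; intro x hx; rw [actL_cons, h x hx, g x hx]
      · right; left; intro x hx; rw [actL_cons, h x hx, cuv, g x hx]
      · left; intro x hx; rw [actL_cons, h x hx, cuv, g x hx, r_r]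
      · right; right; right; intro x hx; rw [actL_cons, h x hx, cuv, g x hx]
      · right; right; left; intro x hx; rw [actL_cons, h x hx, cuw, g x hx]
      · right; right; right; intro x hx; rw [actL_cons, h x hx, cuw, g x hx, cvw]
      · left; intro x hx; rw [actL_cons, h x hx, cuw, g x hx, r_r]
      · right; right; right; intro x hx; rw [actL_cons, h x hx, cuv, cuw, g x hx]
      · right; right; left; intro x hx
        rw [actL_cons, h x hx, cuv, cuw, g x hx, cvw, r_r]
      · right; left; intro x hx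
        rw [actL_cons, h x hx, cuv, cuw, g x hx, r_r]

/-- **Half-plane theorem.**  For a clique `C` of colours and two different codes over the same
point, all the differences of labels along the orbit of the clique lie in an open half-plane. -/
theorem halfplane (C : Set (Fin 120)) (hC : ∀ u ∈ C, ∀ v ∈ C, u ≠ v → adj u v = true)
    (x y : Fin 42) (hpt : pt x = pt y) (hne : x ≠ y) : ∃ d : ℤ × ℤ,
      ∀ l : List (Fin 120), (∀ u ∈ l, u ∈ C) →
        0 < dot d (lab (actL l x) - lab (actL l y)) := by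
  -- reduce to `x < y`
  have key : ∀ x y : Fin 42, pt x = pt y → x.1 < y.1 → ∃ d : ℤ × ℤ,
      ∀ l : List (Fin 120), (∀ u ∈ l, u ∈ C) →
        0 < dot d (lab (actL l x) - lab (actL l y)) := by
    intro x y hpt hlt
    obtain ⟨v, w, hh, hl⟩ := clique_orbit C hC (pt x)
    have hx : x.1 = 6 * (pt x).1 + (sh x).1 := by simp only [pt, sh]; omega
    have hy : y.1 = 6 * (pt x).1 + (sh y).1 := by rw [hpt]; simp only [pt, sh]; omega
    have hst : (sh x).1 < (sh y).1 := by omega
    obtain ⟨k, hk, h1, h2, h3, h4⟩ := half_spec hh (sh y).2 hst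
    rw [← hx, ← hy] at h1 h2 h3 h4
    have hV : ∀ a b : Fin 42, V k b.1 < V k a.1 → 0 < dot (dir k) (lab a - lab b) := by
      intro a b hab
      have ha := V_dir ⟨k, hk⟩ a
      have hb := V_dir ⟨k, hk⟩ b
      simp only at ha hb
      rw [dot_sub]
      have : ((V k b.1 : ℕ) : ℤ) < ((V k a.1 : ℕ) : ℤ) := by exact_mod_cast hab
      omega
    refine ⟨dir k, fun l hlC => ?_⟩
    rcases hl l hlC with h | h | h | h
    · rw [h x rfl, h y hpt.symm]; exact hV x y h1
    · rw [h x rfl, h y hpt.symm]; exact hV _ _ h2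
    · rw [h x rfl, h y hpt.symm]; exact hV _ _ h3
    · rw [h x rfl, h y hpt.symm]; exact hV _ _ h4
  rcases lt_or_gt_of_ne (fun h => hne (Fin.ext h) : x.1 ≠ y.1) with h | h
  · exact key x y hpt h
  · obtain ⟨d, hd⟩ := key y x hpt.symm h
    refine ⟨-d, fun l hl => ?_⟩
    have h1 := hd l hl
    rw [dot_sub] at h1
    rw [dot_neg, dot_sub]
    omega

/-- the word `[2, 0]` of length 2 fixes the base point `0` and acts on its fibre as
`(0 1)(3 4)` -/
theorem loop : r 2 (r 0 0) = 1 ∧ r 2 (r 0 1) = 0 ∧ r 2 (r 0 2) = 2 ∧ r 2 (r 0 3) = 4 ∧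
    r 2 (r 0 4) = 3 ∧ r 2 (r 0 5) = 5 := by
  decide +kernel

theorem loop_R : R 2 (R 0 0) = 0 := by
  decide +kernel

/-! ### the icosians -/

/-- coordinate `k` of the icosian `u` is `(a + b φ) / 2` with `ico u k = (a, b)` -/
def ico (u : Fin 120) (k : Fin 4) : ℤ × ℤ :=
  (((lk icoT 6 (4 * u.1 + k.1) % 8 : ℕ) : ℤ) - 2, ((lk icoT 6 (4 * u.1 + k.1) / 8 : ℕ) : ℤ) - 2)

/-- multiplication of `ℤ[φ]`, `(a, b) = a + b φ` -/
def mulφ (x y : ℤ × ℤ) : ℤ × ℤ :=
  (x.1 * y.1 + x.2 * y.2, x.1 * y.2 + x.2 * y.1 + x.2 * y.2)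

/-- `4 * ⟨u, v⟩` in `ℤ[φ]` -/
def ipZ (u v : Fin 120) : ℤ × ℤ :=
  mulφ (ico u 0) (ico v 0) + mulφ (ico u 1) (ico v 1) + mulφ (ico u 2) (ico v 2)
    + mulφ (ico u 3) (ico v 3)

theorem ip_val : ∀ u v : Fin 120, (u = v ∧ ipZ u v = (4, 0)) ∨
    (adj u v = true ∧ ipZ u v = (0, 2)) ∨
    (u ≠ v ∧ adj u v = false ∧ ipZ u v ∈ [((2 : ℤ), (0 : ℤ)), (-2, 2), (0, 0), (2, -2), (-2, 0),
      (0, -2), (-4, 0)]) := by
  decide +kernel

/-- packed table of the 12 neighbours of `1` -/
def nbT : Nat := 0x56a94a846890a03668c98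

/-- packed table of the products -/
def nbmT : Nat := 0x8e4fa62cbcc6402f3df5db4e6408afd41cc960b9505f7cb6ed226c288c1d9e3c8d03416f9f58d25b30304c47b54a7c47213ebb78509a14982b36b35654650a0295d59bcf51005a70a428a2cdaa3ced2101e8de194edadea3b0e4f0ef3a21adb718a0ab49fb8cd8562bed8e2092d0f271befe5921b31c58ef5a78305228f027b575db4a750c0f171316d961062fbf3356587408abd05a24a539d25e742ecd610d28aedc7ce92418504c06dbb79700218c44f2c56647414e54e3a7a6c5208e7facd66934d9bdb91b495c8c40a94df39cf816aacfdcac6822b8609c3af3c77648c90736971ed56502de3ee2a5b6c8686f9a3870d030b0cad0a6ada2d9e22e9eb75e545008dc14dab58702696d4e60c272ea317f740a44602d383ebe1921b114182c95f1d34e51099fccf42bfb13326a875d88a67a48af41ebac98d7291f17375e5861107b705ca9a52dba9c0f9d3a9d0149bcaf60a2bad659ced43c48619960dc39b64c6c48e9ef5d18d24928700bb55193cb75049e59a52aacc4c8bef93810081cd82f1d71d34a60087e7c9a64230c38df75ba5ed2e31c370667144c2d68ad45e3bcb897a82f7e355a506c089f942dcb6131486e5726adb8c5307fbf98e23d34384f5c9f6e2328206c0ddebd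8f01315e9bb870dc10a82d7673d7526d093c5334c97845995d0ce101e6e2290276151ad14d004ab09326a355a23f4d6d97dc99e0ced3ab9bcaaa188f037699b29223af1ed911d72050cf3af8509624e0cdada0c26cf6612fdf73d75a78082bd5355a48790a06d75397db59024eb43f4e6195209efc7deb241c489b9069a3a4b1ca3e596428aac4983c069c389500196c5172446a45b16f95df15f74e51ac6ed28ecf31308d077e8992d2a2bc2eb448744a590b76561cd36d04df9cb366227068daf0972ea35deaee3ea224b4c8707fb9b8304c34b8ec1d5a348b03717d2ee0a2b6e6392e7e765c524c08267632d5504d0c8f5409c36029405e9d9911cd1028bebab9ec6cba3a7bcdae433414d88b0b66b9f213218b506daba4a9c2bc171cb99902591ed7765c5a5910ec2df6cd6e4a71ac8fa092dcd251def41b46609d680fd51295c97906be4de4a9aec658cf3cd8e22724608ebca9e3229440af18f8100620d02edd32d5485808eeff336aa76dac5770d526385c70890f6ea9d253a0bfb43d4a61b5587e5b672ebac4b82f5db4d94c68087c161f3e9102398fdf18b29938403f3cae6c22a4182756f45856690c5c4b75cb7a46a94e7b3830580ca03a908ba7a3919a4ccd6101eada2102b59499cd55005e9633b9747168df96b4c7905128edc6eda6ec0e1bdf7a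b870d42ce8ddcde0a2aefa699ede99417518480af79418dd5d042f9fb4585c70082d94f4d9467109bf1c7d6a242058bbb072a5a475da3e941e4c6091187c4931c36846b95e4d2326a8c6285c065b369300297f0d3acdb86ac99d4b36a5682238efc2e5b6cc4e9a0f56d69dd76906efbc9be7233470ac3673467249518fd9f8508e38c0eb108e2ca3a1f2ce3e61a3b2c8608d6ea092d4ee412ebef6dd565408cc0d19b38901614e7dd9416f0c202ab5b2544c550a6f340ac5602530af3f5e44cb9d428af54a1c7b2450e9cefd86ac8f19ac1f5dbb9b03511ef7b6dd5c5d106b30752aa465b2ef142bc7612170cc36374e7049619c6f20c278ce49ae5625abb0c550df7d58b28b2c680794d214c771022efcf254465c086e9cb2e52250309ed978100a18c8cfba6d38ef96a446a9cc0a92b4e0ebcaf5968ccf98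

/-- the 12 neighbours of the icosian `1` (which is the icosian number `0`) -/
def nb (j : Fin 12) : Fin 120 := ⟨lk nbT 7 j.1 % 120, Nat.mod_lt _ (by norm_num)⟩

/-- the number of the product `nb j * u` -/
def nbm (j : Fin 12) (u : Fin 120) : Fin 120 :=
  ⟨lk nbmT 7 (120 * j.1 + u.1) % 120, Nat.mod_lt _ (by norm_num)⟩

/-- quaternion multiplication in coordinates `(re, i, j, k)` in `ℤ[φ]` -/
def mulQ (v u : Fin 4 → ℤ × ℤ) : Fin 4 → ℤ × ℤ :=
  ![mulφ (v 0) (u 0) - mulφ (v 1) (u 1) - mulφ (v 2) (u 2) - mulφ (v 3) (u 3),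
    mulφ (v 0) (u 1) + mulφ (v 1) (u 0) + mulφ (v 2) (u 3) - mulφ (v 3) (u 2),
    mulφ (v 0) (u 2) - mulφ (v 1) (u 3) + mulφ (v 2) (u 0) + mulφ (v 3) (u 1),
    mulφ (v 0) (u 3) + mulφ (v 1) (u 2) - mulφ (v 2) (u 1) + mulφ (v 3) (u 0)]

theorem nb_eq : ∀ j : Fin 12, (nb j).1 = [24, 25, 26, 27, 32, 33, 34, 35, 40, 41, 42, 43][j.1] := by
  decide +kernel

theorem mul_nb : ∀ j : Fin 12, ∀ u : Fin 120, ∀ k : Fin 4,
    mulQ (ico (nb j)) (ico u) k = (2 * (ico (nbm j u) k).1, 2 * (ico (nbm j u) k).2) := by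
  decide +kernel

/-- the 12 neighbours of `1` -/
theorem adj_zero : ∀ v : Fin 120, adj 0 v = true ↔ ∃ j : Fin 12, v = nb j := by
  decide +kernel

end Pool.Agent.CR.Data
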