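import Pool.Agent.CR.ChamberGen
import Pool.Agent.CR.Cert

/-!
# The right-angled system of mirrors of the 120-cell
-/

namespace Pool.Agent.CR

open Quaternion Data

noncomputable section

lemma val_two_mul (h : ℤ × ℤ) : val (2 * h.1, 2 * h.2) = 2 * val h := by
  simp only [val]
  push_cast
  ring

lemma vecOf_mul {f g h : Fin 4 → ℤ × ℤ} (H : ∀ k, mulQ f g k = (2 * (h k).1, 2 * (h k).2)) :
    vecOf h = vecOf f * vecOf g := by
  have h0 := congrArg val (H 0)
  have h1 := congrArg val (H 1)
  have h2 := congrArg val (H 2)
  have h3 := congrArg val (H 3)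
  have e : mulφ = zm := rfl
  rw [val_two_mul] at h0 h1 h2 h3
  simp only [mulQ, e, Matrix.cons_val_zero, Matrix.cons_val_one, Matrix.cons_val] at h0 h1 h2 h3
  rw [val_sub, val_sub, val_sub] at h0
  rw [val_sub, val_add, val_add] at h1
  rw [val_add, val_add, val_sub] at h2
  rw [val_add, val_sub, val_add] at h3
  ext
  · rw [Quaternion.re_mul]; simp only [vecOf, val_zm]; linarith
  · rw [Quaternion.imI_mul]; simp only [vecOf, val_zm]; linarith
  · rw [Quaternion.imJ_mul]; simp only [vecOf, val_zm]; linarith
  · rw [Quaternion.imK_mul]; simp only [vecOf, val_zm]; linarith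

lemma nb12_eq : ∀ f ∈ nb12, ∃ j : Fin 12, f = ico (nb j) := by
  intro f hf
  simp only [nb12, List.mem_cons, List.not_mem_nil, or_false] at hf
  rcases hf with rfl | rfl | rfl | rfl | rfl | rfl | rfl | rfl | rfl | rfl | rfl | rfl
  · exact ⟨0, by funext k; revert k; decide +kernel⟩
  · exact ⟨1, by funext k; revert k; decide +kernel⟩
  · exact ⟨2, by funext k; revert k; decide +kernel⟩
  · exact ⟨3, by funext k; revert k; decide +kernel⟩
  · exact ⟨4, by funext k; revert k; decide +kernel⟩
  · exact ⟨5, by funext k; revert k; decide +kernel⟩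
  · exact ⟨6, by funext k; revert k; decide +kernel⟩
  · exact ⟨7, by funext k; revert k; decide +kernel⟩
  · exact ⟨8, by funext k; revert k; decide +kernel⟩
  · exact ⟨9, by funext k; revert k; decide +kernel⟩
  · exact ⟨10, by funext k; revert k; decide +kernel⟩
  · exact ⟨11, by funext k; revert k; decide +kernel⟩

/-- The system of the 120 mirrors. -/
def cell : Sys (Fin 120) :=
  mkSys ico adj adj_symm adj_irrefl
    (fun u => by
      rcases ip_val u u with h | h | h
      · exact h.2
      · rw [adj_irrefl] at h; exact absurd h.1 (by simp)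
      · exact absurd rfl h.1)
    (fun u v huv => by
      rcases ip_val u v with h | h | h
      · rw [h.1, adj_irrefl] at huv; exact absurd huv (by simp)
      · exact h.2
      · rw [h.2.1] at huv; exact absurd huv (by simp))
    (fun u v huv huv' => by
      rcases ip_val u v with h | h | h
      · exact absurd h.1 huv
      · rw [h.1] at huv'; exact absurd huv' (by simp)
      · exact h.2.2)
    (fun u f hf => by
      obtain ⟨j, rfl⟩ := nb12_eq f hf
      exact ⟨nbm j u, vecOf_mul (mul_nb j u)⟩)

@[simp] lemma cell_adj : cell.adj = adj := rfl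

lemma cell_e (u : Fin 120) : cell.e u = nrm (vecOf (ico u)) := rfl

end

end Pool.Agent.CR
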