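import Pool.Agent.CR.Defs

/-! # The chamber of the right-angled 120-cell: generic part -/


namespace Pool.Agent.CR

open Quaternion

/-- second moment of the icosahedron -/
lemma mom2 {φ : ℝ} (h : φ ^ 2 = φ + 1) (a b c : ℝ) :
    (a + (φ - 1) * b) ^ 2 + (a - (φ - 1) * b) ^ 2 + ((φ - 1) * a + c) ^ 2 + ((φ - 1) * a - c) ^ 2 +
      (b + (φ - 1) * c) ^ 2 + (b - (φ - 1) * c) ^ 2 = (6 - 2 * φ) * (a ^ 2 + b ^ 2 + c ^ 2) := by
  linear_combination 2 * (a ^ 2 + b ^ 2 + c ^ 2) * h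

/-- fourth moment of the icosahedron -/
lemma mom4 {φ : ℝ} (h : φ ^ 2 = φ + 1) (a b c : ℝ) :
    (a + (φ - 1) * b) ^ 4 + (a - (φ - 1) * b) ^ 4 + ((φ - 1) * a + c) ^ 4 + ((φ - 1) * a - c) ^ 4 +
      (b + (φ - 1) * c) ^ 4 + (b - (φ - 1) * c) ^ 4 =
      (12 - 6 * φ) * (a ^ 2 + b ^ 2 + c ^ 2) ^ 2 := by
  have h2 : (φ - 1) ^ 2 = 2 - φ := by linear_combination h
  have h4 : (φ - 1) ^ 4 = 5 - 3 * φ := by
    calc (φ - 1) ^ 4 = ((φ - 1) ^ 2) ^ 2 := by ring
      _ = (2 - φ) ^ 2 := by rw [h2]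
      _ = 5 - 3 * φ := by linear_combination h
  linear_combination 2 * (a ^ 4 + b ^ 4 + c ^ 4) * h4 +
    12 * (a ^ 2 * b ^ 2 + a ^ 2 * c ^ 2 + b ^ 2 * c ^ 2) * h2

lemma sum6 {x1 x2 x3 x4 x5 x6 M : ℝ} (t1 : |x1| ≤ M) (t2 : |x2| ≤ M) (t3 : |x3| ≤ M)
    (t4 : |x4| ≤ M) (t5 : |x5| ≤ M) (t6 : |x6| ≤ M) :
    x1 ^ 4 + x2 ^ 4 + x3 ^ 4 + x4 ^ 4 + x5 ^ 4 + x6 ^ 4 ≤
      M ^ 2 * (x1 ^ 2 + x2 ^ 2 + x3 ^ 2 + x4 ^ 2 + x5 ^ 2 + x6 ^ 2) := by
  have key : ∀ x : ℝ, |x| ≤ M → x ^ 4 ≤ M ^ 2 * x ^ 2 := by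
    intro x hx
    have h3 : x ^ 2 ≤ M ^ 2 := by
      rw [← sq_abs x]
      exact pow_le_pow_left₀ (abs_nonneg _) hx 2
    calc x ^ 4 = x ^ 2 * x ^ 2 := by ring
      _ ≤ M ^ 2 * x ^ 2 := mul_le_mul_of_nonneg_right h3 (sq_nonneg x)
  have := key _ t1
  have := key _ t2
  have := key _ t3
  have := key _ t4
  have := key _ t5
  have := key _ t6
  rw [mul_add, mul_add, mul_add, mul_add, mul_add]
  linarith

lemma abs_bound {φ : ℝ} (h : φ ^ 2 = φ + 1) (_ : 1.618 ≤ φ) (_ : φ ≤ 1.6181) {m a b c : ℝ}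
    (t1 : |a + (φ - 1) * b| ≤ m * (2 - φ)) (t2 : |a - (φ - 1) * b| ≤ m * (2 - φ))
    (t3 : |(φ - 1) * a + c| ≤ m * (2 - φ)) (t4 : |(φ - 1) * a - c| ≤ m * (2 - φ))
    (t5 : |b + (φ - 1) * c| ≤ m * (2 - φ)) (t6 : |b - (φ - 1) * c| ≤ m * (2 - φ)) :
    a ^ 2 + b ^ 2 + c ^ 2 ≤ 0.18 * m ^ 2 := by
  have h5 := sum6 t1 t2 t3 t4 t5 t6
  rw [mom2 h a b c, mom4 h a b c] at h5
  have hs0 : 0 ≤ a ^ 2 + b ^ 2 + c ^ 2 := by positivity
  generalize a ^ 2 + b ^ 2 + c ^ 2 = s at *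
  by_cases hs1 : s = 0
  · rw [hs1]; positivity
  have hs2 : 0 < s := lt_of_le_of_ne hs0 (Ne.symm hs1)
  have h7 : (m * (2 - φ)) ^ 2 * ((6 - 2 * φ) * s) = (m ^ 2 * (36 - 22 * φ)) * s := by
    linear_combination (m ^ 2 * s) * (-2 * φ + 12) * h
  have h6 : (12 - 6 * φ) * s ≤ m ^ 2 * (36 - 22 * φ) := by
    rw [h7] at h5
    refine le_of_mul_le_mul_right ?_ hs2
    calc (12 - 6 * φ) * s * s = (12 - 6 * φ) * s ^ 2 := by ring
      _ ≤ _ := h5
  have hm : 0 ≤ m ^ 2 := sq_nonneg m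
  nlinarith


noncomputable section

open Real

/-- the number `(a + b φ) / 2` -/
def val (a : ℤ × ℤ) : ℝ := ((a.1 : ℝ) + a.2 * goldenRatio) / 2

/-- the quaternion with the given coordinates in `ℤ[φ] / 2` -/
def vecOf (f : Fin 4 → ℤ × ℤ) : ℍ[ℝ] := ⟨val (f 0), val (f 1), val (f 2), val (f 3)⟩

/-- product in `ℤ[φ]` -/
def zm (x y : ℤ × ℤ) : ℤ × ℤ := (x.1 * y.1 + x.2 * y.2, x.1 * y.2 + x.2 * y.1 + x.2 * y.2)

/-- four times the scalar product -/
def zdot (f g : Fin 4 → ℤ × ℤ) : ℤ × ℤ :=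
  zm (f 0) (g 0) + zm (f 1) (g 1) + zm (f 2) (g 2) + zm (f 3) (g 3)

/-- scalar product of quaternions -/
def dot (p q : ℍ[ℝ]) : ℝ := p.re * q.re + p.imI * q.imI + p.imJ * q.imJ + p.imK * q.imK

lemma val_zm (x y : ℤ × ℤ) : val x * val y = val (zm x y) / 2 := by
  simp only [val, zm]
  push_cast
  linear_combination (x.2 * y.2 / 4 : ℝ) * goldenRatio_sq

lemma val_add (x y : ℤ × ℤ) : val (x + y) = val x + val y := by
  simp only [val, Prod.fst_add, Prod.snd_add]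
  push_cast
  ring

lemma val_sub (x y : ℤ × ℤ) : val (x - y) = val x - val y := by
  simp only [val, Prod.fst_sub, Prod.snd_sub]
  push_cast
  ring

lemma dot_vecOf (f g : Fin 4 → ℤ × ℤ) : dot (vecOf f) (vecOf g) = val (zdot f g) / 2 := by
  simp only [dot, vecOf, val_zm, zdot, val_add]
  ring

lemma gr_lo : (1.618 : ℝ) ≤ goldenRatio := by
  have : (2.236 : ℝ) ≤ √5 := by
    apply Real.le_sqrt_of_sq_le; norm_num
  unfold goldenRatio; linarith

lemma gr_hi : goldenRatio ≤ (1.6181 : ℝ) := by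
  have : √5 ≤ (2.2362 : ℝ) := by
    rw [Real.sqrt_le_left (by norm_num)]; norm_num
  unfold goldenRatio; linarith

/-- the outer normal of the mirror with icosian `u` -/
def nrm (u : ℍ[ℝ]) : V := (goldenRatio * √goldenRatio, (√2 * goldenRatio) • u)

lemma B_nrm (x : V) (u : ℍ[ℝ]) :
    B x (nrm u) = goldenRatio * (√2 * dot x.2 u - x.1 * √goldenRatio) := by
  simp only [B, nrm, dot, Quaternion.re_smul, Quaternion.imI_smul, Quaternion.imJ_smul,
    Quaternion.imK_smul, smul_eq_mul]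
  ring

lemma B_nrm_nrm (u v : ℍ[ℝ]) : B (nrm u) (nrm v) =
    goldenRatio ^ 2 * (2 * dot u v - goldenRatio) := by
  have h2 : √2 ^ 2 = 2 := Real.sq_sqrt (by norm_num)
  have h3 : √goldenRatio ^ 2 = goldenRatio := Real.sq_sqrt goldenRatio_pos.le
  simp only [B, nrm, dot, Quaternion.re_smul, Quaternion.imI_smul, Quaternion.imJ_smul,
    Quaternion.imK_smul, smul_eq_mul]
  linear_combination (goldenRatio ^ 2 * (u.re * v.re + u.imI * v.imI + u.imJ * v.imJ +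
    u.imK * v.imK)) * h2 - goldenRatio ^ 2 * h3

lemma dot_mul (q u v : ℍ[ℝ]) : dot q (v * u) = dot (q * star u) v := by
  simp only [dot, Quaternion.re_mul, Quaternion.imI_mul, Quaternion.imJ_mul, Quaternion.imK_mul,
    Quaternion.re_star, Quaternion.imI_star, Quaternion.imJ_star, Quaternion.imK_star]
  ring

lemma dot_self_mul (q u : ℍ[ℝ]) (hu : dot u u = 1) :
    dot (q * star u) (q * star u) = dot q q := by
  rw [← mul_one (dot q q), ← hu]
  simp only [dot, Quaternion.re_mul, Quaternion.imI_mul, Quaternion.imJ_mul, Quaternion.imK_mul,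
    Quaternion.re_star, Quaternion.imI_star, Quaternion.imJ_star, Quaternion.imK_star]
  ring

/-- the twelve neighbours of the identity -/
def nb12 : List (Fin 4 → ℤ × ℤ) :=
  [![(0, 1), (1, 0), (-1, 1), (0, 0)], ![(0, 1), (1, 0), (1, -1), (0, 0)],
   ![(0, 1), (-1, 0), (-1, 1), (0, 0)], ![(0, 1), (-1, 0), (1, -1), (0, 0)],
   ![(0, 1), (-1, 1), (0, 0), (1, 0)], ![(0, 1), (1, -1), (0, 0), (1, 0)],
   ![(0, 1), (-1, 1), (0, 0), (-1, 0)], ![(0, 1), (1, -1), (0, 0), (-1, 0)],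
   ![(0, 1), (0, 0), (1, 0), (-1, 1)], ![(0, 1), (0, 0), (1, 0), (1, -1)],
   ![(0, 1), (0, 0), (-1, 0), (-1, 1)], ![(0, 1), (0, 0), (-1, 0), (1, -1)]]

/-- if `1` maximises the scalar product with `q'` among itself and its neighbours then `q'` is
near its real part -/
lemma near (q : ℍ[ℝ]) (h : ∀ f ∈ nb12, dot q (vecOf f) ≤ q.re) :
    dot q q ≤ 1.18 * q.re ^ 2 ∧ 0 ≤ q.re := by
  simp only [nb12, List.forall_mem_cons, dot, vecOf, val, Matrix.cons_val_zero,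
    Matrix.cons_val_one, Matrix.cons_val] at h
  norm_num at h
  obtain ⟨h1, h2, h3, h4, h5, h6, h7, h8, h9, h10, h11, h12⟩ := h
  have := abs_bound (m := q.re) (a := q.imI) (b := q.imJ) (c := q.imK) goldenRatio_sq gr_lo gr_hi
    (abs_le.2 ⟨by linarith, by linarith⟩) (abs_le.2 ⟨by linarith, by linarith⟩)
    (abs_le.2 ⟨by linarith, by linarith⟩) (abs_le.2 ⟨by linarith, by linarith⟩)
    (abs_le.2 ⟨by linarith, by linarith⟩) (abs_le.2 ⟨by linarith, by linarith⟩)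
  have hlo := gr_hi
  refine ⟨by simp only [dot]; linarith, ?_⟩
  by_contra hc
  push Not at hc
  nlinarith

theorem bdd_of (S : Type) [Finite S] [Nonempty S] (vec : S → ℍ[ℝ]) (h1 : ∀ u, dot (vec u) (vec u) = 1)
    (hmul : ∀ u, ∀ f ∈ nb12, ∃ w, vec w = vecOf f * vec u) (x : V) (hx : x ∈ Hyp)
    (hB : ∀ u, B x (nrm (vec u)) ≤ 0) : x.1 ≤ 5 := by
  obtain ⟨u, hu⟩ := Finite.exists_max (fun u => dot x.2 (vec u))
  have hre : (x.2 * star (vec u)).re = dot x.2 (vec u) := by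
    simp only [dot, Quaternion.re_mul, Quaternion.re_star, Quaternion.imI_star,
      Quaternion.imJ_star, Quaternion.imK_star]
    ring
  have h2 : dot (x.2 * star (vec u)) (x.2 * star (vec u)) ≤ 1.18 * (x.2 * star (vec u)).re ^ 2 ∧
      0 ≤ (x.2 * star (vec u)).re := by
    apply near
    intro f hf
    obtain ⟨w, hw⟩ := hmul u f hf
    rw [← dot_mul, ← hw, hre]
    exact hu w
  rw [dot_self_mul _ _ (h1 u), hre] at h2
  obtain ⟨h2, hm0⟩ := h2
  set m := dot x.2 (vec u) with hm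
  have h3 := hB u
  rw [B_nrm, ← hm] at h3
  have h4 : √2 * m ≤ x.1 * √goldenRatio := by
    by_contra hc
    push Not at hc
    have := mul_pos goldenRatio_pos (sub_pos.2 hc)
    linarith
  have hx0 : 0 < x.1 := hx.2
  have h5 : 2 * m ^ 2 ≤ x.1 ^ 2 * goldenRatio := by
    have h6 : (√2 * m) ^ 2 ≤ (x.1 * √goldenRatio) ^ 2 := pow_le_pow_left₀ (by positivity) h4 2
    rw [mul_pow, mul_pow, Real.sq_sqrt (by norm_num), Real.sq_sqrt goldenRatio_pos.le] at h6
    exact h6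
  have h6 : dot x.2 x.2 = x.1 ^ 2 - 1 := by
    have := hx.1
    simp only [B] at this
    simp only [dot]
    linarith
  rw [h6] at h2
  have h7 := gr_hi
  by_contra hc
  push Not at hc
  nlinarith

lemma gr_mul : goldenRatio ^ 2 * (1 - goldenRatio) = - goldenRatio := by
  linear_combination (-goldenRatio) * goldenRatio_sq

/-- the possible values of four times the scalar product of two icosians which are neither equal
nor adjacent -/
def farVals : List (ℤ × ℤ) := [(2, 0), (-2, 2), (0, 0), (2, -2), (-2, 0), (0, -2), (-4, 0)]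

lemma farVals_le {z : ℤ × ℤ} (hz : z ∈ farVals) : val z ≤ 1 := by
  have h1 := gr_lo
  have h2 := gr_hi
  simp only [farVals, List.mem_cons, List.not_mem_nil, or_false] at hz
  rcases hz with rfl | rfl | rfl | rfl | rfl | rfl | rfl <;>
    (simp only [val]; push_cast; linarith)

/-- The right-angled system of mirrors of the 120-cell. -/
def mkSys {S : Type} [Fintype S] [DecidableEq S] [Nonempty S] (ico : S → Fin 4 → ℤ × ℤ)
    (adj : S → S → Bool) (adj_symm : ∀ u v, adj u v = adj v u) (adj_irrefl : ∀ u, adj u u = false)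
    (h_self : ∀ u, zdot (ico u) (ico u) = (4, 0))
    (h_adj : ∀ u v, adj u v = true → zdot (ico u) (ico v) = (0, 2))
    (h_nadj : ∀ u v, u ≠ v → adj u v = false → zdot (ico u) (ico v) ∈ farVals)
    (h_mul : ∀ u, ∀ f ∈ nb12, ∃ w, vecOf (ico w) = vecOf f * vecOf (ico u)) : Sys S where
  adj := adj
  adj_symm := adj_symm
  adj_irrefl := adj_irrefl
  e u := nrm (vecOf (ico u))
  e_pos u := mul_pos goldenRatio_pos (Real.sqrt_pos.2 goldenRatio_pos)
  e_self u := by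
    rw [B_nrm_nrm, dot_vecOf, h_self]
    simp only [val]
    push_cast
    linear_combination (1 - goldenRatio) * goldenRatio_sq
  e_adj u v h := by
    rw [B_nrm_nrm, dot_vecOf, h_adj u v h]
    simp only [val]
    push_cast
    ring
  e_nadj u v h h' := by
    rw [B_nrm_nrm, dot_vecOf]
    have h1 := farVals_le (h_nadj u v h h')
    have h2 := gr_lo
    have h3 := gr_mul
    have h4 : 0 < goldenRatio ^ 2 := by positivity
    nlinarith
  bdd := by
    refine ⟨5, fun x hx hB => bdd_of S (fun u => vecOf (ico u)) (fun u => ?_) h_mul x hx hB⟩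
    rw [dot_vecOf, h_self]
    simp only [val]
    push_cast
    ring

end

end Pool.Agent.CR
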