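import Pool.Agent.CR.Cert

/-!
# Cocycles on the oriented `W`-set are coboundaries
-/

namespace Pool.Agent.CR.Data

/-- end points of the thick edges (indices 1..24), 3 bits -/
def enT : Nat := 0x6db6d6db6c924818408

/-- end point of the thick edge `e` -/
def en (e : Nat) : Nat := lk enT 3 e

theorem k_mir : allB (fun u => allB (fun i => or (not (Nat.beq (Rn u i) i))
    (or (and (Nat.beq (rk u i) 0) (Nat.beq u (rootM i)))
      (and (and (Nat.blt (par u i) 120) (adjN u (par u i)))
        (and (Nat.beq (Rn (par u i) i) i) (Nat.blt (rk (par u i) i) (rk u i)))))) 7) 120 = true := by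
  decide +kernel

theorem k_mov : allB (fun u => allB (fun i => or (Nat.beq (Rn u i) i)
    (and (and (Nat.blt (par u i) 120) (adjN u (par u i)))
        (Nat.beq (Rn (par u i) i) i))) 7) 120 = true := by
  decide +kernel

theorem k_clus : allB (fun u => allB (fun i => or (Nat.beq (Rn u i) i)
    (or (and (Nat.beq (rkE u i) 0) (Nat.beq u (rootC (En u i))))
      (and (and (Nat.blt (parE u i) 120) (adjN u (parE u i)))
        (and (Nat.beq (Rn (parE u i) i) (Rn u i)) (and (Nat.beq (En (parE u i) i) (En u i))
          (Nat.blt (rkE (parE u i) i) (rkE u i))))))) 7) 120 = true := by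
  decide +kernel

theorem k_en : allB (fun u => allB (fun i => or (Nat.beq (Rn u i) i)
    (and (and (Nat.blt 0 (En u i)) (Nat.blt (En u i) 25))
      (and (Nat.beq (En u (Rn u i)) (En u i))
       (or (and (Nat.beq i (st (En u i))) (Nat.beq (Rn u i) (en (En u i))))
        (and (and (Nat.beq i (en (En u i))) (not (Nat.beq i (st (En u i)))))
          (Nat.beq (Rn u i) (st (En u i)))))))) 7) 120 = true := by
  decide +kernel

theorem kk {p : Nat → Nat → Bool} (h : allB (fun u => allB (fun i => p u i) 7) 120 = true)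
    (u : Fin 120) (i : Fin 7) : p u.1 i.1 = true := by
  have h1 := (allB_iff _ _).1 h u.1 u.2
  exact (allB_iff _ _).1 h1 i.1 i.2


theorem R_eq_iff (u : Fin 120) (i j : Fin 7) : R u i = j ↔ Rn u.1 i.1 = j.1 := by
  rw [Fin.ext_iff, R_val]

theorem mirF (u : Fin 120) (i : Fin 7) (h : R u i = i) :
    (rk u.1 i.1 = 0 ∧ u.1 = rootM i.1) ∨
      ∃ p : Fin 120, adj u p = true ∧ R p i = i ∧ rk p.1 i.1 < rk u.1 i.1 := by
  have h0 := kk k_mir u i
  rw [R_eq_iff] at h
  simp only [Bool.or_eq_true, Bool.and_eq_true, Bool.not_eq_true', Nat.beq_eq, beq_iff_eq,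
    Nat.blt_eq, Bool.not_eq_true] at h0
  rcases h0 with h0 | ⟨h1, h2⟩ | ⟨⟨h1, h2⟩, h3, h4⟩
  · rw [h] at h0
    simp at h0
  · exact Or.inl ⟨h1, h2⟩
  · exact Or.inr ⟨⟨par u.1 i.1, h1⟩, h2, (R_eq_iff _ _ _).2 h3, h4⟩

theorem movF (u : Fin 120) (i : Fin 7) (h : R u i ≠ i) :
    ∃ p : Fin 120, adj u p = true ∧ R p i = i := by
  have h0 := kk k_mov u i
  rw [Ne, R_eq_iff] at h
  simp only [Bool.or_eq_true, Bool.and_eq_true, Nat.beq_eq, Nat.blt_eq] at h0
  rcases h0 with h0 | ⟨⟨h1, h2⟩, h3⟩
  · exact absurd h0 h
  · exact ⟨⟨par u.1 i.1, h1⟩, h2, (R_eq_iff _ _ _).2 h3⟩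

theorem clusF (u : Fin 120) (i : Fin 7) (h : R u i ≠ i) :
    (rkE u.1 i.1 = 0 ∧ u.1 = rootC (En u.1 i.1)) ∨
      ∃ p : Fin 120, adj u p = true ∧ R p i = R u i ∧ En p.1 i.1 = En u.1 i.1 ∧
        rkE p.1 i.1 < rkE u.1 i.1 := by
  have h0 := kk k_clus u i
  rw [Ne, R_eq_iff] at h
  simp only [Bool.or_eq_true, Bool.and_eq_true, Nat.beq_eq, Nat.blt_eq] at h0
  rcases h0 with h0 | ⟨h1, h2⟩ | ⟨⟨h1, h2⟩, h3, h4, h5⟩
  · exact absurd h0 h
  · exact Or.inl ⟨h1, h2⟩
  · exact Or.inr ⟨⟨parE u.1 i.1, h1⟩, h2, (R_eq_iff _ _ _).2 h3, h4, h5⟩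

theorem enF (u : Fin 120) (i : Fin 7) (h : R u i ≠ i) :
    (0 < En u.1 i.1 ∧ En u.1 i.1 < 25) ∧ En u.1 (R u i).1 = En u.1 i.1 ∧
      ((i.1 = st (En u.1 i.1) ∧ (R u i).1 = en (En u.1 i.1)) ∨
        (i.1 = en (En u.1 i.1) ∧ i.1 ≠ st (En u.1 i.1) ∧ (R u i).1 = st (En u.1 i.1))) := by
  have h0 := kk k_en u i
  rw [Ne, R_eq_iff] at h
  simp only [Bool.or_eq_true, Bool.and_eq_true, Nat.beq_eq, Nat.blt_eq, Bool.not_eq_true',
    Bool.not_eq_true] at h0
  rw [R_val]
  rcases h0 with h0 | ⟨⟨h1, h2⟩, h3, ⟨h4, h5⟩ | ⟨⟨h4, h5⟩, h6⟩⟩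
  · exact absurd h0 h
  · exact ⟨⟨h1, h2⟩, h3, Or.inl ⟨h4, h5⟩⟩
  · refine ⟨⟨h1, h2⟩, h3, Or.inr ⟨h4, ?_, h6⟩⟩
    intro hh
    rw [← hh] at h5
    simp at h5


section

variable (a : Fin 7 → Fin 120 → ℚ) (ha1 : ∀ i u, a (R u i) u = - a i u)
  (ha2 : ∀ u v, adj u v = true → ∀ i, a i u + a (R u i) v = a i v + a (R v i) u)

include ha1 ha2

theorem a_bigon (u p : Fin 120) (i : Fin 7) (h : adj u p = true) (hR : R p i = R u i) :
    a i u = a i p := by
  have h1 := ha2 u p h i
  have h2 := ha1 i u
  have h3 := ha1 i p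
  rw [hR] at h3 h1
  rw [h2, h3] at h1
  linarith

/-- value on a thick edge -/
theorem a_val (u : Fin 120) (i : Fin 7) (h : R u i ≠ i) (w : Fin 120) (j : Fin 7)
    (hw : w.1 = rootC (En u.1 i.1)) (hj : j.1 = st (En u.1 i.1)) :
    a i u = if i.1 = st (En u.1 i.1) then a j w else - a j w := by
  have key : ∀ n : ℕ, ∀ u : Fin 120, rkE u.1 j.1 = n → R u j ≠ j → w.1 = rootC (En u.1 j.1) →
      a j u = a j w := by
    intro n
    induction n using Nat.strong_induction_on with
    | _ n ih =>
      intro u hn hu hw'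
      rcases clusF u j hu with ⟨-, h2⟩ | ⟨p, hp1, hp2, hp3, hp4⟩
      · have : u = w := Fin.ext (by rw [h2, hw'])
        rw [this]
      · rw [a_bigon a ha1 ha2 u p j hp1 hp2]
        exact ih _ (by omega) p rfl (by rw [hp2]; exact hu) (by rw [hp3]; exact hw')
  obtain ⟨-, h2, h3 | ⟨h3, h4, h5⟩⟩ := enF u i h
  · rw [if_pos h3.1]
    have hij : i = j := Fin.ext (by rw [h3.1, hj])
    subst hij
    exact key _ u rfl h hw
  · rw [if_neg h4]
    have hij : R u i = j := Fin.ext (by rw [h5, hj])
    have h6 := ha1 i u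
    rw [hij] at h6
    have h7 : a j u = a j w := by
      refine key _ u rfl ?_ ?_
      · rw [← hij, R_R]; exact fun hh => h hh.symm
      · rw [← hij, h2]; exact hw
    linarith

end


/-- the untwisted part is a coboundary -/
theorem a_cob (a : Fin 7 → Fin 120 → ℚ) (ha1 : ∀ i u, a (R u i) u = - a i u)
    (ha2 : ∀ u v, adj u v = true → ∀ i, a i u + a (R u i) v = a i v + a (R v i) u) :
    ∃ z : Fin 7 → ℚ, ∀ i u, a i u = z (R u i) - z i := by
  have hst : ∀ e : Fin 25, st e.1 < 7 := by decide +kernel
  have hro : ∀ e : Fin 25, rootC e.1 < 120 := by decide +kernel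
  obtain ⟨x, hx⟩ : ∃ x : ℕ → ℚ, ∀ e : Fin 25, x e.1 = a ⟨st e.1, hst e⟩ ⟨rootC e.1, hro e⟩ := by
    refine ⟨fun n => if h : n < 25 then a ⟨st n, hst ⟨n, h⟩⟩ ⟨rootC n, hro ⟨n, h⟩⟩ else 0, ?_⟩
    intro e
    simp only [dif_pos e.2]
  have val : ∀ (u : Fin 120) (i : Fin 7), R u i ≠ i →
      a i u = if i.1 = st (En u.1 i.1) then x (En u.1 i.1) else - x (En u.1 i.1) := by
    intro u i h
    obtain ⟨⟨h1, h2⟩, -⟩ := enF u i h
    rw [hx ⟨En u.1 i.1, h2⟩]
    exact a_val a ha1 ha2 u i h _ _ rfl rfl
  have pos : ∀ (u : Fin 120) (i : Fin 7) (e : ℕ), R u i ≠ i → En u.1 i.1 = e → i.1 = st e →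
      a i u = x e := by
    intro u i e h1 h2 h3
    rw [val u i h1, h2, if_pos h3]
  have neg : ∀ (u : Fin 120) (i : Fin 7) (e : ℕ), R u i ≠ i → En u.1 i.1 = e → i.1 ≠ st e →
      a i u = - x e := by
    intro u i e h1 h2 h3
    rw [val u i h1, h2, if_neg h3]

  have s0 := ha2 0 25 (by decide +kernel) 0
  rw [show R 0 0 = 1 by decide +kernel, show R 25 0 = 3 by decide +kernel,
    pos 0 0 1 (by decide +kernel) (by decide +kernel) (by decide +kernel),
    pos 25 1 24 (by decide +kernel) (by decide +kernel) (by decide +kernel),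
    pos 25 0 5 (by decide +kernel) (by decide +kernel) (by decide +kernel),
    pos 0 3 23 (by decide +kernel) (by decide +kernel) (by decide +kernel)] at s0
  have s1 := ha2 2 75 (by decide +kernel) 0
  rw [show R 2 0 = 1 by decide +kernel, show R 75 0 = 2 by decide +kernel,
    neg 2 0 2 (by decide +kernel) (by decide +kernel) (by decide +kernel),
    pos 75 1 7 (by decide +kernel) (by decide +kernel) (by decide +kernel),
    pos 75 0 3 (by decide +kernel) (by decide +kernel) (by decide +kernel),
    pos 2 2 8 (by decide +kernel) (by decide +kernel) (by decide +kernel)] at s1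
  have s2 := ha2 5 93 (by decide +kernel) 0
  rw [show R 5 0 = 1 by decide +kernel, show R 93 0 = 2 by decide +kernel,
    neg 5 0 2 (by decide +kernel) (by decide +kernel) (by decide +kernel),
    pos 93 1 11 (by decide +kernel) (by decide +kernel) (by decide +kernel),
    pos 93 0 3 (by decide +kernel) (by decide +kernel) (by decide +kernel),
    pos 5 2 10 (by decide +kernel) (by decide +kernel) (by decide +kernel)] at s2
  have s3 := ha2 5 95 (by decide +kernel) 0
  rw [show R 5 0 = 1 by decide +kernel, show R 95 0 = 3 by decide +kernel,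
    neg 5 0 2 (by decide +kernel) (by decide +kernel) (by decide +kernel),
    pos 95 1 20 (by decide +kernel) (by decide +kernel) (by decide +kernel),
    neg 95 0 6 (by decide +kernel) (by decide +kernel) (by decide +kernel),
    pos 5 3 19 (by decide +kernel) (by decide +kernel) (by decide +kernel)] at s3
  have s4 := ha2 6 66 (by decide +kernel) 0
  rw [show R 6 0 = 3 by decide +kernel, show R 66 0 = 2 by decide +kernel,
    pos 6 0 5 (by decide +kernel) (by decide +kernel) (by decide +kernel),
    pos 66 3 18 (by decide +kernel) (by decide +kernel) (by decide +kernel),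
    pos 66 0 3 (by decide +kernel) (by decide +kernel) (by decide +kernel),
    pos 6 2 13 (by decide +kernel) (by decide +kernel) (by decide +kernel)] at s4
  have s5 := ha2 6 82 (by decide +kernel) 0
  rw [show R 6 0 = 3 by decide +kernel, show R 82 0 = 2 by decide +kernel,
    pos 6 0 5 (by decide +kernel) (by decide +kernel) (by decide +kernel),
    pos 82 3 14 (by decide +kernel) (by decide +kernel) (by decide +kernel),
    neg 82 0 4 (by decide +kernel) (by decide +kernel) (by decide +kernel),
    pos 6 2 13 (by decide +kernel) (by decide +kernel) (by decide +kernel)] at s5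
  have s6 := ha2 8 48 (by decide +kernel) 0
  rw [show R 8 0 = 3 by decide +kernel, show R 48 0 = 1 by decide +kernel,
    pos 8 0 5 (by decide +kernel) (by decide +kernel) (by decide +kernel),
    pos 48 3 19 (by decide +kernel) (by decide +kernel) (by decide +kernel),
    neg 48 0 2 (by decide +kernel) (by decide +kernel) (by decide +kernel),
    pos 8 1 24 (by decide +kernel) (by decide +kernel) (by decide +kernel)] at s6
  have s7 := ha2 9 56 (by decide +kernel) 0
  rw [show R 9 0 = 2 by decide +kernel, show R 56 0 = 3 by decide +kernel,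
    neg 9 0 4 (by decide +kernel) (by decide +kernel) (by decide +kernel),
    pos 56 2 17 (by decide +kernel) (by decide +kernel) (by decide +kernel),
    pos 56 0 5 (by decide +kernel) (by decide +kernel) (by decide +kernel),
    pos 9 3 16 (by decide +kernel) (by decide +kernel) (by decide +kernel)] at s7
  have s8 := ha2 9 84 (by decide +kernel) 0
  rw [show R 9 0 = 2 by decide +kernel, show R 84 0 = 1 by decide +kernel,
    neg 9 0 4 (by decide +kernel) (by decide +kernel) (by decide +kernel),
    pos 84 2 12 (by decide +kernel) (by decide +kernel) (by decide +kernel),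
    pos 84 0 1 (by decide +kernel) (by decide +kernel) (by decide +kernel),
    pos 9 1 11 (by decide +kernel) (by decide +kernel) (by decide +kernel)] at s8
  have s9 := ha2 11 99 (by decide +kernel) 0
  rw [show R 11 0 = 1 by decide +kernel, show R 99 0 = 2 by decide +kernel,
    pos 11 0 1 (by decide +kernel) (by decide +kernel) (by decide +kernel),
    pos 99 1 7 (by decide +kernel) (by decide +kernel) (by decide +kernel),
    pos 99 0 3 (by decide +kernel) (by decide +kernel) (by decide +kernel),
    pos 11 2 12 (by decide +kernel) (by decide +kernel) (by decide +kernel)] at s9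
  have s10 := ha2 14 27 (by decide +kernel) 0
  rw [show R 14 0 = 2 by decide +kernel, show R 27 0 = 1 by decide +kernel,
    neg 14 0 4 (by decide +kernel) (by decide +kernel) (by decide +kernel),
    pos 27 2 8 (by decide +kernel) (by decide +kernel) (by decide +kernel),
    pos 27 0 1 (by decide +kernel) (by decide +kernel) (by decide +kernel),
    pos 14 1 9 (by decide +kernel) (by decide +kernel) (by decide +kernel)] at s10
  have s11 := ha2 14 92 (by decide +kernel) 0
  rw [show R 14 0 = 2 by decide +kernel, show R 92 0 = 1 by decide +kernel,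
    neg 14 0 4 (by decide +kernel) (by decide +kernel) (by decide +kernel),
    pos 92 2 10 (by decide +kernel) (by decide +kernel) (by decide +kernel),
    neg 92 0 2 (by decide +kernel) (by decide +kernel) (by decide +kernel),
    pos 14 1 9 (by decide +kernel) (by decide +kernel) (by decide +kernel)] at s11
  have s12 := ha2 20 44 (by decide +kernel) 0
  rw [show R 20 0 = 2 by decide +kernel, show R 44 0 = 3 by decide +kernel,
    pos 20 0 3 (by decide +kernel) (by decide +kernel) (by decide +kernel),
    pos 44 2 17 (by decide +kernel) (by decide +kernel) (by decide +kernel),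
    neg 44 0 6 (by decide +kernel) (by decide +kernel) (by decide +kernel),
    pos 20 3 18 (by decide +kernel) (by decide +kernel) (by decide +kernel)] at s12
  have s13 := ha2 21 39 (by decide +kernel) 0
  rw [show R 21 0 = 1 by decide +kernel, show R 39 0 = 3 by decide +kernel,
    pos 21 0 1 (by decide +kernel) (by decide +kernel) (by decide +kernel),
    pos 39 1 22 (by decide +kernel) (by decide +kernel) (by decide +kernel),
    neg 39 0 6 (by decide +kernel) (by decide +kernel) (by decide +kernel),
    pos 21 3 21 (by decide +kernel) (by decide +kernel) (by decide +kernel)] at s13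
  have s14 := ha2 21 77 (by decide +kernel) 0
  rw [show R 21 0 = 1 by decide +kernel, show R 77 0 = 3 by decide +kernel,
    pos 21 0 1 (by decide +kernel) (by decide +kernel) (by decide +kernel),
    pos 77 1 20 (by decide +kernel) (by decide +kernel) (by decide +kernel),
    pos 77 0 5 (by decide +kernel) (by decide +kernel) (by decide +kernel),
    pos 21 3 21 (by decide +kernel) (by decide +kernel) (by decide +kernel)] at s14
  have s15 := ha2 22 31 (by decide +kernel) 0
  rw [show R 22 0 = 2 by decide +kernel, show R 31 0 = 3 by decide +kernel,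
    pos 22 0 3 (by decide +kernel) (by decide +kernel) (by decide +kernel),
    pos 31 2 15 (by decide +kernel) (by decide +kernel) (by decide +kernel),
    neg 31 0 6 (by decide +kernel) (by decide +kernel) (by decide +kernel),
    pos 22 3 14 (by decide +kernel) (by decide +kernel) (by decide +kernel)] at s15
  have s16 := ha2 58 73 (by decide +kernel) 0
  rw [show R 58 0 = 3 by decide +kernel, show R 73 0 = 1 by decide +kernel,
    neg 58 0 6 (by decide +kernel) (by decide +kernel) (by decide +kernel),
    pos 73 3 23 (by decide +kernel) (by decide +kernel) (by decide +kernel),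
    neg 73 0 2 (by decide +kernel) (by decide +kernel) (by decide +kernel),
    pos 58 1 22 (by decide +kernel) (by decide +kernel) (by decide +kernel)] at s16
  have s17 := ha2 86 103 (by decide +kernel) 0
  rw [show R 86 0 = 2 by decide +kernel, show R 103 0 = 3 by decide +kernel,
    neg 86 0 4 (by decide +kernel) (by decide +kernel) (by decide +kernel),
    pos 103 2 15 (by decide +kernel) (by decide +kernel) (by decide +kernel),
    neg 103 0 6 (by decide +kernel) (by decide +kernel) (by decide +kernel),
    pos 86 3 16 (by decide +kernel) (by decide +kernel) (by decide +kernel)] at s17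
  -- the potential
  have zz : ∃ z : ℕ → ℚ, z 0 = 0 ∧ z 1 = x 1 ∧ z 2 = x 3 ∧ z 3 = x 5 ∧ z 4 = x 1 + x 7 ∧ z 5 = x 3 + x 13 ∧
      z 6 = x 5 + x 19 := by
    refine ⟨fun n => if n = 0 then 0 else if n = 1 then x 1 else if n = 2 then x 3 else
      if n = 3 then x 5 else if n = 4 then x 1 + x 7 else if n = 5 then x 3 + x 13 else x 5 + x 19, ?_⟩
    simp
  obtain ⟨z, z0, z1, z2, z3, z4, z5, z6⟩ := zz
  have e1 : x 1 = z 1 - z 0 := by rw [z1, z0]; linarith
  have e2 : x 2 = z 0 - z 1 := by rw [z0, z1]; linarith
  have e3 : x 3 = z 2 - z 0 := by rw [z2, z0]; linarith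
  have e4 : x 4 = z 0 - z 2 := by rw [z0, z2]; linarith
  have e5 : x 5 = z 3 - z 0 := by rw [z3, z0]; linarith
  have e6 : x 6 = z 0 - z 3 := by rw [z0, z3]; linarith
  have e7 : x 7 = z 4 - z 1 := by rw [z4, z1]; linarith
  have e8 : x 8 = z 4 - z 2 := by rw [z4, z2]; linarith
  have e9 : x 9 = z 4 - z 1 := by rw [z4, z1]; linarith
  have e10 : x 10 = z 4 - z 2 := by rw [z4, z2]; linarith
  have e11 : x 11 = z 4 - z 1 := by rw [z4, z1]; linarith
  have e12 : x 12 = z 4 - z 2 := by rw [z4, z2]; linarith
  have e13 : x 13 = z 5 - z 2 := by rw [z5, z2]; linarith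
  have e14 : x 14 = z 5 - z 3 := by rw [z5, z3]; linarith
  have e15 : x 15 = z 5 - z 2 := by rw [z5, z2]; linarith
  have e16 : x 16 = z 5 - z 3 := by rw [z5, z3]; linarith
  have e17 : x 17 = z 5 - z 2 := by rw [z5, z2]; linarith
  have e18 : x 18 = z 5 - z 3 := by rw [z5, z3]; linarith
  have e19 : x 19 = z 6 - z 3 := by rw [z6, z3]; linarith
  have e20 : x 20 = z 6 - z 1 := by rw [z6, z1]; linarith
  have e21 : x 21 = z 6 - z 3 := by rw [z6, z3]; linarith
  have e22 : x 22 = z 6 - z 1 := by rw [z6, z1]; linarith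
  have e23 : x 23 = z 6 - z 3 := by rw [z6, z3]; linarith
  have e24 : x 24 = z 6 - z 1 := by rw [z6, z1]; linarith
  have hxz : ∀ e : ℕ, 0 < e → e < 25 → x e = z (en e) - z (st e) := by
    intro e h0 h1
    interval_cases e
    · rw [show en 1 = 1 by decide +kernel, show st 1 = 0 by decide +kernel]; exact e1
    · rw [show en 2 = 0 by decide +kernel, show st 2 = 1 by decide +kernel]; exact e2
    · rw [show en 3 = 2 by decide +kernel, show st 3 = 0 by decide +kernel]; exact e3
    · rw [show en 4 = 0 by decide +kernel, show st 4 = 2 by decide +kernel]; exact e4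
    · rw [show en 5 = 3 by decide +kernel, show st 5 = 0 by decide +kernel]; exact e5
    · rw [show en 6 = 0 by decide +kernel, show st 6 = 3 by decide +kernel]; exact e6
    · rw [show en 7 = 4 by decide +kernel, show st 7 = 1 by decide +kernel]; exact e7
    · rw [show en 8 = 4 by decide +kernel, show st 8 = 2 by decide +kernel]; exact e8
    · rw [show en 9 = 4 by decide +kernel, show st 9 = 1 by decide +kernel]; exact e9
    · rw [show en 10 = 4 by decide +kernel, show st 10 = 2 by decide +kernel]; exact e10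
    · rw [show en 11 = 4 by decide +kernel, show st 11 = 1 by decide +kernel]; exact e11
    · rw [show en 12 = 4 by decide +kernel, show st 12 = 2 by decide +kernel]; exact e12
    · rw [show en 13 = 5 by decide +kernel, show st 13 = 2 by decide +kernel]; exact e13
    · rw [show en 14 = 5 by decide +kernel, show st 14 = 3 by decide +kernel]; exact e14
    · rw [show en 15 = 5 by decide +kernel, show st 15 = 2 by decide +kernel]; exact e15
    · rw [show en 16 = 5 by decide +kernel, show st 16 = 3 by decide +kernel]; exact e16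
    · rw [show en 17 = 5 by decide +kernel, show st 17 = 2 by decide +kernel]; exact e17
    · rw [show en 18 = 5 by decide +kernel, show st 18 = 3 by decide +kernel]; exact e18
    · rw [show en 19 = 6 by decide +kernel, show st 19 = 3 by decide +kernel]; exact e19
    · rw [show en 20 = 6 by decide +kernel, show st 20 = 1 by decide +kernel]; exact e20
    · rw [show en 21 = 6 by decide +kernel, show st 21 = 3 by decide +kernel]; exact e21
    · rw [show en 22 = 6 by decide +kernel, show st 22 = 1 by decide +kernel]; exact e22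
    · rw [show en 23 = 6 by decide +kernel, show st 23 = 3 by decide +kernel]; exact e23
    · rw [show en 24 = 6 by decide +kernel, show st 24 = 1 by decide +kernel]; exact e24
  refine ⟨fun i => z i.1, fun i u => ?_⟩
  by_cases h : R u i = i
  · have h1 := ha1 i u
    rw [h] at h1 ⊢
    linarith
  · obtain ⟨⟨h1, h2⟩, -, ⟨h3, h4⟩ | ⟨h3, h4, h5⟩⟩ := enF u i h
    · rw [val u i h, if_pos h3, hxz _ h1 h2]
      show _ = z (R u i).1 - z i.1
      rw [h4, ← h3]
    · rw [val u i h, if_neg h4, hxz _ h1 h2]
      show _ = z (R u i).1 - z i.1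
      rw [h5, ← h3]
      ring

/-- **Cocycles are coboundaries** on the oriented `W`-set `Fin 7 × Bool`. -/
theorem coc (c : Fin 7 → Bool → Fin 120 → ℚ)
    (h1 : ∀ i e u, c (R u i) (!e) u = - c i e u)
    (h2 : ∀ u v, adj u v = true → ∀ i e, c i e u + c (R u i) (!e) v = c i e v + c (R v i) (!e) u) :
    ∃ z : Fin 7 → Bool → ℚ, ∀ i e u, c i e u = z (R u i) (!e) - z i e := by
  obtain ⟨z, hz⟩ := a_cob (fun i u => c i true u + c i false u)
    (fun i u => by
      have e1 := h1 i true u
      have e2 := h1 i false u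
      simp only [Bool.not_true, Bool.not_false] at e1 e2
      rw [e1, e2]; ring)
    (fun u v huv i => by
      have e1 := h2 u v huv i true
      have e2 := h2 u v huv i false
      simp only [Bool.not_true, Bool.not_false] at e1 e2
      linarith)
  -- the twisted part
  set b : Fin 7 → Fin 120 → ℚ := fun i u => c i true u - c i false u with hb
  have b2 : ∀ u v, adj u v = true → ∀ i, b i u - b (R u i) v = b i v - b (R v i) u := by
    intro u v huv i
    have e1 := h2 u v huv i true
    have e2 := h2 u v huv i false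
    simp only [Bool.not_true, Bool.not_false] at e1 e2
    simp only [hb]
    linarith
  have hrm : ∀ i : Fin 7, rootM i.1 < 120 := by decide +kernel
  set β : Fin 7 → ℚ := fun i => b i ⟨rootM i.1, hrm i⟩ with hβ
  have hmir : ∀ n : ℕ, ∀ (u : Fin 120) (i : Fin 7), rk u.1 i.1 = n → R u i = i → b i u = β i := by
    intro n
    induction n using Nat.strong_induction_on with
    | _ n ih =>
      intro u i hn hu
      rcases mirF u i hu with ⟨-, h3⟩ | ⟨p, hp1, hp2, hp3⟩
      · have : u = ⟨rootM i.1, hrm i⟩ := Fin.ext h3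
        rw [this]
      · have e1 := b2 u p hp1 i
        rw [hu, hp2] at e1
        have e2 := ih _ (by omega) p i rfl hp2
        linarith
  have hall : ∀ (u : Fin 120) (i : Fin 7), 2 * b i u = β i + β (R u i) := by
    intro u i
    by_cases hu : R u i = i
    · rw [hu, hmir _ u i rfl hu]; ring
    · obtain ⟨p, hp1, hp2⟩ := movF u i hu
      have e1 := b2 u p hp1 i
      have hp3 : R p (R u i) = R u i := by
        rw [← R_comm_apply hp1, hp2]
      rw [hp2, hmir _ p i rfl hp2, hmir _ p (R u i) rfl hp3] at e1
      linarith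
  refine ⟨fun i e => z i / 2 + (if e then - (β i / 4) else β i / 4), fun i e u => ?_⟩
  have e1 := hz i u
  have e2 := hall u i
  simp only [hb] at e2
  cases e
  · simp only [Bool.not_false, if_true, Bool.false_eq_true, if_false]
    linarith
  · simp only [Bool.not_true, if_true, Bool.false_eq_true, if_false]
    linarith

end Pool.Agent.CR.Data
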