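import Mathlib

/-! # Right-angled reflection systems in hyperbolic 4-space (MP_2377fe_an)

`V = ℝ × ℍ` with the Lorentz form `B`, the hyperboloid `Hyp`, and a *right-angled system of
mirrors* (`Sys`): unit normals `e u` (`u : S`, `S` finite) which are pairwise orthogonal
(adjacent mirrors) or have `B ≤ -3/2` (non-adjacent mirrors), and a bounded chamber. -/

namespace Pool.Agent.CR

open Quaternion

noncomputable section

/-- The Lorentz space `ℝ × ℍ`. -/
abbrev V : Type := ℝ × ℍ[ℝ]

/-- The Lorentz form. -/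
def B (x y : V) : ℝ := -(x.1 * y.1) + (x.2.re * y.2.re + x.2.imI * y.2.imI + x.2.imJ * y.2.imJ
  + x.2.imK * y.2.imK)

/-- The upper sheet of the hyperboloid. -/
def Hyp : Set V := {x | B x x = -1 ∧ 0 < x.1}

/-- The base point. -/
def p0 : V := (1, 0)

lemma B_add_left (x y z : V) : B (x + y) z = B x z + B y z := by simp [B]; ring
lemma B_add_right (x y z : V) : B z (x + y) = B z x + B z y := by simp [B]; ring
lemma B_sub_left (x y z : V) : B (x - y) z = B x z - B y z := by simp [B]; ring
lemma B_sub_right (x y z : V) : B z (x - y) = B z x - B z y := by simp [B]; ring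
lemma B_smul_left (c : ℝ) (x z : V) : B (c • x) z = c * B x z := by simp [B]; ring
lemma B_smul_right (c : ℝ) (x z : V) : B z (c • x) = c * B z x := by simp [B]; ring
lemma B_comm (x y : V) : B x y = B y x := by simp [B]; ring

/-- The reflection of `V` in a vector `n` (with `B n n = 1`). -/
def reflB (n : V) : Module.End ℝ V where
  toFun := fun x => x - (2 * B x n) • n
  map_add' := by intro x y; rw [B_add_left]; module
  map_smul' := by intro c x; rw [B_smul_left]; simp only [RingHom.id_apply]; module

lemma reflB_apply (n x : V) : reflB n x = x - (2 * B x n) • n := rfl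

lemma reflB_B {n : V} (hn : B n n = 1) (x y : V) : B (reflB n x) (reflB n y) = B x y := by
  simp only [reflB_apply, B_sub_left, B_sub_right, B_smul_left, B_smul_right, hn]
  rw [B_comm n y]; ring

lemma reflB_reflB {n : V} (hn : B n n = 1) (x : V) : reflB n (reflB n x) = x := by
  simp only [reflB_apply, B_sub_left, B_smul_left, hn]
  module

lemma reflB_sq {n : V} (hn : B n n = 1) : reflB n * reflB n = 1 :=
  LinearMap.ext fun x => reflB_reflB hn x

lemma reflB_comm {n m : V} (hnm : B n m = 0) (x : V) :
    reflB n (reflB m x) = reflB m (reflB n x) := by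
  have hmn : B m n = 0 := by rw [B_comm, hnm]
  simp only [reflB_apply, B_sub_left, B_smul_left, hnm, hmn]
  module

/-- A right-angled system of mirrors. -/
structure Sys (S : Type) [Fintype S] [DecidableEq S] where
  /-- adjacency of mirrors -/
  adj : S → S → Bool
  adj_symm : ∀ u v, adj u v = adj v u
  adj_irrefl : ∀ u, adj u u = false
  /-- the unit normals -/
  e : S → V
  e_pos : ∀ u, 0 < (e u).1
  e_self : ∀ u, B (e u) (e u) = 1
  e_adj : ∀ u v, adj u v = true → B (e u) (e v) = 0
  e_nadj : ∀ u v, u ≠ v → adj u v = false → B (e u) (e v) ≤ -(3/2)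
  bdd : ∃ C : ℝ, ∀ x ∈ Hyp, (∀ u, B x (e u) ≤ 0) → x.1 ≤ C

variable {S : Type} [Fintype S] [DecidableEq S]

namespace Sys

variable (Q : Sys S)

/-- The right-angled Coxeter matrix of the system. -/
def M : CoxeterMatrix S where
  M := Matrix.of fun u v => if u = v then 1 else if Q.adj u v then 2 else 0
  isSymm := by
    ext u v
    simp only [Matrix.transpose_apply, Matrix.of_apply]
    by_cases h : u = v
    · simp [h]
    · rw [if_neg h, if_neg (Ne.symm h), Q.adj_symm]
  diagonal := by simp
  off_diagonal := by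
    intro u v h
    simp only [Matrix.of_apply, if_neg h]
    split <;> simp

/-- The abstract right-angled Coxeter group. -/
abbrev W : Type := Q.M.Group

/-- Its Coxeter system. -/
abbrev cs : CoxeterSystem Q.M Q.W := Q.M.toCoxeterSystem

/-- the simple generator -/
abbrev s (u : S) : Q.W := Q.cs.simple u

lemma M_apply (u v : S) : Q.M u v = if u = v then 1 else if Q.adj u v then 2 else 0 := rfl

/-- A family of commuting involutions (for adjacent mirrors) extends to the group. -/
lemma isLiftable {G : Type*} [Monoid G] (f : S → G) (h1 : ∀ u, f u * f u = 1)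
    (h2 : ∀ u v, Q.adj u v = true → f u * f v = f v * f u) : Q.M.IsLiftable f := by
  intro u v
  rw [M_apply]
  by_cases h : u = v
  · subst h; simp [h1]
  · rw [if_neg h]
    by_cases h' : Q.adj u v = true
    · rw [if_pos h', pow_two]
      calc f u * f v * (f u * f v) = f u * (f v * f u) * f v := by simp only [mul_assoc]
        _ = f u * (f u * f v) * f v := by rw [h2 u v h']
        _ = (f u * f u) * (f v * f v) := by simp only [mul_assoc]
        _ = 1 := by rw [h1, h1, one_mul]
    · simp [h']

/-- The linear representation on `V`. -/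
def ρ : Q.W →* Module.End ℝ V :=
  Q.cs.lift ⟨fun u => reflB (Q.e u), Q.isLiftable _ (fun u => reflB_sq (Q.e_self u))
    (fun u v h => LinearMap.ext fun x => reflB_comm (Q.e_adj u v h) x)⟩

@[simp] lemma ρ_s (u : S) : Q.ρ (Q.s u) = reflB (Q.e u) :=
  Q.cs.lift_apply_simple _ u

lemma ρ_mul (w v : Q.W) (x : V) : Q.ρ (w * v) x = Q.ρ w (Q.ρ v x) := by
  rw [map_mul]; rfl

lemma ρ_one (x : V) : Q.ρ 1 x = x := by
  rw [map_one]; rfl

lemma ρ_inv_apply (w : Q.W) (x : V) : Q.ρ w⁻¹ (Q.ρ w x) = x := by
  rw [← ρ_mul, inv_mul_cancel, ρ_one]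

lemma ρ_apply_inv (w : Q.W) (x : V) : Q.ρ w (Q.ρ w⁻¹ x) = x := by
  rw [← ρ_mul, mul_inv_cancel, ρ_one]

/-- The chamber. -/
def P : Set V := {x | x ∈ Hyp ∧ ∀ u, B x (Q.e u) ≤ 0}

/-- The involution of a `W`-set given by a permutation table. -/
def toPerm {X : Type*} (f : S → Equiv.Perm X) (h1 : ∀ u, f u * f u = 1)
    (h2 : ∀ u v, Q.adj u v = true → f u * f v = f v * f u) : Q.W →* Equiv.Perm X :=
  Q.cs.lift ⟨f, Q.isLiftable f h1 h2⟩

@[simp] lemma toPerm_s {X : Type*} (f : S → Equiv.Perm X) (h1 : ∀ u, f u * f u = 1)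
    (h2 : ∀ u v, Q.adj u v = true → f u * f v = f v * f u) (u : S) :
    Q.toPerm f h1 h2 (Q.s u) = f u :=
  Q.cs.lift_apply_simple _ u

end Sys

end

end Pool.Agent.CR
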