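import Pool.Agent.CR.Geom

/-! # The label map on the hyperboloid -/

namespace Pool.Agent.CR

open Quaternion Filter Topology

noncomputable section

variable {S : Type} [Fintype S] [DecidableEq S]

namespace Sys

variable (Q : Sys S)

/-- the bump function of the mirror `u` -/
def tt (u : S) (x : V) : ℝ := max 0 (1 / 2 + B x (Q.e u))

lemma tt_nonneg (u : S) (x : V) : 0 ≤ Q.tt u x := le_max_left _ _

lemma tt_le (u : S) {x : V} (hx : x ∈ Q.P) : Q.tt u x ≤ 1 / 2 := by
  have := hx.2 u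
  exact max_le (by norm_num) (by linarith)

lemma continuous_tt (u : S) : Continuous (Q.tt u) :=
  continuous_const.max (continuous_const.add (continuous_B_left _))

lemma tt_eq_half {u : S} {x : V} (h : B x (Q.e u) = 0) : Q.tt u x = 1 / 2 := by
  rw [tt, h, add_zero]
  exact max_eq_right (by norm_num)

lemma adj_of_tt {x : V} (hx : x ∈ Q.P) {u v : S} (huv : u ≠ v) (hu : 0 < Q.tt u x)
    (hv : 0 < Q.tt v x) : Q.adj u v = true := by
  by_contra h
  have h1 := Q.sep huv (by simpa using h) hx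
  have h2 : 0 < 1 / 2 + B x (Q.e u) := by
    rcases lt_max_iff.1 hu with h | h
    · exact absurd h (lt_irrefl _)
    · exact h
  have h3 : 0 < 1 / 2 + B x (Q.e v) := by
    rcases lt_max_iff.1 hv with h | h
    · exact absurd h (lt_irrefl _)
    · exact h
  linarith

variable {X : Type*} [MulAction Q.W X]

/-- interpolation step -/
def op (t : ℝ) (u : S) (μ : X → ℂ) : X → ℂ :=
  fun j => ((1 - t : ℝ) : ℂ) * μ j + (t : ℂ) * μ (Q.s u • j)

lemma op_zero (u : S) (μ : X → ℂ) : Q.op 0 u μ = μ := by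
  funext j
  simp [op]

/-- iterated interpolation -/
def Φl (l : List S) (x : V) (μ : X → ℂ) : X → ℂ := l.foldl (fun μ u => Q.op (Q.tt u x) u μ) μ

@[simp] lemma Φl_nil (x : V) (μ : X → ℂ) : Q.Φl [] x μ = μ := rfl
@[simp] lemma Φl_cons (u : S) (l : List S) (x : V) (μ : X → ℂ) :
    Q.Φl (u :: l) x μ = Q.Φl l x (Q.op (Q.tt u x) u μ) := rfl

lemma Φl_append (l l' : List S) (x : V) (μ : X → ℂ) :
    Q.Φl (l ++ l') x μ = Q.Φl l' x (Q.Φl l x μ) := by
  simp [Φl, List.foldl_append]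

lemma continuous_Φl (l : List S) : ∀ (μ : V → X → ℂ), (∀ j, Continuous fun x => μ x j) →
    ∀ j, Continuous fun x => Q.Φl l x (μ x) j := by
  induction l with
  | nil => intro μ h j; exact h j
  | cons u l ih =>
    intro μ h j
    refine ih (fun x => Q.op (Q.tt u x) u (μ x)) (fun j => ?_) j
    unfold op
    exact ((Complex.continuous_ofReal.comp (continuous_const.sub (Q.continuous_tt u))).mul
      (h j)).add ((Complex.continuous_ofReal.comp (Q.continuous_tt u)).mul (h _))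

lemma inv_op {u v : S} {x : V} (hx : x ∈ Q.P) (hu : B x (Q.e u) = 0) {μ : X → ℂ}
    (hμ : ∀ j, μ (Q.s u • j) = μ j) (j : X) :
    Q.op (Q.tt v x) v μ (Q.s u • j) = Q.op (Q.tt v x) v μ j := by
  rcases (Q.tt_nonneg v x).eq_or_lt with h | h
  · rw [← h, op_zero]; exact hμ j
  · by_cases huv : u = v
    · subst huv
      simp only [op]
      rw [hμ, hμ, hμ]
    · have h1 : 0 < Q.tt u x := by rw [Q.tt_eq_half hu]; norm_num
      have h2 := Q.adj_of_tt hx huv h1 h
      have h3 := Q.s_comm h2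
      simp only [op]
      rw [hμ, ← mul_smul, ← h3, mul_smul, hμ]

lemma inv_Φl {u : S} {x : V} (hx : x ∈ Q.P) (hu : B x (Q.e u) = 0) (l : List S) :
    ∀ {μ : X → ℂ}, (∀ j, μ (Q.s u • j) = μ j) → ∀ j, Q.Φl l x μ (Q.s u • j) = Q.Φl l x μ j := by
  induction l with
  | nil => intro μ h j; exact h j
  | cons v l ih =>
    intro μ h j
    rw [Φl_cons]
    exact ih (Q.inv_op hx hu h) j

/-- The label of `j` at the point `x` of the chamber. -/
def Φ (lab : X → ℂ) (j : X) (x : V) : ℂ := Q.Φl Finset.univ.toList x lab j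

lemma continuous_Φ (lab : X → ℂ) (j : X) : Continuous (Q.Φ lab j) :=
  Q.continuous_Φl _ (fun _ => lab) (fun _ => continuous_const) j

lemma Φ_s {u : S} {x : V} (hx : x ∈ Q.P) (hu : B x (Q.e u) = 0) (lab : X → ℂ) (j : X) :
    Q.Φ lab (Q.s u • j) x = Q.Φ lab j x := by
  obtain ⟨l1, l2, hl⟩ := List.append_of_mem (Finset.mem_toList.2 (Finset.mem_univ u))
  rw [Φ, Φ, hl, Φl_append, Φl_cons]
  refine Q.inv_Φl hx hu l2 (fun j => ?_) j
  rw [Q.tt_eq_half hu]
  simp only [op]
  rw [← mul_smul, ss, one_smul]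
  push_cast
  ring

lemma Φ_prodL {x : V} (hx : x ∈ Q.P) (lab : X → ℂ) (l : List S)
    (hl : ∀ u ∈ l, B x (Q.e u) = 0) (j : X) : Q.Φ lab (Q.prodL l • j) x = Q.Φ lab j x := by
  induction l with
  | nil => simp
  | cons u l ih =>
    rw [prodL_cons, mul_smul, Q.Φ_s hx (hl u List.mem_cons_self),
      ih (fun v hv => hl v (List.mem_cons_of_mem _ hv))]

lemma Φ_closure {x : V} (hx : x ∈ Q.P) (lab : X → ℂ) {w : Q.W}
    (hw : w ∈ Subgroup.closure (Q.s '' {u | B x (Q.e u) = 0})) (j : X) :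
    Q.Φ lab (w • j) x = Q.Φ lab j x := by
  induction hw using Subgroup.closure_induction generalizing j with
  | mem y hy =>
    obtain ⟨u, hu, rfl⟩ := hy
    exact Q.Φ_s hx hu lab j
  | one => rw [one_smul]
  | mul a b _ _ iha ihb => rw [mul_smul, iha, ihb]
  | inv a _ iha =>
    have := iha (a⁻¹ • j)
    rw [← mul_smul, mul_inv_cancel, one_smul] at this
    exact this.symm

open scoped ComplexConjugate in
/-- The separation property of a labelling. -/
def Good {Y : Type*} (fib : X → Y) (lab : X → ℂ) : Prop :=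
  ∀ T : List S, T.Pairwise (fun u v => Q.adj u v = true) → ∀ j j' : X, j ≠ j' → fib j = fib j' →
    ∃ d : ℂ, ∀ T' : List S, T'.Sublist T →
      0 < (conj d * (lab (Q.prodL T' • j) - lab (Q.prodL T' • j'))).re

open scoped ComplexConjugate in
lemma pos_Φl (x : V) (d : ℂ) (j j' : X) (l : List S) : ∀ (μ : X → ℂ), (∀ u ∈ l, Q.tt u x < 1) →
    (∀ T' : List S, T'.Sublist (l.filter fun u => decide (0 < Q.tt u x)) →
      0 < (conj d * (μ (Q.prodL T' • j) - μ (Q.prodL T' • j'))).re) →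
    0 < (conj d * (Q.Φl l x μ j - Q.Φl l x μ j')).re := by
  induction l with
  | nil =>
    intro μ _ h
    have := h [] (List.nil_sublist _)
    simpa using this
  | cons u l ih =>
    intro μ ht h
    rw [Φl_cons]
    refine ih _ (fun v hv => ht v (List.mem_cons_of_mem _ hv)) ?_
    intro T' hT'
    rcases (Q.tt_nonneg u x).eq_or_lt with h0 | h0
    · rw [← h0, op_zero]
      refine h T' ?_
      rw [List.filter_cons_of_neg (by simp [← h0])]
      exact hT'
    · have e1 := h T' (by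
        rw [List.filter_cons_of_pos (by simp [h0])]
        exact hT'.trans (List.sublist_cons_self _ _))
      have e2 := h (u :: T') (by
        rw [List.filter_cons_of_pos (by simp [h0])]
        exact hT'.cons_cons u)
      have e3 : (conj d * (Q.op (Q.tt u x) u μ (Q.prodL T' • j)
          - Q.op (Q.tt u x) u μ (Q.prodL T' • j'))).re
          = (1 - Q.tt u x) * (conj d * (μ (Q.prodL T' • j) - μ (Q.prodL T' • j'))).re
            + Q.tt u x * (conj d * (μ (Q.prodL (u :: T') • j)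
              - μ (Q.prodL (u :: T') • j'))).re := by
        rw [prodL_cons, mul_smul, mul_smul]
        simp only [op]
        rw [← Complex.re_ofReal_mul, ← Complex.re_ofReal_mul, ← Complex.add_re]
        congr 1
        push_cast
        ring
      rw [e3]
      have h1 := ht u List.mem_cons_self
      have := mul_pos (sub_pos.2 h1) e1
      have := mul_pos h0 e2
      linarith

lemma Φ_ne {Y : Type*} {fib : X → Y} {lab : X → ℂ} (hg : Q.Good fib lab) {x : V} (hx : x ∈ Q.P)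
    {j j' : X} (hj : j ≠ j') (hf : fib j = fib j') : Q.Φ lab j x ≠ Q.Φ lab j' x := by
  have hnd : (Finset.univ.toList : List S).Nodup := Finset.nodup_toList _
  have hp : ((Finset.univ.toList : List S).filter fun u => decide (0 < Q.tt u x)).Pairwise
      (fun u v => Q.adj u v = true) := by
    refine List.Pairwise.imp_of_mem ?_ (hnd.filter _)
    intro a b ha hb hab
    have h1 := (List.mem_filter.1 ha).2
    have h2 := (List.mem_filter.1 hb).2
    exact Q.adj_of_tt hx hab (by simpa using h1) (by simpa using h2)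
  obtain ⟨d, hd⟩ := hg _ hp j j' hj hf
  have h := Q.pos_Φl x d j j' Finset.univ.toList lab
    (fun u _ => lt_of_le_of_lt (Q.tt_le u hx) (by norm_num)) hd
  intro heq
  rw [Φ, Φ] at heq
  rw [heq, sub_self, mul_zero, Complex.zero_re] at h
  exact lt_irrefl _ h

open Classical in
/-- an element moving `y` into the chamber -/
def mv (y : V) : Q.W := if h : ∃ w : Q.W, Q.ρ w y ∈ Q.P then h.choose else 1

lemma mv_spec {y : V} (hy : y ∈ Hyp) : Q.ρ (Q.mv y) y ∈ Q.P := by
  have h := Q.cover hy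
  rw [mv, dif_pos h]
  exact h.choose_spec

/-- the global label function -/
def F (lab : X → ℂ) (j : X) (y : V) : ℂ := Q.Φ lab (Q.mv y • j) (Q.ρ (Q.mv y) y)

lemma F_eq (lab : X → ℂ) (j : X) {y : V} (hy : y ∈ Hyp) {w : Q.W} (hw : Q.ρ w y ∈ Q.P) :
    Q.F lab j y = Q.Φ lab (w • j) (Q.ρ w y) := by
  have h1 := Q.mv_spec hy
  have h2 : Q.ρ (Q.mv y) y = Q.ρ (Q.mv y * w⁻¹) (Q.ρ w y) := by
    rw [ρ_mul, ρ_inv_apply]
  have h3 := Q.strict (Q.mv y * w⁻¹) hw (by rw [← h2]; exact h1)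
  rw [F, h2, h3.1]
  have h4 : Q.mv y • j = (Q.mv y * w⁻¹) • (w • j) := by
    rw [← mul_smul, inv_mul_cancel_right]
  rw [h4]
  exact Q.Φ_closure hw lab h3.2 _

theorem F_equivariant (lab : X → ℂ) (w : Q.W) (j : X) {y : V} (hy : y ∈ Hyp) :
    Q.F lab (w • j) (Q.ρ w y) = Q.F lab j y := by
  have h1 := Q.mv_spec (Q.ρ_mem_Hyp w hy)
  have h2 : Q.ρ (Q.mv (Q.ρ w y) * w) y ∈ Q.P := by rw [ρ_mul]; exact h1
  rw [Q.F_eq lab j hy h2, F, mul_smul, ρ_mul]

theorem F_ne {Y : Type*} {fib : X → Y} (hfib : ∀ (w : Q.W) (j j' : X), fib j = fib j' →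
    fib (w • j) = fib (w • j')) {lab : X → ℂ} (hg : Q.Good fib lab) {y : V} (hy : y ∈ Hyp)
    {j j' : X} (hj : j ≠ j') (hf : fib j = fib j') : Q.F lab j y ≠ Q.F lab j' y :=
  Q.Φ_ne hg (Q.mv_spec hy) (fun h => hj (smul_left_cancel _ h)) (hfib _ _ _ hf)

theorem F_continuousOn (lab : X → ℂ) (j : X) : ContinuousOn (Q.F lab j) Hyp := by
  intro y₀ hy₀
  obtain ⟨w, hw⟩ := Q.cover hy₀
  have h0 : Q.F lab j y₀ = Q.Φ lab (w • j) (Q.ρ w y₀) := Q.F_eq lab j hy₀ hw
  rw [ContinuousWithinAt, tendsto_def]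
  intro U hU
  have h1 : ∀ᶠ y in 𝓝 y₀, Q.ρ w y ∈ Hyp → ∃ T : Finset S,
    (∀ u ∈ T, B (Q.ρ w y₀) (Q.e u) = 0) ∧ Q.ρ (Q.prodL T.toList) (Q.ρ w y) ∈ Q.P :=
    ((Q.continuous_ρ w).tendsto y₀).eventually (Q.near hw)
  have h2 : ∀ᶠ y in 𝓝 y₀, ∀ T : Finset S, (∀ u ∈ T, B (Q.ρ w y₀) (Q.e u) = 0) →
      Q.Φ lab (Q.prodL T.toList • w • j) (Q.ρ (Q.prodL T.toList) (Q.ρ w y)) ∈ U := by
    rw [eventually_all]
    intro T
    by_cases hT : ∀ u ∈ T, B (Q.ρ w y₀) (Q.e u) = 0
    · have hT' : ∀ u ∈ T.toList, B (Q.ρ w y₀) (Q.e u) = 0 :=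
        fun u hu => hT u (Finset.mem_toList.1 hu)
      have hc : Continuous fun y => Q.Φ lab (Q.prodL T.toList • w • j)
          (Q.ρ (Q.prodL T.toList) (Q.ρ w y)) :=
        (Q.continuous_Φ lab _).comp ((Q.continuous_ρ _).comp (Q.continuous_ρ w))
      have he : Q.Φ lab (Q.prodL T.toList • w • j) (Q.ρ (Q.prodL T.toList) (Q.ρ w y₀))
          = Q.F lab j y₀ := by
        rw [Q.prodL_fix T.toList hT', h0]
        exact Q.Φ_prodL hw lab T.toList hT' _
      have := hc.tendsto y₀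
      rw [he] at this
      filter_upwards [this hU] with y hy _ using hy
    · exact Eventually.of_forall fun y h => absurd h hT
  rw [mem_nhdsWithin_iff_eventually]
  filter_upwards [h1, h2] with y hy1 hy2 hyH
  obtain ⟨T, hT1, hT2⟩ := hy1 (Q.ρ_mem_Hyp w hyH)
  have h3 : Q.F lab j y = Q.Φ lab (Q.prodL T.toList • w • j)
      (Q.ρ (Q.prodL T.toList) (Q.ρ w y)) := by
    have := Q.F_eq lab j hyH (w := Q.prodL T.toList * w) (by rw [ρ_mul]; exact hT2)
    rw [this, mul_smul, ρ_mul]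
  show Q.F lab j y ∈ U
  rw [h3]
  exact hy2 T hT1

end Sys

end

end Pool.Agent.CR
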