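import Mathlib

/-! # Separable polynomials over `C(X, ℂ)` from root functions on a quotient -/

namespace Pool.Agent.CR

open Polynomial Topology

noncomputable section

variable {Y X : Type*} [TopologicalSpace Y] [TopologicalSpace X]

/-- Evaluation of a continuous function at a point, as a ring homomorphism. -/
def evHom (x : X) : C(X, ℂ) →+* ℂ where
  toFun f := f x
  map_one' := rfl
  map_mul' _ _ := rfl
  map_zero' := rfl
  map_add' _ _ := rfl

@[simp] lemma evHom_apply (x : X) (f : C(X, ℂ)) : evHom x f = f x := rfl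

/-- Continuous pairwise distinct root functions on `Y`, permuted along the fibres of a quotient map
`q : Y → X`, are the roots of a monic separable polynomial over `C(X, ℂ)`. -/
theorem exists_poly {n : ℕ} (q : Y → X) (hq : IsQuotientMap q) (F : Fin n → Y → ℂ)
    (hF : ∀ s, Continuous (F s)) (hne : ∀ s s', s ≠ s' → ∀ y, F s y ≠ F s' y)
    (hinv : ∀ y y', q y = q y' → ∃ σ : Equiv.Perm (Fin n), ∀ s, F s y' = F (σ s) y) :
    ∃ p : Polynomial C(X, ℂ), p.Monic ∧ p.Separable ∧
      ∀ y, p.map (evHom (q y)) = ∏ s, (Polynomial.X - Polynomial.C (F s y)) := by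
  classical
  -- the polynomial upstairs
  set P : Polynomial C(Y, ℂ) :=
    ∏ s, (Polynomial.X - Polynomial.C (⟨F s, hF s⟩ : C(Y, ℂ))) with hP
  have hPy : ∀ y, P.map (evHom y) = ∏ s, (Polynomial.X - Polynomial.C (F s y)) := by
    intro y
    rw [hP, Polynomial.map_prod]
    refine Finset.prod_congr rfl fun s _ => ?_
    rw [Polynomial.map_sub, Polynomial.map_X, Polynomial.map_C]
    rfl
  have hPc : ∀ y y', q y = q y' → ∀ i, P.coeff i y = P.coeff i y' := by
    intro y y' h i
    obtain ⟨σ, hσ⟩ := hinv y y' h
    have e : P.map (evHom y) = P.map (evHom y') := by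
      rw [hPy, hPy]
      simp_rw [hσ]
      exact (Equiv.prod_comp σ (fun s => (Polynomial.X - Polynomial.C (F s y)))).symm
    have := congrArg (fun r => Polynomial.coeff r i) e
    simpa [Polynomial.coeff_map] using this
  have hfac : ∀ i, Function.FactorsThrough (P.coeff i) (⟨q, hq.continuous⟩ : C(Y, X)) :=
    fun i y y' h => hPc y y' h i
  have hq' : IsQuotientMap (⟨q, hq.continuous⟩ : C(Y, X)) := hq
  let c : ℕ → C(X, ℂ) := fun i => hq'.lift (P.coeff i) (hfac i)
  have hc : ∀ i y, c i (q y) = P.coeff i y := by
    intro i y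
    have := hq'.lift_comp (P.coeff i) (hfac i)
    exact congrArg (fun f : C(Y, ℂ) => f y) this
  set p : Polynomial C(X, ℂ) :=
    Polynomial.X ^ n + ∑ i ∈ Finset.range n, Polynomial.C (c i) * Polynomial.X ^ i with hp
  have hdeg : (∑ i ∈ Finset.range n, Polynomial.C (c i) * Polynomial.X ^ i).degree < (n : WithBot ℕ) := by
    rw [Polynomial.degree_lt_iff_coeff_zero]
    intro m hm
    rw [Polynomial.finsetSum_coeff]
    refine Finset.sum_eq_zero fun i hi => ?_
    rw [Polynomial.coeff_C_mul_X_pow, if_neg]
    have := Finset.mem_range.mp hi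
    omega
  have hmonic : p.Monic := Polynomial.monic_X_pow_add hdeg
  have hPmon : ∀ y, (P.map (evHom y)).Monic := by
    intro y
    rw [hPy]
    exact Polynomial.monic_prod_of_monic _ _ fun s _ => Polynomial.monic_X_sub_C _
  have hPdeg : ∀ y, (P.map (evHom y)).natDegree = n := by
    intro y
    rw [hPy, Polynomial.natDegree_prod_of_monic _ _ fun s _ => Polynomial.monic_X_sub_C _]
    simp
  have hmap : ∀ y, p.map (evHom (q y)) = P.map (evHom y) := by
    intro y
    rw [(hPmon y).as_sum, hPdeg y, hp, Polynomial.map_add, Polynomial.map_pow, Polynomial.map_X,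
      Polynomial.map_sum]
    congr 1
    refine Finset.sum_congr rfl fun i _ => ?_
    rw [Polynomial.map_mul, Polynomial.map_pow, Polynomial.map_X, Polynomial.map_C,
      Polynomial.coeff_map, evHom_apply, evHom_apply, hc]
  refine ⟨p, hmonic, ?_, fun y => by rw [hmap, hPy]⟩
  -- separability
  rw [Polynomial.Separable, ← Polynomial.isUnit_resultant_iff_isCoprime hmonic,
    ContinuousMap.isUnit_iff_forall_ne_zero]
  intro x
  obtain ⟨y, rfl⟩ := hq.surjective x
  have hsep : (p.map (evHom (q y))).Separable := by
    rw [hmap, hPy]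
    rw [Polynomial.separable_prod_X_sub_C_iff]
    intro s s' h
    by_contra hss
    exact hne s s' hss y h
  rw [Polynomial.Separable, Polynomial.derivative_map,
    ← Polynomial.isUnit_resultant_iff_isCoprime (hmonic.map _)] at hsep
  have hd1 : (p.map (evHom (q y))).natDegree = p.natDegree := hmonic.natDegree_map _
  by_cases hn : p.natDegree = 0
  · have hp1 : p = 1 := by
      exact Polynomial.eq_one_of_monic_natDegree_zero hmonic hn
    rw [hp1]
    simp
  have hd2 : ((derivative p).map (evHom (q y))).natDegree = (derivative p).natDegree := by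
    have e1 : ((derivative p).map (evHom (q y))).natDegree = p.natDegree - 1 := by
      rw [← Polynomial.derivative_map, Polynomial.natDegree_derivative, hd1]
    refine le_antisymm Polynomial.natDegree_map_le ?_
    rw [e1]
    exact Polynomial.natDegree_derivative_le p
  rw [hd1, hd2, Polynomial.resultant_map_map] at hsep
  exact hsep.ne_zero

/-- A root function with monodromy prevents complete reducibility. -/
theorem not_prod_linear [PreconnectedSpace Y] {n : ℕ} (q : Y → X) (hq : Continuous q)
    (F : Fin n → Y → ℂ) (hF : ∀ s, Continuous (F s)) (hne : ∀ s s', s ≠ s' → ∀ y, F s y ≠ F s' y)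
    (p : Polynomial C(X, ℂ))
    (hp : ∀ y, p.map (evHom (q y)) = ∏ s, (Polynomial.X - Polynomial.C (F s y)))
    {s : Fin n} {y₀ y₁ : Y} (hy : q y₀ = q y₁) (hs : F s y₀ ≠ F s y₁) :
    ¬ ∃ t : Multiset C(X, ℂ), p = (t.map (fun a => Polynomial.X - Polynomial.C a)).prod := by
  classical
  rintro ⟨t, rfl⟩
  have hroots : ∀ y, t.map (fun a => a (q y)) = (Finset.univ.val.map (fun s => F s y)) := by
    intro y
    have h := hp y
    rw [← Polynomial.coe_mapRingHom, map_multiset_prod, Multiset.map_map] at h
    have e : (t.map ((Polynomial.mapRingHom (evHom (q y))) ∘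
        fun a => Polynomial.X - Polynomial.C a)) =
        (t.map (fun a => a (q y))).map (fun z => Polynomial.X - Polynomial.C z) := by
      rw [Multiset.map_map]
      refine Multiset.map_congr rfl fun a _ => ?_
      simp
    rw [e] at h
    have h2 := congrArg Polynomial.roots h
    rw [Polynomial.roots_multiset_prod_X_sub_C] at h2
    rw [h2]
    have e3 : (∏ s, (Polynomial.X - Polynomial.C (F s y))) =
        ((Finset.univ.val.map (fun s => F s y)).map (fun z => Polynomial.X - Polynomial.C z)).prod := by
      rw [Multiset.map_map]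
      rfl
    rw [e3, Polynomial.roots_multiset_prod_X_sub_C]
  have hnodup : ∀ y, (t.map (fun a => a (q y))).Nodup := by
    intro y
    rw [hroots]
    refine (Multiset.nodup_map_iff_inj_on Finset.univ.nodup).2 ?_
    intro a _ b _ hab
    by_contra hne'
    exact hne a b hne' y hab
  have hdist : ∀ a ∈ t, ∀ b ∈ t, ∀ y, a (q y) = b (q y) → a = b := by
    intro a ha b hb y hab
    exact Multiset.inj_on_of_nodup_map (hnodup y) a ha b hb hab
  have hmem : ∀ y, ∃ a ∈ t, F s y = a (q y) := by
    intro y
    have : F s y ∈ t.map (fun a => a (q y)) := by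
      rw [hroots]
      exact Multiset.mem_map_of_mem _ (Finset.mem_univ s)
    obtain ⟨a, ha, h⟩ := Multiset.mem_map.1 this
    exact ⟨a, ha, h.symm⟩
  obtain ⟨a, ha, hay⟩ := hmem y₀
  -- the set where `F s = a ∘ q` is clopen
  set A : Set Y := {y | F s y = a (q y)} with hA
  have hcl : IsClosed A := isClosed_eq (hF s) (a.continuous.comp hq)
  have hop : IsOpen A := by
    rw [← isClosed_compl_iff]
    have hcompl : Aᶜ = ⋃ b ∈ (t.toFinset.erase a), {y | F s y = b (q y)} := by
      ext y
      simp only [Set.mem_compl_iff, Set.mem_iUnion, Set.mem_ofPred_eq, hA, Finset.mem_erase,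
        Multiset.mem_toFinset, exists_prop]
      constructor
      · intro h
        obtain ⟨b, hb, hby⟩ := hmem y
        refine ⟨b, ⟨?_, hb⟩, hby⟩
        rintro rfl
        exact h hby
      · rintro ⟨b, ⟨hba, hb⟩, hby⟩ h
        exact hba (hdist b hb a ha y (hby.symm.trans h))
    rw [hcompl]
    refine Set.Finite.isClosed_biUnion (Finset.finite_toSet _) fun b _ => ?_
    exact isClosed_eq (hF s) (b.continuous.comp hq)
  have huniv : A = Set.univ := IsClopen.eq_univ ⟨hcl, hop⟩ ⟨y₀, hay⟩
  have h1 : F s y₁ = a (q y₁) := by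
    have : y₁ ∈ A := by rw [huniv]; trivial
    exact this
  exact hs (by rw [hay, h1, hy])

end

end Pool.Agent.CR
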