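import Pool.Agent.CR.Defs

/-! # Additive functions on a stabiliser vanish if all cocycles are coboundaries -/

namespace Pool.Agent.CR

noncomputable section

variable {S : Type} [Fintype S] [DecidableEq S]

namespace Sys

variable (Q : Sys S)

lemma s_sq_smul {Y : Type*} [MulAction Q.W Y] (u : S) (y : Y) : Q.s u • Q.s u • y = y := by
  rw [← mul_smul, Q.cs.simple_mul_simple_self, one_smul]

theorem vanish {Y : Type*} [MulAction Q.W Y] (y0 : Y)
    (cob : ∀ c : Y → S → ℚ, (∀ y u, c (Q.s u • y) u = - c y u) →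
      (∀ u v, Q.adj u v = true → ∀ y, c y u + c (Q.s u • y) v = c y v + c (Q.s v • y) u) →
      ∃ z : Y → ℚ, ∀ y u, c y u = z (Q.s u • y) - z y)
    (h : Q.W → ℚ) (hadd : ∀ a b : Q.W, a • y0 = y0 → b • y0 = y0 → h (a * b) = h a + h b) :
    ∀ w : Q.W, w • y0 = y0 → h w = 0 := by
  classical
  have h1 : h 1 = 0 := by
    have := hadd 1 1 (one_smul _ _) (one_smul _ _)
    rw [mul_one] at this
    linarith
  have hinv : ∀ a : Q.W, a • y0 = y0 → h a⁻¹ = - h a := by
    intro a ha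
    have ha' : a⁻¹ • y0 = y0 := by rw [inv_smul_eq_iff]; exact ha.symm
    have := hadd a a⁻¹ ha ha'
    rw [mul_inv_cancel, h1] at this
    linarith
  set O : Set Y := {y | ∃ w : Q.W, w • y0 = y} with hO
  set t : Y → Q.W := fun y => if hy : ∃ w : Q.W, w • y0 = y then hy.choose else 1 with ht
  have ht' : ∀ y ∈ O, t y • y0 = y := by
    intro y hy
    have hy' : ∃ w : Q.W, w • y0 = y := hy
    simp only [ht, dif_pos hy']
    exact hy'.choose_spec
  have hOw : ∀ (w : Q.W) (y : Y), y ∈ O → w • y ∈ O := by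
    rintro w y ⟨a, rfl⟩
    exact ⟨w * a, mul_smul _ _ _⟩
  have hOw' : ∀ (w : Q.W) (y : Y), w • y ∈ O → y ∈ O := by
    rintro w y ⟨a, ha⟩
    exact ⟨w⁻¹ * a, by rw [mul_smul, ha, inv_smul_smul]⟩
  -- the element `t (w y)⁻¹ w t y`
  have hst : ∀ (w : Q.W) (y : Y), y ∈ O → ((t (w • y))⁻¹ * w * t y) • y0 = y0 := by
    intro w y hy
    rw [mul_smul, mul_smul, ht' y hy, inv_smul_eq_iff, ht' _ (hOw w y hy)]
  have hmul : ∀ (w w' : Q.W) (y : Y), y ∈ O → h ((t ((w * w') • y))⁻¹ * (w * w') * t y)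
      = h ((t (w • w' • y))⁻¹ * w * t (w' • y)) + h ((t (w' • y))⁻¹ * w' * t y) := by
    intro w w' y hy
    rw [← hadd _ _ (hst w _ (hOw w' y hy)) (hst w' y hy), mul_smul]
    congr 1
    group
  set c : Y → S → ℚ := fun y u => if y ∈ O then h ((t (Q.s u • y))⁻¹ * Q.s u * t y) else 0
    with hc
  have hcO : ∀ y u, y ∈ O → c y u = h ((t (Q.s u • y))⁻¹ * Q.s u * t y) := by
    intro y u hy
    simp only [hc, if_pos hy]
  have hcN : ∀ y u, y ∉ O → c y u = 0 := by
    intro y u hy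
    simp only [hc, if_neg hy]
  have hone : ∀ y ∈ O, h ((t ((1 : Q.W) • y))⁻¹ * 1 * t y) = 0 := by
    intro y hy
    rw [one_smul, mul_one, inv_mul_cancel, h1]
  obtain ⟨z, hz⟩ := cob c (by
    intro y u
    by_cases hy : y ∈ O
    · rw [hcO _ _ (hOw _ _ hy), hcO _ _ hy]
      have := hmul (Q.s u) (Q.s u) y hy
      have hss : Q.s u * Q.s u = 1 := Q.cs.simple_mul_simple_self u
      rw [hss, hone y hy] at this
      linarith
    · rw [hcN _ _ (fun h => hy (hOw' _ _ h)), hcN _ _ hy, neg_zero]) (by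
    intro u v huv y
    by_cases hy : y ∈ O
    · rw [hcO _ _ (hOw _ _ hy), hcO _ _ hy, hcO _ _ (hOw _ _ hy), hcO _ _ hy]
      have e1 := hmul (Q.s u) (Q.s v) y hy
      have e2 := hmul (Q.s v) (Q.s u) y hy
      have hcomm : Q.s u * Q.s v = Q.s v * Q.s u := by
        have h1 := Q.cs.simple_mul_simple_pow u v
        rw [M_apply] at h1
        have hne : u ≠ v := by rintro rfl; rw [Q.adj_irrefl] at huv; exact Bool.noConfusion huv
        rw [if_neg hne, if_pos huv, pow_two] at h1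
        have h2 : Q.s u * Q.s v = (Q.s u * Q.s v)⁻¹ := by
          rw [eq_inv_iff_mul_eq_one]; exact h1
        rw [h2, mul_inv_rev, Q.cs.inv_simple, Q.cs.inv_simple]
      rw [hcomm] at e1
      rw [e1] at e2
      linarith
    · rw [hcN _ _ (fun h => hy (hOw' _ _ h)), hcN _ _ hy, hcN _ _ (fun h => hy (hOw' _ _ h)),
        hcN _ _ hy])
  have key : ∀ (w : Q.W) (y : Y), y ∈ O → h ((t (w • y))⁻¹ * w * t y) = z (w • y) - z y := by
    intro w
    induction w using Q.cs.simple_induction_left with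
    | one => intro y hy; rw [hone y hy, one_smul, sub_self]
    | mul_simple_left w u ih =>
      intro y hy
      have e1 := hmul (Q.s u) w y hy
      have e2 := hz (w • y) u
      rw [hcO _ _ (hOw _ _ hy)] at e2
      rw [show Q.cs.simple u = Q.s u from rfl, e1, ih y hy, e2, mul_smul]
      ring
  intro w hw
  have hy0 : y0 ∈ O := ⟨1, one_smul _ _⟩
  have e := key w y0 hy0
  rw [hw, sub_self] at e
  have ht0 : t y0 • y0 = y0 := ht' y0 hy0
  have ht0' : (t y0)⁻¹ • y0 = y0 := by rw [inv_smul_eq_iff]; exact ht0.symm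
  have hm : ((t y0)⁻¹ * w) • y0 = y0 := by rw [mul_smul, hw, ht0']
  rw [hadd _ _ hm ht0, hadd _ _ ht0' hw, hinv _ ht0] at e
  linarith

end Sys

end

end Pool.Agent.CR
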