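import Pool.Agent.CR.LogQuot
import Pool.Agent.CR.Label
import Pool.Agent.CR.Poly
import Pool.Agent.CR.Vanish
import Pool.Agent.CR.Chamber

/-! # Assembly -/

namespace Pool.Agent.CR

open Quaternion Filter Topology Data

noncomputable section

/-- the label set `Ω × sheets`, as a `W`-set -/
@[ext] structure X42 where
  /-- underlying code -/
  x : Fin 42

/-- the oriented base set `Ω × {±}`, as a `W`-set -/
@[ext] structure X14 where
  /-- point -/
  i : Fin 7
  /-- orientation -/
  b : Bool

/-- `X14` is a product -/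
def X14.equiv : Fin 7 × Bool ≃ X14 where
  toFun p := ⟨p.1, p.2⟩
  invFun y := (y.i, y.b)
  left_inv _ := rfl
  right_inv _ := rfl

instance : Fintype X14 := Fintype.ofEquiv _ X14.equiv

/-- the generators on `X42` -/
def RX (u : Fin 120) : Equiv.Perm X42 where
  toFun z := ⟨r u z.x⟩
  invFun z := ⟨r u z.x⟩
  left_inv z := by ext1; exact r_r u z.x
  right_inv z := by ext1; exact r_r u z.x

lemma RX_sq (u : Fin 120) : RX u * RX u = 1 := by
  ext1 z
  exact (RX u).left_inv z

lemma RX_comm (u v : Fin 120) (h' : cell.adj u v = true) : RX u * RX v = RX v * RX u := by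
  have h : adj u v = true := h'
  ext1 z
  show RX u (RX v z) = RX v (RX u z)
  apply X42.ext
  exact r_comm_apply h z.x

/-- the generators on `X14` -/
def RB (u : Fin 120) : Equiv.Perm X14 where
  toFun y := ⟨R u y.i, !y.b⟩
  invFun y := ⟨R u y.i, !y.b⟩
  left_inv y := by ext1 <;> simp [R_R]
  right_inv y := by ext1 <;> simp [R_R]

lemma RB_sq (u : Fin 120) : RB u * RB u = 1 := by
  ext1 z
  exact (RB u).left_inv z

lemma RB_comm (u v : Fin 120) (h' : cell.adj u v = true) : RB u * RB v = RB v * RB u := by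
  have h : adj u v = true := h'
  ext1 y
  show RB u (RB v y) = RB v (RB u y)
  apply X14.ext
  · exact R_comm_apply h y.i
  · rfl

instance : MulAction cell.W X42 :=
  MulAction.compHom X42 (cell.toPerm RX RX_sq RX_comm : cell.W →* Equiv.Perm X42)

instance : MulAction cell.W X14 :=
  MulAction.compHom X14 (cell.toPerm RB RB_sq RB_comm : cell.W →* Equiv.Perm X14)

lemma s_smul42 (u : Fin 120) (z : X42) : cell.s u • z = ⟨r u z.x⟩ := by
  show (cell.toPerm RX RX_sq RX_comm : cell.W →* Equiv.Perm X42) (cell.s u) z = _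
  rw [Sys.toPerm_s]
  rfl

lemma s_smul14 (u : Fin 120) (y : X14) : cell.s u • y = ⟨R u y.i, !y.b⟩ := by
  show (cell.toPerm RB RB_sq RB_comm : cell.W →* Equiv.Perm X14) (cell.s u) y = _
  rw [Sys.toPerm_s]
  rfl

/-- projection to the base -/
def fib (z : X42) : Fin 7 := pt z.x

/-- compatibility of the two actions -/
lemma fib_smul (w : cell.W) : ∀ (z : X42) (b : Bool),
    fib (w • z) = (w • (⟨fib z, b⟩ : X14)).i := by
  induction w using cell.cs.simple_induction_left with
  | one => intro z b; rw [one_smul, one_smul]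
  | mul_simple_left w u ih =>
    intro z b
    rw [mul_smul, mul_smul]
    rw [show cell.cs.simple u = cell.s u from rfl, s_smul42, s_smul14]
    show pt (r u (w • z).x) = _
    rw [pt_r]
    exact congrArg (R u) (ih z b)

lemma fib_smul_eq (w : cell.W) (x x' : X42) (h : fib x = fib x') : fib (w • x) = fib (w • x') := by
  rw [fib_smul w x true, fib_smul w x' true, h]

lemma prodL_smul (l : List (Fin 120)) (z : X42) : cell.prodL l • z = ⟨actL l z.x⟩ := by
  induction l with
  | nil => rw [Sys.prodL_nil, one_smul]; rfl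
  | cons u l ih => rw [Sys.prodL_cons, mul_smul, ih, s_smul42]; rfl

/-- the complex labels -/
def clab (z : X42) : ℂ := ((lab z.x).1 : ℂ) + ((lab z.x).2 : ℂ) * Complex.I

open scoped ComplexConjugate in
lemma good : cell.Good fib clab := by
  intro T hT j j' hjj' hf
  have key : ∀ u ∈ T, ∀ v ∈ T, u ≠ v → adj u v = true := by
    intro u hu v hv huv
    have hcase : ∀ l : List (Fin 120), l.Pairwise (fun u v => adj u v = true) → ∀ u ∈ l, ∀ v ∈ l,
        u ≠ v → adj u v = true := by
      intro l hl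
      induction hl with
      | nil => intro u hu; exact absurd hu List.not_mem_nil
      | cons h _ ih =>
        intro u hu v hv huv
        rcases List.mem_cons.1 hu with rfl | hu'
        · rcases List.mem_cons.1 hv with rfl | hv'
          · exact absurd rfl huv
          · exact h v hv'
        · rcases List.mem_cons.1 hv with rfl | hv'
          · rw [adj_symm]; exact h u hu'
          · exact ih u hu' v hv' huv
    exact hcase T hT u hu v hv huv
  obtain ⟨d, hd⟩ := halfplane {u | u ∈ T} (fun u hu v hv huv => key u hu v hv huv) j.x j'.x hf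
    (fun h => hjj' (X42.ext h))
  refine ⟨(d.1 : ℂ) + (d.2 : ℂ) * Complex.I, fun T' hT' => ?_⟩
  have h := hd T' (fun u hu => hT'.subset hu)
  rw [prodL_smul, prodL_smul]
  have e : (conj ((d.1 : ℂ) + (d.2 : ℂ) * Complex.I) * (clab ⟨actL T' j.x⟩
      - clab ⟨actL T' j'.x⟩)).re
      = ((Data.dot d (lab (actL T' j.x) - lab (actL T' j'.x)) : ℤ) : ℝ) := by
    simp [clab, Data.dot]
  rw [e]
  exact_mod_cast h

/-- the base point of `X14` -/
def y0 : X14 := ⟨0, false⟩

/-- the lattice in `W` -/
def Gam : Subgroup cell.W := MulAction.stabilizer cell.W y0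

lemma mem_Gam {w : cell.W} : w ∈ Gam ↔ w • y0 = y0 := Iff.rfl

lemma parity_aux (w : cell.W) : (cell.cs.lengthParity w = 1 ∧ ∀ y : X14, (w • y).b = y.b) ∨
    (cell.cs.lengthParity w = Multiplicative.ofAdd 1 ∧ ∀ y : X14, (w • y).b = !y.b) := by
  have h11 : (Multiplicative.ofAdd (1 : ZMod 2)) * Multiplicative.ofAdd 1 = 1 := by decide
  induction w using cell.cs.simple_induction_left with
  | one => left; exact ⟨map_one _, fun y => by rw [one_smul]⟩
  | mul_simple_left w u ih =>
    rw [map_mul, cell.cs.lengthParity_simple]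
    rcases ih with ⟨h1, h2⟩ | ⟨h1, h2⟩
    · right
      refine ⟨by rw [h1, mul_one], fun y => ?_⟩
      rw [mul_smul, show cell.cs.simple u = cell.s u from rfl, s_smul14]
      show (!(w • y).b) = _
      rw [h2 y]
    · left
      refine ⟨by rw [h1, h11], fun y => ?_⟩
      rw [mul_smul, show cell.cs.simple u = cell.s u from rfl, s_smul14]
      show (!(w • y).b) = _
      rw [h2 y, Bool.not_not]

lemma Gam_le : Gam ≤ cell.evenW := by
  intro w hw
  rcases parity_aux w with ⟨h1, h2⟩ | ⟨h1, h2⟩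
  · exact h1
  · have h3 := h2 y0
    rw [mem_Gam.1 hw] at h3
    exact absurd h3 (by decide)

lemma Gam_reps : ∃ T : Finset cell.W, ∀ w : cell.W, ∃ t ∈ T, t⁻¹ * w ∈ Gam := by
  classical
  refine ⟨Finset.univ.image fun y : X14 =>
    if h : ∃ w : cell.W, w • y0 = y then h.choose else 1, fun w => ?_⟩
  refine ⟨_, Finset.mem_image.2 ⟨w • y0, Finset.mem_univ _, rfl⟩, ?_⟩
  have h : ∃ w' : cell.W, w' • y0 = w • y0 := ⟨w, rfl⟩
  rw [dif_pos h, mem_Gam, mul_smul, inv_smul_eq_iff]
  exact h.choose_spec.symm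

/-- the homogeneous space -/
abbrev XX : Type := Sp ⧸ cell.lat Gam

instance : CompactSpace XX := by
  obtain ⟨T, hT⟩ := Gam_reps
  exact cell.compactSpace_quot Gam Gam_le T hT

/-- base labels -/
def base (s : Fin 6) : X42 := ⟨code 0 s⟩

/-- the root functions on `Sp` -/
def root (s : Fin 6) (g : Sp) : ℂ := cell.F clab (base s) (Sp.act g⁻¹ p0)

lemma continuous_root (s : Fin 6) : Continuous (root s) := by
  have h1 : Continuous fun g : Sp => Sp.act g⁻¹ p0 := (Sp.continuous_orbit p0).comp continuous_inv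
  exact (cell.F_continuousOn clab (base s)).comp_continuous h1
    (fun g => Sp.act_mem_Hyp _ Sys.p0_mem_Hyp)

lemma base_injective {s s' : Fin 6} (h : base s = base s') : s = s' := by
  have := congrArg (fun z : X42 => sh z.x) h
  simpa [base] using this

lemma fib_base (s : Fin 6) : fib (base s) = 0 := pt_code 0 s

lemma root_ne (s s' : Fin 6) (h : s ≠ s') (g : Sp) : root s g ≠ root s' g :=
  cell.F_ne fib_smul_eq good (Sp.act_mem_Hyp _ Sys.p0_mem_Hyp) (fun h' => h (base_injective h'))
    (by rw [fib_base, fib_base])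

lemma root_mul (s : Fin 6) (g k : Sp) (w : cell.W) (hk : ∀ x, Sp.act k x = cell.ρ w x) :
    root s (g * k) = cell.F clab (w • base s) (Sp.act g⁻¹ p0) := by
  have hH : Sp.act g⁻¹ p0 ∈ Hyp := Sp.act_mem_Hyp _ Sys.p0_mem_Hyp
  have h1 : Sp.act (g * k)⁻¹ p0 = cell.ρ w⁻¹ (Sp.act g⁻¹ p0) := by
    have h2 : Sp.act k (cell.ρ w⁻¹ (Sp.act g⁻¹ p0)) = Sp.act g⁻¹ p0 := by
      rw [hk, Sys.ρ_apply_inv]
    rw [mul_inv_rev, Sp.act_mul]
    calc Sp.act k⁻¹ (Sp.act g⁻¹ p0)
        = Sp.act k⁻¹ (Sp.act k (cell.ρ w⁻¹ (Sp.act g⁻¹ p0))) := by rw [h2]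
      _ = _ := Sp.act_inv_act _ _
  rw [root, h1]
  have h3 := cell.F_equivariant clab w (base s) (y := cell.ρ w⁻¹ (Sp.act g⁻¹ p0))
    (cell.ρ_mem_Hyp _ hH)
  rw [Sys.ρ_apply_inv] at h3
  exact h3.symm

lemma fib_Gam {w : cell.W} (hw : w ∈ Gam) (s : Fin 6) : fib (w • base s) = 0 := by
  rw [fib_smul w (base s) false, fib_base]
  have := mem_Gam.1 hw
  exact congrArg X14.i this

lemma base_sh {z : X42} (h : fib z = 0) : base (sh z.x) = z := by
  have := code_pt_sh z.x
  rw [show pt z.x = 0 from h] at this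
  exact X42.ext this

lemma root_perm (g g' : Sp) (h : (QuotientGroup.mk g : XX) = QuotientGroup.mk g') :
    ∃ σ : Equiv.Perm (Fin 6), ∀ s, root s g' = root (σ s) g := by
  have hk : g⁻¹ * g' ∈ cell.lat Gam := QuotientGroup.eq.1 h
  obtain ⟨w, hw, hkw⟩ := hk
  have hinj : Function.Injective fun s : Fin 6 => sh (w • base s).x := by
    intro s s' hss
    have h1 := base_sh (fib_Gam hw s)
    have h2 := base_sh (fib_Gam hw s')
    have h3 : (w • base s : X42) = w • base s' := by
      rw [← h1, ← h2]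
      exact congrArg base hss
    exact base_injective (smul_left_cancel w h3)
  refine ⟨Equiv.ofBijective _ (Finite.injective_iff_bijective.1 hinj), fun s => ?_⟩
  have h1 := root_mul s g (g⁻¹ * g') w hkw
  rw [mul_inv_cancel_left] at h1
  rw [h1]
  show _ = root (sh (w • base s).x) g
  rw [root, base_sh (fib_Gam hw s)]

lemma w0_mem : cell.s 2 * cell.s 0 ∈ Gam := by
  rw [mem_Gam, mul_smul, s_smul14, s_smul14]
  apply X14.ext
  · exact loop_R
  · rfl

lemma w0_smul : (cell.s 2 * cell.s 0) • base 0 ≠ base 0 := by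
  rw [mul_smul, s_smul42, s_smul42]
  intro h
  have h1 : r 2 (r 0 0) = (0 : Fin 42) := congrArg X42.x h
  rw [loop.1] at h1
  exact absurd h1 (by decide)

/-- Final statement, modulo the Lie group structure and the cocycle computation. -/
theorem final_aux
    (cob : ∀ c : Fin 7 → Bool → Fin 120 → ℚ,
      (∀ i e u, c (R u i) (!e) u = - c i e u) →
      (∀ u v, adj u v = true → ∀ i e, c i e u + c (R u i) (!e) v = c i e v + c (R v i) (!e) u) →
      ∃ z : Fin 7 → Bool → ℚ, ∀ i e u, c i e u = z (R u i) (!e) - z i e) :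
    (∀ f : C(XX, ℂ), (∀ x, f x ≠ 0) → ∃ g : C(XX, ℂ), ∀ x, f x = Complex.exp (g x)) ∧
    ∃ p : Polynomial C(XX, ℂ), p.Monic ∧ p.Separable ∧
      ¬ ∃ t : Multiset C(XX, ℂ), p = (t.map (fun a => Polynomial.X - Polynomial.C a)).prod := by
  constructor
  · refine cell.logs_quot Gam Gam_le ?_
    intro h hadd w hw
    refine cell.vanish y0 ?_ h (fun a b ha hb => hadd a ha b hb) w hw
    intro c h1 h2
    obtain ⟨z, hz⟩ := cob (fun i e u => c ⟨i, e⟩ u)
      (fun i e u => by
        have := h1 ⟨i, e⟩ u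
        rw [s_smul14] at this
        exact this)
      (fun u v huv i e => by
        have := h2 u v huv ⟨i, e⟩
        rw [s_smul14, s_smul14] at this
        exact this)
    refine ⟨fun y => z y.i y.b, fun y u => ?_⟩
    rw [s_smul14]
    exact hz y.i y.b u
  · obtain ⟨p, hp1, hp2, hp3⟩ := exists_poly (X := XX) (QuotientGroup.mk : Sp → XX)
      (QuotientGroup.isQuotientMap_mk _) root continuous_root root_ne
      (fun g g' h => root_perm g g' h)
    refine ⟨p, hp1, hp2, ?_⟩
    obtain ⟨k, hk⟩ := cell.mem_liftW (Gam_le w0_mem)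
    have hkm : k ∈ cell.lat Gam := ⟨_, w0_mem, hk⟩
    refine not_prod_linear (QuotientGroup.mk : Sp → XX) QuotientGroup.continuous_mk root
      continuous_root root_ne p hp3 (s := 0) (y₀ := k) (y₁ := 1) ?_ ?_
    · rw [QuotientGroup.eq, mul_one]
      exact (cell.lat Gam).inv_mem hkm
    · have h1 := root_mul 0 1 k _ hk
      rw [one_mul] at h1
      rw [h1, root]
      refine cell.F_ne fib_smul_eq good (Sp.act_mem_Hyp _ Sys.p0_mem_Hyp) w0_smul ?_
      rw [fib_Gam w0_mem, fib_base]

end

end Pool.Agent.CR
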