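import Pool.Agent.CR.Final

/-! # Transitive monodromy makes the polynomial irreducible -/

namespace Pool.Agent.CR

open Polynomial Topology Data Quaternion

noncomputable section

variable {Y X : Type*} [TopologicalSpace Y] [TopologicalSpace X]

/-- value of `p` at a constant function, at a point -/
lemma eval_const (p : Polynomial C(X, ℂ)) (z : ℂ) (x : X) :
    (p.eval (ContinuousMap.const X z)) x = (p.map (evHom x)).eval z := by
  have h := Polynomial.eval_map_apply (p := p) (f := evHom x) (x := ContinuousMap.const X z)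
  exact h.symm

lemma natDegree_of_map [Nonempty Y] {n : ℕ} (q : Y → X) (F : Fin n → Y → ℂ)
    (p : Polynomial C(X, ℂ)) (hm : p.Monic)
    (hp : ∀ y, p.map (evHom (q y)) = ∏ s, (Polynomial.X - Polynomial.C (F s y))) :
    p.natDegree = n := by
  obtain ⟨y⟩ := ‹Nonempty Y›
  have h1 : (p.map (evHom (q y))).natDegree = p.natDegree := hm.natDegree_map _
  rw [← h1, hp y, Polynomial.natDegree_prod_of_monic _ _ fun s _ => Polynomial.monic_X_sub_C _]
  simp

lemma roots_of_map {n : ℕ} (q : Y → X) (hq : Function.Surjective q) (F : Fin n → Y → ℂ)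
    (hne : ∀ s s', s ≠ s' → ∀ y, F s y ≠ F s' y) (p : Polynomial C(X, ℂ))
    (hp : ∀ y, p.map (evHom (q y)) = ∏ s, (Polynomial.X - Polynomial.C (F s y))) (x : X) :
    {z : ℂ | (p.eval (ContinuousMap.const X z)) x = 0}.ncard = n := by
  obtain ⟨y, rfl⟩ := hq x
  have e : {z : ℂ | (p.eval (ContinuousMap.const X z)) (q y) = 0} = Set.range fun s => F s y := by
    ext z
    rw [Set.mem_setOf_eq, eval_const, hp y, Polynomial.eval_prod, Finset.prod_eq_zero_iff]
    constructor
    · rintro ⟨s, -, hs⟩
      rw [Polynomial.eval_sub, Polynomial.eval_X, Polynomial.eval_C, sub_eq_zero] at hs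
      exact ⟨s, hs.symm⟩
    · rintro ⟨s, rfl⟩
      exact ⟨s, Finset.mem_univ _, by simp⟩
  have hinj : Function.Injective fun s => F s y := by
    intro s s' h
    by_contra hss
    exact hne s s' hss y h
  rw [e, ← Set.image_univ, Set.ncard_image_of_injective _ hinj, Set.ncard_univ]
  simp

/-- Transitive monodromy of the roots makes the polynomial irreducible. -/
theorem irreducible_of_transitive [PreconnectedSpace Y] [Nonempty Y] {n : ℕ} (hn : 0 < n)
    (q : Y → X) (hq : Continuous q) (hqs : Function.Surjective q)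
    (F : Fin n → Y → ℂ) (hF : ∀ s, Continuous (F s)) (hne : ∀ s s', s ≠ s' → ∀ y, F s y ≠ F s' y)
    (p : Polynomial C(X, ℂ))
    (hp : ∀ y, p.map (evHom (q y)) = ∏ s, (Polynomial.X - Polynomial.C (F s y)))
    (htr : ∀ S : Fin n → Prop, (∀ s s' y y', q y = q y' → F s y = F s' y' → S s → S s') →
      ∀ s s', S s → S s') : Irreducible p := by
  classical
  obtain ⟨y₀⟩ := ‹Nonempty Y›
  have hroot : ∀ y s, (p.map (evHom (q y))).eval (F s y) = 0 := by
    intro y s
    rw [hp, Polynomial.eval_prod]
    exact Finset.prod_eq_zero (Finset.mem_univ s) (by simp)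
  have hsep : ∀ y, (p.map (evHom (q y))).Separable := by
    intro y
    rw [hp, Polynomial.separable_prod_X_sub_C_iff]
    intro s s' h
    by_contra hss
    exact hne s s' hss y h
  -- continuity of values
  have hcont : ∀ (a : Polynomial C(X, ℂ)) (s : Fin n),
      Continuous fun y => (a.map (evHom (q y))).eval (F s y) := by
    intro a s
    have e : (fun y => (a.map (evHom (q y))).eval (F s y)) =
        fun y => ∑ i ∈ Finset.range (a.natDegree + 1), a.coeff i (q y) * F s y ^ i := by
      funext y
      rw [Polynomial.eval_map, Polynomial.eval₂_eq_sum_range]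
      rfl
    rw [e]
    exact continuous_finset_sum _ fun i _ =>
      ((a.coeff i).continuous.comp hq).mul ((hF s).pow i)
  -- a factor without zeros on the roots is a unit
  have hunit : ∀ a b : Polynomial C(X, ℂ), p = a * b →
      (∀ s y, (b.map (evHom (q y))).eval (F s y) ≠ 0) → IsUnit b := by
    intro a b hab hb
    have hpy : ∀ y, (a.map (evHom (q y))) * (b.map (evHom (q y))) =
        ∏ s, (Polynomial.X - Polynomial.C (F s y)) := by
      intro y
      rw [← hp, hab, Polynomial.map_mul]
    have hb0 : ∀ y, (b.map (evHom (q y))).natDegree = 0 := by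
      intro y
      by_contra hne0
      have hdeg : (b.map (evHom (q y))).degree ≠ 0 := by
        intro h
        exact hne0 (Polynomial.natDegree_eq_of_degree_eq_some h)
      obtain ⟨z, hz⟩ := IsAlgClosed.exists_root _ hdeg
      have h1 : (∏ s, (Polynomial.X - Polynomial.C (F s y))).eval z = 0 := by
        rw [← hpy, Polynomial.eval_mul, hz.eq_zero, mul_zero]
      rw [Polynomial.eval_prod, Finset.prod_eq_zero_iff] at h1
      obtain ⟨s, -, hs⟩ := h1
      rw [Polynomial.eval_sub, Polynomial.eval_X, Polynomial.eval_C, sub_eq_zero] at hs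
      rw [hs] at hz
      exact hb s y hz
    have hbC : b = Polynomial.C (b.coeff 0) := by
      ext i x
      obtain ⟨y, rfl⟩ := hqs x
      rcases Nat.eq_zero_or_pos i with rfl | hi
      · rw [Polynomial.coeff_C_zero]
      · rw [Polynomial.coeff_C, if_neg hi.ne']
        have h1 : (b.map (evHom (q y))).coeff i = 0 :=
          Polynomial.coeff_eq_zero_of_natDegree_lt (by rw [hb0]; exact hi)
        rw [Polynomial.coeff_map] at h1
        exact h1
    have hnz : ∀ x, b.coeff 0 x ≠ 0 := by
      intro x
      obtain ⟨y, rfl⟩ := hqs x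
      have h1 := hb ⟨0, hn⟩ y
      rw [hbC] at h1
      simpa using h1
    rw [hbC]
    exact Polynomial.isUnit_C.2 (ContinuousMap.isUnit_iff_forall_ne_zero _ |>.2 hnz)
  constructor
  · intro hu
    have h1 : IsUnit (p.map (evHom (q y₀))) := hu.map (Polynomial.mapRingHom (evHom (q y₀)))
    have h2 : (p.map (evHom (q y₀))).eval (F ⟨0, hn⟩ y₀) = 0 := hroot _ _
    obtain ⟨c, hc, h3⟩ := Polynomial.isUnit_iff.1 h1
    rw [← h3, Polynomial.eval_C] at h2
    exact hc.ne_zero h2
  · intro a b hab
    -- the closed sets
    let A : Fin n → Set Y := fun s => {y | (a.map (evHom (q y))).eval (F s y) = 0}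
    let B : Fin n → Set Y := fun s => {y | (b.map (evHom (q y))).eval (F s y) = 0}
    have hAc : ∀ s, IsClosed (A s) := fun s => isClosed_eq (hcont a s) continuous_const
    have hBc : ∀ s, IsClosed (B s) := fun s => isClosed_eq (hcont b s) continuous_const
    have hAB : ∀ s y, y ∈ A s ∨ y ∈ B s := by
      intro s y
      have h1 := hroot y s
      rw [hab, Polynomial.map_mul, Polynomial.eval_mul] at h1
      exact mul_eq_zero.1 h1
    have hAB' : ∀ s y, y ∈ A s → y ∉ B s := by
      intro s y hA hB
      have h1 : (Polynomial.X - Polynomial.C (F s y)) ∣ a.map (evHom (q y)) :=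
        Polynomial.dvd_iff_isRoot.2 hA
      have h2 : (Polynomial.X - Polynomial.C (F s y)) ∣ b.map (evHom (q y)) :=
        Polynomial.dvd_iff_isRoot.2 hB
      have h3 : (Polynomial.X - Polynomial.C (F s y)) * (Polynomial.X - Polynomial.C (F s y)) ∣
          p.map (evHom (q y)) := by
        rw [hab, Polynomial.map_mul]
        exact mul_dvd_mul h1 h2
      exact Polynomial.not_isUnit_X_sub_C _ ((hsep y).squarefree _ h3)
    have hAo : ∀ s, IsClopen (A s) := by
      intro s
      refine ⟨hAc s, ?_⟩
      rw [← isClosed_compl_iff]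
      have : (A s)ᶜ = B s := by
        ext y
        constructor
        · intro h
          exact (hAB s y).resolve_left h
        · intro h h'
          exact hAB' s y h' h
      rw [this]
      exact hBc s
    have htr' := htr (fun s => A s = Set.univ) (by
      intro s s' y y' hqy hFy hs
      rcases isClopen_iff.1 (hAo s') with h | h
      · exfalso
        have h1 : y ∈ A s := by rw [hs]; trivial
        have h2 : y' ∈ A s' := by
          show (a.map (evHom (q y'))).eval (F s' y') = 0
          rw [← hqy, ← hFy]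
          exact h1
        rw [h] at h2
        exact h2
      · exact h)
    by_cases h0 : A ⟨0, hn⟩ = Set.univ
    · right
      refine hunit a b hab fun s y hB => ?_
      have h1 : y ∈ A s := by rw [htr' _ s h0]; trivial
      exact hAB' s y h1 hB
    · left
      refine hunit b a (hab.trans (mul_comm a b)) fun s y hA => ?_
      rcases isClopen_iff.1 (hAo s) with h | h
      · have h1 : y ∈ A s := hA
        rw [h] at h1
        exact h1
      · exact h0 (htr' s _ h)


/-- the three short loops at the base point -/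
theorem loopB : r 18 (r 9 1) = 2 ∧ r 18 (r 9 4) = 5 ∧ R 18 (R 9 0) = 0 := by
  decide +kernel

theorem loopC : r 23 (r 6 2) = 3 ∧ R 23 (R 6 0) = 0 := by
  decide +kernel

lemma mem_Gam_of_loop {u v : Fin 120} (h : R u (R v 0) = 0) : cell.s u * cell.s v ∈ Gam := by
  rw [mem_Gam, mul_smul, s_smul14, s_smul14]
  apply X14.ext
  · exact h
  · rfl

/-- a loop `w` gives two points of a fibre with equal root values -/
lemma link {u v : Fin 120} (h : R u (R v 0) = 0) {s s' : Fin 6}
    (hs : r u (r v (base s).x) = (base s').x) :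
    ∃ y y' : Sp, (QuotientGroup.mk y : XX) = QuotientGroup.mk y' ∧ root s y = root s' y' := by
  have hw := mem_Gam_of_loop h
  obtain ⟨k, hk⟩ := cell.mem_liftW (Gam_le hw)
  have hkm : k ∈ cell.lat Gam := ⟨_, hw, hk⟩
  refine ⟨k, 1, ?_, ?_⟩
  · rw [QuotientGroup.eq, mul_one]
    exact (cell.lat Gam).inv_mem hkm
  · have h1 := root_mul s 1 k _ hk
    rw [one_mul] at h1
    rw [h1, root]
    congr 1
    rw [mul_smul, s_smul42, s_smul42]
    exact X42.ext hs

lemma monodromy (S : Fin 6 → Prop)
    (h : ∀ (s s' : Fin 6) (y y' : Sp), (QuotientGroup.mk y : XX) = QuotientGroup.mk y' →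
      root s y = root s' y' → S s → S s') : ∀ s s', S s → S s' := by
  have key : ∀ (u v : Fin 120) (_ : R u (R v 0) = 0) (s s' : Fin 6)
      (_ : r u (r v (base s).x) = (base s').x), S s ↔ S s' := by
    intro u v huv s s' hs
    obtain ⟨y, y', h1, h2⟩ := link huv hs
    exact ⟨h s s' y y' h1 h2, h s' s y' y h1.symm h2.symm⟩
  have h01 : S 0 ↔ S 1 := key 2 0 loop_R 0 1 (by decide +kernel)
  have h12 : S 1 ↔ S 2 := key 18 9 loopB.2.2 1 2 (by decide +kernel)
  have h23 : S 2 ↔ S 3 := key 23 6 loopC.2 2 3 (by decide +kernel)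
  have h34 : S 3 ↔ S 4 := key 2 0 loop_R 3 4 (by decide +kernel)
  have h45 : S 4 ↔ S 5 := key 18 9 loopB.2.2 4 5 (by decide +kernel)
  have hall : ∀ s, S s ↔ S 0 := by
    intro s
    fin_cases s
    · exact Iff.rfl
    · exact h01.symm
    · exact (h01.trans h12).symm
    · exact ((h01.trans h12).trans h23).symm
    · exact (((h01.trans h12).trans h23).trans h34).symm
    · exact ((((h01.trans h12).trans h23).trans h34).trans h45).symm
  intro s s' hs
  exact (hall s').2 ((hall s).1 hs)

/-- The irreducible polynomial of degree six. -/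
theorem exists_irreducible : ∃ p : Polynomial C(XX, ℂ), p.Monic ∧ p.natDegree = 6 ∧
    (∀ x, {z : ℂ | (p.eval (ContinuousMap.const XX z)) x = 0}.ncard = 6) ∧ Irreducible p := by
  obtain ⟨p, hp1, -, hp3⟩ := exists_poly (X := XX) (QuotientGroup.mk : Sp → XX)
    (QuotientGroup.isQuotientMap_mk _) root continuous_root root_ne
    (fun g g' h => root_perm g g' h)
  refine ⟨p, hp1, natDegree_of_map (QuotientGroup.mk : Sp → XX) root p hp1 hp3, ?_, ?_⟩
  · exact roots_of_map (QuotientGroup.mk : Sp → XX) QuotientGroup.mk_surjective root root_ne p hp3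
  · exact irreducible_of_transitive (by norm_num) (QuotientGroup.mk : Sp → XX)
      QuotientGroup.continuous_mk QuotientGroup.mk_surjective root continuous_root root_ne p hp3
      monodromy

/-- Logarithms give null-homotopies of circle-valued maps. -/
theorem nullhomotopic_of_log {Z : Type*} [TopologicalSpace Z]
    (h : ∀ f : C(Z, ℂ), (∀ x, f x ≠ 0) → ∃ g : C(Z, ℂ), ∀ x, f x = Complex.exp (g x))
    (f : C(Z, Circle)) : f.Nullhomotopic := by
  obtain ⟨g, hg⟩ := h ⟨fun x => (f x : ℂ), by fun_prop⟩ (fun x => Circle.coe_ne_zero _)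
  have hre : ∀ x, (g x).re = 0 := by
    intro x
    have h1 := congrArg (fun z : ℂ => ‖z‖) (hg x)
    simp only [ContinuousMap.coe_mk, Circle.norm_coe, Complex.norm_exp] at h1
    exact (Real.exp_eq_one_iff _).1 h1.symm
  have hf : ∀ x, f x = Circle.exp (g x).im := by
    intro x
    apply Circle.ext
    have h1 := hg x
    simp only [ContinuousMap.coe_mk] at h1
    rw [h1, Circle.coe_exp]
    congr 1
    apply Complex.ext
    · simp [hre x]
    · simp
  refine ⟨1, ⟨{ toFun := fun p => Circle.exp ((1 - (p.1 : ℝ)) * (g p.2).im)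
                continuous_toFun := by fun_prop
                map_zero_left := fun x => by simp [hf x]
                map_one_left := fun x => by simp }⟩⟩

end

end Pool.Agent.CR
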