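import Mathlib

/-! # The group `Sp(1,1)` -/

namespace Pool.Agent.CR

open Quaternion

noncomputable section

/-- `Sp(1,1)`: quaternionic `2 × 2` matrices `g = [[a, b], [c, d]]` with `g J g* = J`,
`J = diag (1, -1)`. -/
@[ext] structure Sp where
  a : ℍ[ℝ]
  b : ℍ[ℝ]
  c : ℍ[ℝ]
  d : ℍ[ℝ]
  h1 : normSq a - normSq b = 1
  h2 : normSq d - normSq c = 1
  h3 : a * star c = b * star d

namespace Sp

lemma normSq_b_eq (g : Sp) : normSq g.b = normSq g.c := by
  have h := congrArg normSq g.h3
  rw [map_mul, map_mul, normSq_star, normSq_star] at h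
  have h1 := g.h1
  have h2 := g.h2
  have e1 : normSq g.a = 1 + normSq g.b := by linarith
  have e2 : normSq g.d = 1 + normSq g.c := by linarith
  rw [e1, e2] at h
  linarith

lemma normSq_a_eq (g : Sp) : normSq g.a = normSq g.d := by
  have h1 := g.h1
  have h2 := g.h2
  have h3 := g.normSq_b_eq
  linarith

lemma h3' (g : Sp) : star g.a * g.b = star g.c * g.d := by
  have h : star g.a * (g.a * star g.c) * g.d = star g.a * (g.b * star g.d) * g.d := by rw [g.h3]
  have e1 : star g.a * (g.a * star g.c) * g.d = (normSq g.a : ℝ) • (star g.c * g.d) := by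
    rw [← mul_assoc, star_mul_self, mul_assoc, coe_mul_eq_smul]
  have e2 : star g.a * (g.b * star g.d) * g.d = (normSq g.d : ℝ) • (star g.a * g.b) := by
    rw [mul_assoc, mul_assoc, star_mul_self, ← mul_assoc, mul_coe_eq_smul]
  rw [e1, e2, g.normSq_a_eq] at h
  have hd : (normSq g.d : ℝ) ≠ 0 := by
    have := g.h2
    have h0 : 0 ≤ normSq g.c := normSq_nonneg
    have : 0 < normSq g.d := by linarith
    exact this.ne'
  exact (smul_right_injective _ hd h).symm

lemma sa (g : Sp) : g.a * star g.a - g.b * star g.b = 1 := by
  rw [self_mul_star, self_mul_star, ← coe_sub, g.h1, coe_one]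

lemma sd (g : Sp) : g.d * star g.d - g.c * star g.c = 1 := by
  rw [self_mul_star, self_mul_star, ← coe_sub, g.h2, coe_one]

lemma h3s (g : Sp) : g.c * star g.a = g.d * star g.b := by
  have := congrArg star g.h3
  simpa using this

lemma of_coe {x y : ℍ[ℝ]} (h : x * star x - y * star y = 1) : normSq x - normSq y = 1 := by
  rw [self_mul_star, self_mul_star, ← coe_sub] at h
  have := congrArg (fun q : ℍ[ℝ] => q.re) h
  simpa using this

instance : Mul Sp where
  mul g h :=
    { a := g.a * h.a + g.b * h.c
      b := g.a * h.b + g.b * h.d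
      c := g.c * h.a + g.d * h.c
      d := g.c * h.b + g.d * h.d
      h1 := by
        apply of_coe
        have e : (g.a * h.a + g.b * h.c) * star (g.a * h.a + g.b * h.c)
            - (g.a * h.b + g.b * h.d) * star (g.a * h.b + g.b * h.d)
            = g.a * (h.a * star h.a - h.b * star h.b) * star g.a
              - g.b * (h.d * star h.d - h.c * star h.c) * star g.b
              + g.a * (h.a * star h.c - h.b * star h.d) * star g.b
              + g.b * (h.c * star h.a - h.d * star h.b) * star g.a := by
          simp only [star_add, star_mul]; noncomm_ring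
        rw [e, h.sa, h.sd, h.h3, h.h3s, sub_self, sub_self, mul_one, mul_one, mul_zero, mul_zero,
          zero_mul, zero_mul, add_zero, add_zero, g.sa]
      h2 := by
        apply of_coe
        have e : (g.c * h.b + g.d * h.d) * star (g.c * h.b + g.d * h.d)
            - (g.c * h.a + g.d * h.c) * star (g.c * h.a + g.d * h.c)
            = g.d * (h.d * star h.d - h.c * star h.c) * star g.d
              - g.c * (h.a * star h.a - h.b * star h.b) * star g.c
              - g.c * (h.a * star h.c - h.b * star h.d) * star g.d
              - g.d * (h.c * star h.a - h.d * star h.b) * star g.c := by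
          simp only [star_add, star_mul]; noncomm_ring
        rw [e, h.sa, h.sd, h.h3, h.h3s, sub_self, sub_self, mul_one, mul_one, mul_zero, mul_zero,
          zero_mul, zero_mul, sub_zero, sub_zero, g.sd]
      h3 := by
        have e : (g.a * h.a + g.b * h.c) * star (g.c * h.a + g.d * h.c)
            - (g.a * h.b + g.b * h.d) * star (g.c * h.b + g.d * h.d)
            = g.a * (h.a * star h.a - h.b * star h.b) * star g.c
              - g.b * (h.d * star h.d - h.c * star h.c) * star g.d
              + g.a * (h.a * star h.c - h.b * star h.d) * star g.d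
              + g.b * (h.c * star h.a - h.d * star h.b) * star g.c := by
          simp only [star_add, star_mul]; noncomm_ring
        rw [← sub_eq_zero, e, h.sa, h.sd, h.h3, h.h3s, sub_self, sub_self, mul_one, mul_one,
          mul_zero, mul_zero, zero_mul, zero_mul, add_zero, add_zero, g.h3, sub_self] }

instance : One Sp where
  one := { a := 1, b := 0, c := 0, d := 1, h1 := by simp, h2 := by simp, h3 := by simp }

instance : Inv Sp where
  inv g :=
    { a := star g.a
      b := -star g.c
      c := -star g.b
      d := star g.d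
      h1 := by
        rw [normSq_star, normSq_neg, normSq_star, ← g.normSq_b_eq]; exact g.h1
      h2 := by
        rw [normSq_star, normSq_neg, normSq_star, g.normSq_b_eq]; exact g.h2
      h3 := by
        rw [star_neg, star_star, star_star, mul_neg, neg_mul, g.h3'] }

@[simp] lemma mul_a (g h : Sp) : (g * h).a = g.a * h.a + g.b * h.c := rfl
@[simp] lemma mul_b (g h : Sp) : (g * h).b = g.a * h.b + g.b * h.d := rfl
@[simp] lemma mul_c (g h : Sp) : (g * h).c = g.c * h.a + g.d * h.c := rfl
@[simp] lemma mul_d (g h : Sp) : (g * h).d = g.c * h.b + g.d * h.d := rfl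
@[simp] lemma one_a : (1 : Sp).a = 1 := rfl
@[simp] lemma one_b : (1 : Sp).b = 0 := rfl
@[simp] lemma one_c : (1 : Sp).c = 0 := rfl
@[simp] lemma one_d : (1 : Sp).d = 1 := rfl
@[simp] lemma inv_a (g : Sp) : (g⁻¹).a = star g.a := rfl
@[simp] lemma inv_b (g : Sp) : (g⁻¹).b = -star g.c := rfl
@[simp] lemma inv_c (g : Sp) : (g⁻¹).c = -star g.b := rfl
@[simp] lemma inv_d (g : Sp) : (g⁻¹).d = star g.d := rfl

lemma sa' (g : Sp) : star g.a * g.a - star g.c * g.c = 1 := by
  rw [star_mul_self, star_mul_self, ← coe_sub, ← g.normSq_b_eq, g.h1, coe_one]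

lemma sd' (g : Sp) : star g.d * g.d - star g.b * g.b = 1 := by
  rw [star_mul_self, star_mul_self, ← coe_sub, g.normSq_b_eq, g.h2, coe_one]

lemma h3's (g : Sp) : star g.b * g.a = star g.d * g.c := by
  have := congrArg star g.h3'
  simpa using this

instance : Group Sp where
  mul_assoc g h k := by
    apply Sp.ext
    · simp only [mul_a, mul_b, mul_c]; noncomm_ring
    · simp only [mul_a, mul_b, mul_d]; noncomm_ring
    · simp only [mul_a, mul_c, mul_d]; noncomm_ring
    · simp only [mul_b, mul_c, mul_d]; noncomm_ring
  one_mul g := by apply Sp.ext <;> simp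
  mul_one g := by apply Sp.ext <;> simp
  inv_mul_cancel g := by
    apply Sp.ext
    · rw [mul_a, inv_a, inv_b, neg_mul, ← sub_eq_add_neg]; exact g.sa'
    · rw [mul_b, inv_a, inv_b, neg_mul, ← sub_eq_add_neg, one_b, sub_eq_zero]; exact g.h3'
    · rw [mul_c, inv_c, inv_d, neg_mul, neg_add_eq_sub, one_c, sub_eq_zero]; exact g.h3's.symm
    · rw [mul_d, inv_c, inv_d, neg_mul, neg_add_eq_sub]; exact g.sd'

/-- the embedding in `ℍ⁴` -/
def ι (g : Sp) : ℍ[ℝ] × ℍ[ℝ] × ℍ[ℝ] × ℍ[ℝ] := (g.a, g.b, g.c, g.d)

lemma ι_injective : Function.Injective ι := by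
  intro g h hgh
  simp only [ι, Prod.mk.injEq] at hgh
  exact Sp.ext hgh.1 hgh.2.1 hgh.2.2.1 hgh.2.2.2

instance : TopologicalSpace Sp := TopologicalSpace.induced ι inferInstance

lemma isInducing_ι : Topology.IsInducing ι := ⟨rfl⟩

lemma isEmbedding_ι : Topology.IsEmbedding ι := ⟨isInducing_ι, ι_injective⟩

lemma continuous_a : Continuous Sp.a := continuous_fst.comp isInducing_ι.continuous
lemma continuous_b : Continuous Sp.b := (continuous_fst.comp continuous_snd).comp
  isInducing_ι.continuous
lemma continuous_c : Continuous Sp.c := (continuous_fst.comp (continuous_snd.comp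
  continuous_snd)).comp isInducing_ι.continuous
lemma continuous_d : Continuous Sp.d := (continuous_snd.comp (continuous_snd.comp
  continuous_snd)).comp isInducing_ι.continuous

lemma continuous_iff {X : Type*} [TopologicalSpace X] {f : X → Sp} :
    Continuous f ↔ Continuous (fun x => (f x).a) ∧ Continuous (fun x => (f x).b) ∧
      Continuous (fun x => (f x).c) ∧ Continuous (fun x => (f x).d) := by
  constructor
  · intro h
    exact ⟨continuous_a.comp h, continuous_b.comp h, continuous_c.comp h, continuous_d.comp h⟩
  · rintro ⟨h1, h2, h3, h4⟩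
    exact isInducing_ι.continuous_iff.2 (h1.prodMk (h2.prodMk (h3.prodMk h4)))

instance : IsTopologicalGroup Sp where
  continuous_mul := by
    rw [continuous_iff]
    have a1 := continuous_a.comp (continuous_fst (X := Sp) (Y := Sp))
    have b1 := continuous_b.comp (continuous_fst (X := Sp) (Y := Sp))
    have c1 := continuous_c.comp (continuous_fst (X := Sp) (Y := Sp))
    have d1 := continuous_d.comp (continuous_fst (X := Sp) (Y := Sp))
    have a2 := continuous_a.comp (continuous_snd (X := Sp) (Y := Sp))
    have b2 := continuous_b.comp (continuous_snd (X := Sp) (Y := Sp))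
    have c2 := continuous_c.comp (continuous_snd (X := Sp) (Y := Sp))
    have d2 := continuous_d.comp (continuous_snd (X := Sp) (Y := Sp))
    exact ⟨(a1.mul a2).add (b1.mul c2), (a1.mul b2).add (b1.mul d2), (c1.mul a2).add (d1.mul c2),
      (c1.mul b2).add (d1.mul d2)⟩
  continuous_inv := by
    rw [continuous_iff]
    exact ⟨continuous_a.star, continuous_c.star.neg, continuous_b.star.neg, continuous_d.star⟩

instance : T2Space Sp := isEmbedding_ι.t2Space

end Sp

end

end Pool.Agent.CR
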