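import Mathlib
import Pool.Agent.CR.SpDef

/-! # Connectedness of `Sp(1,1)` and continuous logarithms -/

namespace Pool.Agent.CR

open Topology Metric unitInterval

/-- every continuous nowhere zero complex function has a continuous logarithm -/
def HasLogs (X : Type*) [TopologicalSpace X] : Prop :=
  ∀ f : C(X, ℂ), (∀ x, f x ≠ 0) → ∃ l : C(X, ℂ), ∀ x, f x = Complex.exp (l x)

section General

variable {X Y : Type*} [TopologicalSpace X] [TopologicalSpace Y]

theorem log_homotopy (H : C(I × X, ℂ)) (hH : ∀ p, H p ≠ 0) (l0 : C(X, ℂ))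
    (h0 : ∀ x, H (0, x) = Complex.exp (l0 x)) :
    ∃ l1 : C(X, ℂ), ∀ x, H (1, x) = Complex.exp (l1 x) := by
  let H' : C(I × X, {z : ℂ // z ≠ 0}) := ⟨fun p => ⟨H p, hH p⟩, by fun_prop⟩
  have h0' : ∀ x, H' (0, x) = (⟨_, (l0 x).exp_ne_zero⟩ : {z : ℂ // z ≠ 0}) :=
    fun x => Subtype.ext (h0 x)
  let L := Complex.isCoveringMap_exp.liftHomotopy H' l0 h0'
  have hL := Complex.isCoveringMap_exp.liftHomotopy_lifts H' l0 h0'
  refine ⟨⟨fun x => L (1, x), by fun_prop⟩, fun x => ?_⟩
  have := congrFun hL (1, x)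
  exact (congrArg Subtype.val this).symm

/-- if `X` is contracted to the image of `g` through `k`, then `X` has logarithms if `Y` has -/
theorem HasLogs.of_contract (hY : HasLogs Y) (r : C(I × X, X)) (k : C(X, Y)) (g : C(Y, X))
    (h1 : ∀ x, r (1, x) = x) (h0 : ∀ x, r (0, x) = g (k x)) : HasLogs X := by
  intro f hf
  obtain ⟨l, hl⟩ := hY (f.comp g) (fun y => hf _)
  obtain ⟨l1, hl1⟩ := log_homotopy (f.comp r) (fun p => hf _) (l.comp k) (by
    intro x
    simp only [ContinuousMap.comp_apply]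
    rw [h0, ← hl]
    rfl)
  refine ⟨l1, fun x => ?_⟩
  rw [← hl1]
  simp [h1]

theorem hasLogs_punit : HasLogs PUnit.{1} := by
  intro f hf
  exact ⟨ContinuousMap.const _ (Complex.log (f PUnit.unit)), fun x => by
    simp [Complex.exp_log (hf _)]⟩

theorem HasLogs.prod_left {F : Type*} [NormedAddCommGroup F] [NormedSpace ℝ F]
    (hY : HasLogs Y) : HasLogs (F × Y) := by
  refine hY.of_contract ⟨fun p => ((p.1 : ℝ) • p.2.1, p.2.2), by fun_prop⟩
    ⟨Prod.snd, continuous_snd⟩ ⟨fun y => (0, y), by fun_prop⟩ ?_ ?_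
  · intro x
    simp
  · intro x
    simp

theorem HasLogs.of_retract (hY : HasLogs Y) (k : C(X, Y)) (m : C(Y, X))
    (h : ∀ x, m (k x) = x) : HasLogs X := by
  intro f hf
  obtain ⟨l, hl⟩ := hY (f.comp m) (fun y => hf _)
  refine ⟨l.comp k, fun x => ?_⟩
  rw [ContinuousMap.comp_apply, ← hl, ContinuousMap.comp_apply, h]

theorem log_union (U V : Set X) (hU : IsOpen U) (hV : IsOpen V) (hUV : U ∪ V = Set.univ)
    (hc : IsPreconnected (U ∩ V)) (hne : (U ∩ V).Nonempty) (f : X → ℂ) (lU lV : X → ℂ)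
    (cU : ContinuousOn lU U) (cV : ContinuousOn lV V) (eU : ∀ x ∈ U, f x = Complex.exp (lU x))
    (eV : ∀ x ∈ V, f x = Complex.exp (lV x)) :
    ∃ l : C(X, ℂ), ∀ x, f x = Complex.exp (l x) := by
  classical
  obtain ⟨x0, hx0⟩ := hne
  set d : ℂ := lU x0 - lV x0 with hd
  have hd1 : Complex.exp d = 1 := by
    rw [hd, Complex.exp_sub, ← eU x0 hx0.1, ← eV x0 hx0.2]
    have : f x0 ≠ 0 := by
      rw [eU x0 hx0.1]
      exact Complex.exp_ne_zero _
    exact div_self this
  have hEq : Set.EqOn lU (fun x => lV x + d) (U ∩ V) := by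
    refine Complex.isCoveringMap_exp.eqOn_of_comp_eqOn hc (cU.mono Set.inter_subset_left)
      ((cV.mono Set.inter_subset_right).add continuousOn_const) ?_ hx0 ?_
    · intro x hx
      apply Subtype.ext
      show Complex.exp (lU x) = Complex.exp (lV x + d)
      rw [Complex.exp_add, hd1, mul_one, ← eU x hx.1, ← eV x hx.2]
    · show lU x0 = lV x0 + d
      rw [hd]; ring
  let l : X → ℂ := fun x => if x ∈ U then lU x else lV x + d
  have lU' : Set.EqOn l lU U := fun x hx => if_pos hx
  have lV' : Set.EqOn l (fun x => lV x + d) V := by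
    intro x hx
    by_cases hxU : x ∈ U
    · rw [lU' hxU]
      exact hEq ⟨hxU, hx⟩
    · exact if_neg hxU
  have hcont : Continuous l := by
    rw [continuous_iff_continuousAt]
    intro x
    have hx : x ∈ U ∪ V := hUV ▸ Set.mem_univ x
    rcases hx with hx | hx
    · exact (cU.congr lU').continuousAt (hU.mem_nhds hx)
    · exact ((cV.add continuousOn_const).congr lV').continuousAt (hV.mem_nhds hx)
  refine ⟨⟨l, hcont⟩, fun x => ?_⟩
  show f x = Complex.exp (l x)
  have hx : x ∈ U ∪ V := hUV ▸ Set.mem_univ x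
  rcases hx with hx | hx
  · rw [lU' hx, eU x hx]
  · rw [lV' hx, eV x hx, Complex.exp_add, hd1, mul_one]

end General

section Sphere

variable {E : Type*} [NormedAddCommGroup E] [InnerProductSpace ℝ E]
variable {Y : Type*} [TopologicalSpace Y]

theorem log_off_point (hY : HasLogs Y) (v : sphere (0 : E) 1) (f : C(sphere (0 : E) 1 × Y, ℂ))
    (hf : ∀ x, f x ≠ 0) : ∃ lU : sphere (0 : E) 1 × Y → ℂ,
      ContinuousOn lU {p | p.1 ≠ v} ∧ ∀ p ∈ {p : sphere (0 : E) 1 × Y | p.1 ≠ v},
        f p = Complex.exp (lU p) := by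
  let st := stereographic (norm_eq_of_mem_sphere v)
  have hsrc : st.source = {v}ᶜ := stereographic_source _
  have hsymm : Continuous st.symm := by
    have := st.continuousOn_symm
    rwa [show st.target = Set.univ from stereographic_target _, ← continuousOn_univ.symm] at this
  obtain ⟨L, hL⟩ := (hY.prod_left (F := (ℝ ∙ (v : E))ᗮ))
    (f.comp ⟨fun p => (st.symm p.1, p.2), by fun_prop⟩) (fun x => hf _)
  refine ⟨fun p => L (st p.1, p.2), ?_, ?_⟩
  · refine L.continuous.comp_continuousOn ?_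
    refine ContinuousOn.prodMk ?_ continuousOn_snd
    refine st.continuousOn.comp continuousOn_fst ?_
    intro p hp
    rw [hsrc]
    exact hp
  · intro p hp
    rw [← hL]
    have : st.symm (st p.1) = p.1 := st.left_inv (by rw [hsrc]; exact hp)
    simp [this]

theorem HasLogs.prod_sphere (hE : 2 < Module.rank ℝ E) [FiniteDimensional ℝ E]
    [ConnectedSpace Y] (hY : HasLogs Y) : HasLogs (sphere (0 : E) 1 × Y) := by
  intro f hf
  obtain ⟨w, hw⟩ : (sphere (0 : E) 1).Nonempty := by
    have : Nontrivial E := by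
      rw [← rank_pos_iff_nontrivial (R := ℝ)]
      exact lt_trans (by norm_num) hE
    exact NormedSpace.sphere_nonempty.2 zero_le_one
  let v : sphere (0 : E) 1 := ⟨w, hw⟩
  obtain ⟨lU, cU, eU⟩ := log_off_point hY v f hf
  obtain ⟨lV, cV, eV⟩ := log_off_point hY (-v) f hf
  have hvv : v ≠ -v := by
    intro h
    have h1 : (v : E) = -(v : E) := congrArg Subtype.val h
    have h2 : (v : E) = 0 := by
      have h4 : (2 : ℝ) • (v : E) = 0 := by
        rw [two_smul]
        nth_rewrite 2 [h1]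
        exact add_neg_cancel _
      exact (smul_eq_zero.mp h4).resolve_left two_ne_zero
    have h3 := norm_eq_of_mem_sphere v
    rw [h2, norm_zero] at h3
    exact zero_ne_one h3
  have hpc : IsConnected {x : sphere (0 : E) 1 | x ≠ v ∧ x ≠ -v} := by
    let st := stereographic (norm_eq_of_mem_sphere v)
    have hsrc : st.source = {v}ᶜ := stereographic_source _
    have htgt : st.target = Set.univ := stereographic_target _
    have hsymm : Continuous st.symm := by
      have := st.continuousOn_symm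
      rwa [htgt, ← continuousOn_univ.symm] at this
    have h0 : st (-v) = 0 := stereographic_apply_neg v
    have himg : {x : sphere (0 : E) 1 | x ≠ v ∧ x ≠ -v} = st.symm '' {0}ᶜ := by
      ext x
      constructor
      · rintro ⟨h1, h2⟩
        refine ⟨st x, ?_, st.left_inv (by rw [hsrc]; exact h1)⟩
        intro h
        apply h2
        have h3 : st x = st (-v) := by rw [h0]; exact h
        exact st.injOn (by rw [hsrc]; exact h1) (by rw [hsrc]; exact hvv.symm) h3
      · rintro ⟨y, hy, rfl⟩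
        constructor
        · have := st.map_target (x := y) (by rw [htgt]; trivial)
          rw [hsrc] at this
          exact this
        · intro h
          apply hy
          have h3 := st.right_inv (x := y) (by rw [htgt]; trivial)
          rw [h, h0] at h3
          exact h3.symm
    rw [himg]
    refine IsConnected.image ?_ _ hsymm.continuousOn
    refine isConnected_compl_singleton_of_one_lt_rank ?_ 0
    have h1 := Submodule.finrank_add_finrank_orthogonal (ℝ ∙ (v : E))
    have h2 : Module.finrank ℝ (ℝ ∙ (v : E)) = 1 :=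
      finrank_span_singleton (ne_zero_of_mem_unit_sphere v)
    rw [← Module.finrank_eq_rank] at hE ⊢
    have hE' : 2 < Module.finrank ℝ E := by exact_mod_cast hE
    have : 1 < Module.finrank ℝ (ℝ ∙ (v : E))ᗮ := by omega
    exact_mod_cast this
  refine log_union {p | p.1 ≠ v} {p | p.1 ≠ -v} ?_ ?_ ?_ ?_ ?_ f lU lV cU cV eU eV
  · exact isOpen_ne.preimage continuous_fst
  · exact isOpen_ne.preimage continuous_fst
  · ext p
    simp only [Set.mem_union, Set.mem_ofPred_eq, Set.mem_univ, iff_true]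
    by_contra h
    push Not at h
    exact hvv (h.1.symm.trans h.2)
  · have : {p : sphere (0 : E) 1 × Y | p.1 ≠ v} ∩ {p | p.1 ≠ -v} =
        {x : sphere (0 : E) 1 | x ≠ v ∧ x ≠ -v} ×ˢ Set.univ := by
      ext p
      simp
    rw [this]
    exact hpc.isPreconnected.prod isPreconnected_univ
  · obtain ⟨x, hx⟩ := hpc.nonempty
    obtain ⟨y⟩ : Nonempty Y := inferInstance
    exact ⟨(x, y), hx.1, hx.2⟩

end Sphere

section Sp

open Quaternion

/-- the unit quaternions -/
abbrev S3 : Type := sphere (0 : ℍ[ℝ]) 1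

theorem rank_quat : 2 < Module.rank ℝ ℍ[ℝ] := by
  rw [Quaternion.rank_eq_four]
  norm_num

instance : ConnectedSpace S3 :=
  isConnected_iff_connectedSpace.mp
    (isConnected_sphere (lt_trans (by norm_num) rank_quat) 0 zero_le_one)

theorem hasLogs_quat : HasLogs ℍ[ℝ] := by
  refine (hasLogs_punit.prod_left (F := ℍ[ℝ])).of_retract ⟨fun x => (x, PUnit.unit), by fun_prop⟩
    ⟨Prod.fst, continuous_fst⟩ fun x => rfl

theorem hasLogs_model : HasLogs (S3 × S3 × ℍ[ℝ]) :=
  (hasLogs_quat.prod_sphere rank_quat).prod_sphere rank_quat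

theorem normSq_S3 (u : S3) : normSq (u : ℍ[ℝ]) = 1 := by
  rw [Quaternion.normSq_eq_norm_mul_self, norm_eq_of_mem_sphere u, mul_one]

namespace Sp

/-- the parametrisation of `Sp(1,1)` -/
noncomputable def ofModel (p : S3 × S3 × ℍ[ℝ]) : Sp where
  a := (√(1 + normSq p.2.2) : ℝ) • (p.1 : ℍ[ℝ])
  b := p.2.2
  c := (p.2.1 : ℍ[ℝ]) * star p.2.2 * (p.1 : ℍ[ℝ])
  d := (√(1 + normSq p.2.2) : ℝ) • (p.2.1 : ℍ[ℝ])
  h1 := by
    have h0 : (0 : ℝ) ≤ 1 + normSq p.2.2 := by
      have : (0 : ℝ) ≤ normSq p.2.2 := normSq_nonneg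
      linarith
    rw [normSq_smul, normSq_S3, Real.sq_sqrt h0]
    ring
  h2 := by
    have h0 : (0 : ℝ) ≤ 1 + normSq p.2.2 := by
      have : (0 : ℝ) ≤ normSq p.2.2 := normSq_nonneg
      linarith
    rw [normSq_smul, normSq_S3, Real.sq_sqrt h0, map_mul, map_mul, normSq_S3, normSq_S3,
      normSq_star]
    ring
  h3 := by
    have h : (p.1 : ℍ[ℝ]) * star (p.1 : ℍ[ℝ]) = 1 := by
      rw [self_mul_star, normSq_S3, coe_one]
    rw [star_mul, star_mul, star_star, Quaternion.star_smul, smul_mul_assoc, mul_smul_comm,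
      ← mul_assoc, h, one_mul]

theorem ofModel_continuous : Continuous ofModel := by
  rw [continuous_iff]
  have hs : Continuous fun p : S3 × S3 × ℍ[ℝ] => (√(1 + normSq p.2.2) : ℝ) :=
    Real.continuous_sqrt.comp (continuous_const.add
      (Quaternion.continuous_normSq.comp (continuous_snd.comp continuous_snd)))
  have hu : Continuous fun p : S3 × S3 × ℍ[ℝ] => (p.1 : ℍ[ℝ]) :=
    continuous_subtype_val.comp continuous_fst
  have hv : Continuous fun p : S3 × S3 × ℍ[ℝ] => (p.2.1 : ℍ[ℝ]) :=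
    continuous_subtype_val.comp (continuous_fst.comp continuous_snd)
  have hb : Continuous fun p : S3 × S3 × ℍ[ℝ] => p.2.2 := continuous_snd.comp continuous_snd
  exact ⟨hs.smul hu, hb, (hv.mul hb.star).mul hu, hs.smul hv⟩

theorem norm_a_pos (g : Sp) : 0 < ‖g.a‖ := by
  rw [norm_pos_iff]
  intro h
  have h1 := g.h1
  have h2 : (0 : ℝ) ≤ normSq g.b := normSq_nonneg
  rw [h, map_zero] at h1
  linarith

theorem norm_d_eq (g : Sp) : ‖g.d‖ = ‖g.a‖ := by
  have h := g.normSq_a_eq
  rw [Quaternion.normSq_eq_norm_mul_self, Quaternion.normSq_eq_norm_mul_self] at h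
  have := norm_nonneg g.a
  have := norm_nonneg g.d
  nlinarith

theorem norm_a_sqrt (g : Sp) : ‖g.a‖ = √(1 + normSq g.b) := by
  have h1 := g.h1
  have e : 1 + normSq g.b = ‖g.a‖ * ‖g.a‖ := by
    rw [← Quaternion.normSq_eq_norm_mul_self]
    linarith
  rw [e, Real.sqrt_mul_self (norm_nonneg _)]

/-- the inverse of the parametrisation -/
noncomputable def toModel (g : Sp) : S3 × S3 × ℍ[ℝ] :=
  (⟨(‖g.a‖⁻¹ : ℝ) • g.a, by
    rw [mem_sphere_zero_iff_norm, norm_smul, norm_inv, norm_norm,
      inv_mul_cancel₀ g.norm_a_pos.ne']⟩,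
   ⟨(‖g.a‖⁻¹ : ℝ) • g.d, by
    rw [mem_sphere_zero_iff_norm, norm_smul, norm_inv, norm_norm, norm_d_eq,
      inv_mul_cancel₀ g.norm_a_pos.ne']⟩, g.b)

theorem toModel_continuous : Continuous toModel := by
  have hn : Continuous fun g : Sp => (‖g.a‖⁻¹ : ℝ) :=
    continuous_a.norm.inv₀ fun g => g.norm_a_pos.ne'
  refine Continuous.prodMk ?_ (Continuous.prodMk ?_ continuous_b)
  · exact Continuous.subtype_mk (hn.smul continuous_a) _
  · exact Continuous.subtype_mk (hn.smul continuous_d) _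

theorem ofModel_toModel (g : Sp) : ofModel (toModel g) = g := by
  have hp := g.norm_a_pos
  apply Sp.ext
  · show (√(1 + normSq g.b) : ℝ) • ((‖g.a‖⁻¹ : ℝ) • g.a) = g.a
    rw [← norm_a_sqrt, smul_smul, mul_inv_cancel₀ hp.ne', one_smul]
  · rfl
  · show ((‖g.a‖⁻¹ : ℝ) • g.d) * star g.b * ((‖g.a‖⁻¹ : ℝ) • g.a) = g.c
    rw [smul_mul_assoc, smul_mul_assoc, mul_smul_comm, smul_smul, ← g.h3s, mul_assoc,
      star_mul_self, mul_coe_eq_smul, smul_smul, Quaternion.normSq_eq_norm_mul_self]
    have : ‖g.a‖⁻¹ * ‖g.a‖⁻¹ * (‖g.a‖ * ‖g.a‖) = 1 := by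
      field_simp
    rw [this, one_smul]
  · show (√(1 + normSq g.b) : ℝ) • ((‖g.a‖⁻¹ : ℝ) • g.d) = g.d
    rw [← norm_a_sqrt, smul_smul, mul_inv_cancel₀ hp.ne', one_smul]

instance : ConnectedSpace Sp :=
  (Function.Surjective.connectedSpace (f := ofModel) (fun g => ⟨_, ofModel_toModel g⟩)
    ofModel_continuous)

theorem hasLogs : HasLogs Sp :=
  hasLogs_model.of_retract ⟨toModel, toModel_continuous⟩ ⟨ofModel, ofModel_continuous⟩
    ofModel_toModel

/-- Every nowhere vanishing continuous function on `Sp(1,1)` has a continuous logarithm. -/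
theorem exists_log (f : C(Sp, ℂ)) (hf : ∀ g, f g ≠ 0) :
    ∃ l : C(Sp, ℂ), ∀ g, f g = Complex.exp (l g) := hasLogs f hf

end Sp

end Sp

end Pool.Agent.CR
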