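import Pool.Agent.CR.Quot
import Pool.Agent.CR.SpLog

/-! # Logarithms on the quotient -/

namespace Pool.Agent.CR

open Quaternion Filter Topology

noncomputable section

lemma const_of_exp {f : Sp → ℂ} (hf : Continuous f) (h : ∀ g, Complex.exp (f g) = 1) :
    ∃ N : ℤ, ∀ g, f g = N * (2 * Real.pi * Complex.I) := by
  have h1 : ∀ g, ∃ n : ℤ, f g = n * (2 * Real.pi * Complex.I) := fun g =>
    Complex.exp_eq_one_iff.1 (h g)
  choose n hn using h1
  have hc : Continuous n := by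
    rw [Int.isClosedEmbedding_coe_real.isEmbedding.continuous_iff]
    have : ((Int.cast : ℤ → ℝ) ∘ n) = fun g => (f g / (2 * Real.pi * Complex.I)).re := by
      funext g
      rw [hn g, mul_div_cancel_right₀ _ Complex.two_pi_I_ne_zero]
      simp
    rw [this]
    exact Complex.continuous_re.comp (hf.div_const _)
  refine ⟨n 1, fun g => ?_⟩
  rw [hn g, PreconnectedSpace.constant inferInstance hc (x := g) (y := 1)]

variable {S : Type} [Fintype S] [DecidableEq S]

namespace Sys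

variable (Q : Sys S)

theorem logs_quot (Γ : Subgroup Q.W) (hΓ : Γ ≤ Q.evenW)
    (hvan : ∀ h : Q.W → ℚ, (∀ a ∈ Γ, ∀ b ∈ Γ, h (a * b) = h a + h b) → ∀ w ∈ Γ, h w = 0)
    (f : C(Sp ⧸ Q.lat Γ, ℂ)) (hf : ∀ x, f x ≠ 0) :
    ∃ l : C(Sp ⧸ Q.lat Γ, ℂ), ∀ x, f x = Complex.exp (l x) := by
  classical
  obtain ⟨l, hl⟩ := Sp.exists_log (f.comp ⟨QuotientGroup.mk, QuotientGroup.continuous_mk⟩)
    (fun g => hf _)
  have hl' : ∀ g : Sp, f (QuotientGroup.mk g) = Complex.exp (l g) := hl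
  have hN : ∀ k : Sp, k ∈ Q.lat Γ → ∃ N : ℤ, ∀ g, l (g * k) = l g + N * (2 * Real.pi * Complex.I) := by
    intro k hk
    obtain ⟨N, hN⟩ := const_of_exp (f := fun g => l (g * k) - l g)
      ((l.continuous.comp (continuous_mul_const k)).sub l.continuous) (fun g => by
        rw [Complex.exp_sub, ← hl', ← hl', QuotientGroup.mk_mul_of_mem g hk]
        exact div_self (hf _))
    exact ⟨N, fun g => by rw [← hN g]; ring⟩
  choose! N hN using hN
  have hpi : (2 * Real.pi * Complex.I : ℂ) ≠ 0 := Complex.two_pi_I_ne_zero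
  have hadd : ∀ k ∈ Q.lat Γ, ∀ k' ∈ Q.lat Γ, N (k * k') = N k + N k' := by
    intro k hk k' hk'
    have h1 := hN (k * k') ((Q.lat Γ).mul_mem hk hk') 1
    have h2 := hN k' hk' (1 * k)
    have h3 := hN k hk 1
    rw [← mul_assoc, h2, h3] at h1
    have h4 : ((N k : ℂ) + N k') * (2 * Real.pi * Complex.I) = (N (k * k') : ℂ)
        * (2 * Real.pi * Complex.I) := by linear_combination h1
    have h5 := mul_right_cancel₀ hpi h4
    exact_mod_cast h5.symm
  have hN1 : N 1 = 0 := by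
    have := hadd 1 (Q.lat Γ).one_mem 1 (Q.lat Γ).one_mem
    rw [mul_one] at this
    omega
  have hker : ∀ z ∈ Q.lat Γ, (∀ x, Sp.act z x = x) → N z = 0 := by
    intro z hz hzx
    rcases Sp.eq_one_or hzx with h | ⟨h1, h2, h3, h4⟩
    · rw [h]; exact hN1
    · have hzz : z * z = 1 := by
        apply Sp.ext
        · rw [Sp.mul_a, h1, h2]; simp
        · rw [Sp.mul_b, h1, h2]; simp
        · rw [Sp.mul_c, h3, h4]; simp
        · rw [Sp.mul_d, h3, h4]; simp
      have := hadd z hz z hz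
      rw [hzz, hN1] at this
      omega
  have hsame : ∀ k ∈ Q.lat Γ, ∀ k' ∈ Q.lat Γ, (∀ x, Sp.act k x = Sp.act k' x) → N k = N k' := by
    intro k hk k' hk' h
    have h1 := hadd k' hk' (k'⁻¹ * k) ((Q.lat Γ).mul_mem ((Q.lat Γ).inv_mem hk') hk)
    rw [mul_inv_cancel_left] at h1
    have h2 := hker (k'⁻¹ * k) ((Q.lat Γ).mul_mem ((Q.lat Γ).inv_mem hk') hk) (fun x => by
      rw [Sp.act_mul, h, Sp.act_inv_act])
    omega
  -- the additive function on `Γ`
  have hlift : ∀ w : Q.W, w ∈ Γ → ∃ k : Sp, ∀ x, Sp.act k x = Q.ρ w x :=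
    fun w hw => Q.mem_liftW (hΓ hw)
  choose! K hK using hlift
  have hKm : ∀ w ∈ Γ, K w ∈ Q.lat Γ := fun w hw => ⟨w, hw, hK w hw⟩
  have hzero : ∀ w ∈ Γ, ((N (K w) : ℤ) : ℚ) = 0 := by
    refine hvan (fun w => ((N (K w) : ℤ) : ℚ)) ?_
    intro a ha b hb
    have hab := Γ.mul_mem ha hb
    have h1 := hsame (K (a * b)) (hKm _ hab) (K a * K b)
      ((Q.lat Γ).mul_mem (hKm a ha) (hKm b hb)) (fun x => by
        rw [hK _ hab, Sp.act_mul, hK b hb, hK a ha, ρ_mul])
    rw [h1, hadd _ (hKm a ha) _ (hKm b hb)]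
    push_cast
    ring
  have hN0 : ∀ k ∈ Q.lat Γ, N k = 0 := by
    intro k hk
    obtain ⟨w, hw, hkw⟩ := hk
    have h1 := hsame k ⟨w, hw, hkw⟩ (K w) (hKm w hw) (fun x => by rw [hkw, hK w hw])
    rw [h1]
    exact_mod_cast hzero w hw
  have hinv : ∀ k ∈ Q.lat Γ, ∀ g, l (g * k) = l g := by
    intro k hk g
    rw [hN k hk g, hN0 k hk]
    simp
  have hrel : ∀ a b : Sp, (QuotientGroup.leftRel (Q.lat Γ)) a b → l a = l b := by
    intro a b hab
    rw [QuotientGroup.leftRel_apply] at hab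
    have := hinv _ hab a
    rw [mul_inv_cancel_left] at this
    exact this.symm
  refine ⟨⟨Quotient.lift (s := QuotientGroup.leftRel (Q.lat Γ)) l hrel,
    Continuous.quotient_lift l.continuous hrel⟩, ?_⟩
  intro x
  obtain ⟨g, rfl⟩ := QuotientGroup.mk_surjective x
  exact hl' g

end Sys

end

end Pool.Agent.CR
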