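import Pool.Agent.CR.Action
import Pool.Agent.CR.SpLog

/-! # The quotient `Sp(1,1) / Γ~` -/

namespace Pool.Agent.CR

open Quaternion Filter Topology

noncomputable section

variable {S : Type} [Fintype S] [DecidableEq S]

namespace Sys

variable (Q : Sys S)

lemma ρ_injective {w w' : Q.W} (h : ∀ x, Q.ρ w x = Q.ρ w' x) : w = w' := by
  obtain ⟨U, -, hU, hU'⟩ := Q.discrete
  have h1 : Q.ρ (w'⁻¹ * w) p0 = p0 := by rw [ρ_mul, h, ρ_inv_apply]
  have h2 := hU' (w'⁻¹ * w) (by rw [h1]; exact hU)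
  exact (inv_mul_eq_one.1 h2).symm

/-- the even subgroup -/
def evenW : Subgroup Q.W := Q.cs.lengthParity.ker

lemma parity_s (u : S) : Q.cs.lengthParity (Q.s u) = Multiplicative.ofAdd 1 :=
  Q.cs.lengthParity_simple u

/-- the elements of `W` which lift to `Sp` -/
def liftW : Subgroup Q.W where
  carrier := {w | ∃ g : Sp, ∀ x, Sp.act g x = Q.ρ w x}
  mul_mem' := by
    rintro w w' ⟨g, hg⟩ ⟨g', hg'⟩
    exact ⟨g * g', fun x => by rw [Sp.act_mul, hg', hg, ρ_mul]⟩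
  one_mem' := ⟨1, fun x => by rw [Sp.act_one, ρ_one]⟩
  inv_mem' := by
    rintro w ⟨g, hg⟩
    refine ⟨g⁻¹, fun x => ?_⟩
    have h1 : Sp.act g (Q.ρ w⁻¹ x) = x := by rw [hg, ρ_apply_inv]
    calc Sp.act g⁻¹ x = Sp.act g⁻¹ (Sp.act g (Q.ρ w⁻¹ x)) := by rw [h1]
      _ = Q.ρ w⁻¹ x := Sp.act_inv_act _ _

lemma ss_mem_liftW (u v : S) : Q.s u * Q.s v ∈ Q.liftW :=
  ⟨Sp.pair (Q.e u) (Q.e v) (Q.e_self u) (Q.e_self v), fun x => by
    rw [Sp.act_pair, ρ_mul, ρ_s, ρ_s]⟩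

lemma mem_liftW_aux (w : Q.W) : (Q.cs.lengthParity w = 1 → w ∈ Q.liftW) ∧
    (Q.cs.lengthParity w = Multiplicative.ofAdd 1 → ∀ u, Q.s u * w ∈ Q.liftW) := by
  have h01 : (1 : Multiplicative (ZMod 2)) ≠ Multiplicative.ofAdd 1 := by decide
  have h11 : (Multiplicative.ofAdd (1 : ZMod 2)) * Multiplicative.ofAdd 1 = 1 := by decide
  have hcases : ∀ x : Multiplicative (ZMod 2), x = 1 ∨ x = Multiplicative.ofAdd 1 := by decide
  induction w using Q.cs.simple_induction_left with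
  | one =>
    refine ⟨fun _ => Subgroup.one_mem _, fun h => ?_⟩
    rw [map_one] at h
    exact absurd h h01
  | mul_simple_left w v ih =>
    rw [map_mul, Q.cs.lengthParity_simple]
    rcases hcases (Q.cs.lengthParity w) with h | h
    · rw [h, mul_one]
      refine ⟨fun h' => absurd h'.symm h01, fun _ u => ?_⟩
      rw [← mul_assoc]
      exact Subgroup.mul_mem _ (Q.ss_mem_liftW u v) (ih.1 h)
    · rw [h, h11]
      exact ⟨fun _ => ih.2 h v, fun h' => absurd h' h01⟩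

lemma mem_liftW {w : Q.W} (h : w ∈ Q.evenW) : ∃ g : Sp, ∀ x, Sp.act g x = Q.ρ w x :=
  (Q.mem_liftW_aux w).1 h

/-- The lattice in `Sp(1,1)` defined by a subgroup of `W`. -/
def lat (Γ : Subgroup Q.W) : Subgroup Sp where
  carrier := {g | ∃ w ∈ Γ, ∀ x, Sp.act g x = Q.ρ w x}
  mul_mem' := by
    rintro g g' ⟨w, hw, hg⟩ ⟨w', hw', hg'⟩
    exact ⟨w * w', Γ.mul_mem hw hw', fun x => by rw [Sp.act_mul, hg', hg, ρ_mul]⟩
  one_mem' := ⟨1, Γ.one_mem, fun x => by rw [Sp.act_one, ρ_one]⟩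
  inv_mem' := by
    rintro g ⟨w, hw, hg⟩
    refine ⟨w⁻¹, Γ.inv_mem hw, fun x => ?_⟩
    have h1 : Sp.act g (Q.ρ w⁻¹ x) = x := by rw [hg, ρ_apply_inv]
    calc Sp.act g⁻¹ x = Sp.act g⁻¹ (Sp.act g (Q.ρ w⁻¹ x)) := by rw [h1]
      _ = Q.ρ w⁻¹ x := Sp.act_inv_act _ _

lemma mem_lat {Γ : Subgroup Q.W} {g : Sp} : g ∈ Q.lat Γ ↔ ∃ w ∈ Γ, ∀ x, Sp.act g x = Q.ρ w x :=
  Iff.rfl

lemma _root_.Pool.Agent.CR.Sp.continuous_orbit (x : V) : Continuous fun g : Sp => Sp.act g x :=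
  Continuous.comp (g := fun p : Sp × V => Sp.act p.1 p.2) (f := fun g : Sp => (g, x))
    Sp.continuous_act (Continuous.prodMk continuous_id continuous_const)

instance (Γ : Subgroup Q.W) : DiscreteTopology (Q.lat Γ) := by
  apply discreteTopology_of_isOpen_singleton_one
  obtain ⟨U, hUo, hU, hU'⟩ := Q.discrete
  have hO : IsOpen ({g : Sp | Sp.act g p0 ∈ U} ∩ {g : Sp | 0 < g.a.re}) :=
    (hUo.preimage (Sp.continuous_orbit p0)).inter
      (isOpen_lt continuous_const (continuous_re.comp Sp.continuous_a))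
  have : ({1} : Set (Q.lat Γ)) = Subtype.val ⁻¹' ({g : Sp | Sp.act g p0 ∈ U} ∩
      {g : Sp | 0 < g.a.re}) := by
    ext ⟨g, hg⟩
    constructor
    · intro h
      have h : g = 1 := congrArg Subtype.val (Set.mem_singleton_iff.1 h)
      subst h
      refine ⟨?_, ?_⟩
      · show Sp.act 1 p0 ∈ U
        rw [Sp.act_one]; exact hU
      · show 0 < ((1 : Sp).a).re
        simp
    · rintro ⟨h1, h2⟩
      rw [Set.mem_singleton_iff]
      apply Subtype.ext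
      show g = 1
      change Sp.act g p0 ∈ U at h1
      change 0 < g.a.re at h2
      obtain ⟨w, -, hw⟩ := hg
      rw [hw] at h1
      have hw1 := hU' w h1
      subst hw1
      rcases Sp.eq_one_or (g := g) (fun x => by rw [hw, ρ_one]) with h | h
      · exact h
      · rw [h.1] at h2
        norm_num at h2
  rw [this]
  exact hO.preimage continuous_subtype_val

instance (Γ : Subgroup Q.W) : IsClosed (Q.lat Γ : Set Sp) := Subgroup.isClosed_of_discrete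

lemma isCompact_P : IsCompact Q.P := by
  obtain ⟨C, hC⟩ := Q.bdd
  refine (isCompact_Hyp_le C).of_isClosed_subset ?_ (fun x hx => ⟨hx.1, hC x hx.1 hx.2⟩)
  have : Q.P = Hyp ∩ ⋂ u, {x | B x (Q.e u) ≤ 0} := by
    ext x
    simp only [P, Set.mem_inter_iff, Set.mem_iInter]
    exact Iff.rfl
  rw [this]
  exact isClosed_Hyp.inter (isClosed_iInter fun u =>
    isClosed_le (continuous_B_left _) continuous_const)

/-- bounded part of `Sp` -/
lemma isCompact_Sp (R : ℝ) : IsCompact {g : Sp | normSq g.a ≤ R ∧ normSq g.b ≤ R ∧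
    normSq g.c ≤ R ∧ normSq g.d ≤ R} := by
  rw [Sp.isInducing_ι.isCompact_iff]
  have himg : Sp.ι '' {g : Sp | normSq g.a ≤ R ∧ normSq g.b ≤ R ∧ normSq g.c ≤ R ∧
      normSq g.d ≤ R} = {p : ℍ[ℝ] × ℍ[ℝ] × ℍ[ℝ] × ℍ[ℝ] | normSq p.1 - normSq p.2.1 = 1} ∩
      {p | normSq p.2.2.2 - normSq p.2.2.1 = 1} ∩ {p | p.1 * star p.2.2.1 = p.2.1 * star p.2.2.2}
      ∩ ({p | normSq p.1 ≤ R} ∩ {p | normSq p.2.1 ≤ R} ∩ {p | normSq p.2.2.1 ≤ R} ∩
        {p | normSq p.2.2.2 ≤ R}) := by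
    ext p
    constructor
    · rintro ⟨g, ⟨h1, h2, h3, h4⟩, rfl⟩
      exact ⟨⟨⟨g.h1, g.h2⟩, g.h3⟩, ⟨⟨h1, h2⟩, h3⟩, h4⟩
    · rintro ⟨⟨⟨h1, h2⟩, h3⟩, ⟨⟨h4, h5⟩, h6⟩, h7⟩
      exact ⟨⟨p.1, p.2.1, p.2.2.1, p.2.2.2, h1, h2, h3⟩, ⟨h4, h5, h6, h7⟩, rfl⟩
  rw [himg]
  have c1 : Continuous fun p : ℍ[ℝ] × ℍ[ℝ] × ℍ[ℝ] × ℍ[ℝ] => p.1 := continuous_fst
  have c2 : Continuous fun p : ℍ[ℝ] × ℍ[ℝ] × ℍ[ℝ] × ℍ[ℝ] => p.2.1 :=
    continuous_fst.comp continuous_snd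
  have c3 : Continuous fun p : ℍ[ℝ] × ℍ[ℝ] × ℍ[ℝ] × ℍ[ℝ] => p.2.2.1 :=
    continuous_fst.comp (continuous_snd.comp continuous_snd)
  have c4 : Continuous fun p : ℍ[ℝ] × ℍ[ℝ] × ℍ[ℝ] × ℍ[ℝ] => p.2.2.2 :=
    continuous_snd.comp (continuous_snd.comp continuous_snd)
  have n1 := continuous_normSq.comp c1
  have n2 := continuous_normSq.comp c2
  have n3 := continuous_normSq.comp c3
  have n4 := continuous_normSq.comp c4
  refine Metric.isCompact_of_isClosed_isBounded ?_ ?_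
  · refine IsClosed.inter (IsClosed.inter (IsClosed.inter ?_ ?_) ?_)
      (IsClosed.inter (IsClosed.inter (IsClosed.inter ?_ ?_) ?_) ?_)
    · exact isClosed_eq (n1.sub n2) continuous_const
    · exact isClosed_eq (n4.sub n3) continuous_const
    · exact isClosed_eq (c1.mul c3.star) (c2.mul c4.star)
    · exact isClosed_le n1 continuous_const
    · exact isClosed_le n2 continuous_const
    · exact isClosed_le n3 continuous_const
    · exact isClosed_le n4 continuous_const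
  · rw [isBounded_iff_forall_norm_le]
    refine ⟨max R 1, ?_⟩
    have hb : ∀ q : ℍ[ℝ], normSq q ≤ R → ‖q‖ ≤ max R 1 := by
      intro q hq
      rw [normSq_eq_norm_mul_self] at hq
      rcases le_total ‖q‖ 1 with h | h
      · exact h.trans (le_max_right _ _)
      · refine le_trans ?_ (le_max_left _ _)
        nlinarith
    rintro ⟨p1, p2, p3, p4⟩ ⟨-, ⟨⟨h4, h5⟩, h6⟩, h7⟩
    simp only [Prod.norm_def]
    exact max_le (hb _ h4) (max_le (hb _ h5) (max_le (hb _ h6) (hb _ h7)))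

/-- Cocompactness. -/
theorem compactSpace_quot (Γ : Subgroup Q.W) (hΓ : Γ ≤ Q.evenW) (T : Finset Q.W)
    (hT : ∀ w : Q.W, ∃ t ∈ T, t⁻¹ * w ∈ Γ) : CompactSpace (Sp ⧸ Q.lat Γ) := by
  classical
  -- a bound
  have hK : IsCompact (⋃ t ∈ T, (fun x => Q.ρ t⁻¹ x) '' Q.P) :=
    T.isCompact_biUnion fun t _ => Q.isCompact_P.image (Q.continuous_ρ _)
  obtain ⟨R, hR⟩ : ∃ R : ℝ, ∀ x ∈ (⋃ t ∈ T, (fun x => Q.ρ t⁻¹ x) '' Q.P), x.1 ≤ R := by
    obtain ⟨R, hR⟩ := (hK.image continuous_fst).bddAbove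
    exact ⟨R, fun x hx => hR ⟨x, hx, rfl⟩⟩
  have hcomp := isCompact_Sp R
  have hcover : (QuotientGroup.mk : Sp → Sp ⧸ Q.lat Γ) '' {g : Sp | normSq g.a ≤ R ∧
      normSq g.b ≤ R ∧ normSq g.c ≤ R ∧ normSq g.d ≤ R} = Set.univ := by
    rw [Set.eq_univ_iff_forall]
    intro x
    obtain ⟨g, rfl⟩ := QuotientGroup.mk_surjective x
    have hy : Sp.act g⁻¹ p0 ∈ Hyp := Sp.act_mem_Hyp _ p0_mem_Hyp
    obtain ⟨w, hw⟩ := Q.cover hy
    obtain ⟨t, ht, htw⟩ := hT w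
    obtain ⟨k, hk⟩ := Q.mem_liftW (hΓ htw)
    have hk' : k ∈ Q.lat Γ := ⟨_, htw, hk⟩
    have h1 : Sp.act (g * k⁻¹)⁻¹ p0 = Q.ρ t⁻¹ (Q.ρ w (Sp.act g⁻¹ p0)) := by
      rw [mul_inv_rev, inv_inv, Sp.act_mul, hk, ρ_mul]
    have h2 : (Sp.act (g * k⁻¹)⁻¹ p0).1 ≤ R := by
      rw [h1]
      refine hR _ (Set.mem_iUnion₂.2 ⟨t, ht, ?_⟩)
      exact ⟨_, hw, rfl⟩
    rw [Sp.act_p0_fst] at h2
    refine ⟨g * k⁻¹, ?_, ?_⟩
    · have e1 : normSq ((g * k⁻¹)⁻¹).a = normSq (g * k⁻¹).a := by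
        rw [Sp.inv_a, normSq_star]
      have e2 : normSq ((g * k⁻¹)⁻¹).b = normSq (g * k⁻¹).c := by
        rw [Sp.inv_b, normSq_neg, normSq_star]
      rw [e1, e2] at h2
      have e3 := (g * k⁻¹).normSq_b_eq
      have e4 := (g * k⁻¹).normSq_a_eq
      have e5 : 0 ≤ normSq (g * k⁻¹).a := normSq_nonneg
      have e6 : 0 ≤ normSq (g * k⁻¹).c := normSq_nonneg
      exact ⟨by linarith, by linarith, by linarith, by linarith⟩
    · rw [QuotientGroup.eq]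
      rw [mul_inv_rev, inv_inv, inv_mul_cancel_right]
      exact hk'
  refine ⟨?_⟩
  rw [← hcover]
  exact hcomp.image continuous_quotient_mk'

end Sys

end

end Pool.Agent.CR
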