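import Mathlib
import Pool.Agent.CR.SpDef

/-! # `Sp(1,1)` is a Lie group of dimension ten -/

namespace Pool.Agent.CR

open Quaternion
open scoped Manifold ContDiff

noncomputable section

namespace Sp

/-- the model space -/
abbrev E10 := EuclideanSpace ℝ (Fin 10)

/-- four quaternions -/
abbrev H4 := ℍ[ℝ] × ℍ[ℝ] × ℍ[ℝ] × ℍ[ℝ]

lemma contDiff_re {n : ℕ∞ω} : ContDiff ℝ n (fun q : ℍ[ℝ] => q.re) :=
  (LinearMap.toContinuousLinearMap
    (show ℍ[ℝ] →ₗ[ℝ] ℝ from QuaternionAlgebra.reₗ (R := ℝ) (-1) 0 (-1))).contDiff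
lemma contDiff_imI {n : ℕ∞ω} : ContDiff ℝ n (fun q : ℍ[ℝ] => q.imI) :=
  (LinearMap.toContinuousLinearMap
    (show ℍ[ℝ] →ₗ[ℝ] ℝ from QuaternionAlgebra.imIₗ (R := ℝ) (-1) 0 (-1))).contDiff
lemma contDiff_imJ {n : ℕ∞ω} : ContDiff ℝ n (fun q : ℍ[ℝ] => q.imJ) :=
  (LinearMap.toContinuousLinearMap
    (show ℍ[ℝ] →ₗ[ℝ] ℝ from QuaternionAlgebra.imJₗ (R := ℝ) (-1) 0 (-1))).contDiff
lemma contDiff_imK {n : ℕ∞ω} : ContDiff ℝ n (fun q : ℍ[ℝ] => q.imK) :=
  (LinearMap.toContinuousLinearMap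
    (show ℍ[ℝ] →ₗ[ℝ] ℝ from QuaternionAlgebra.imKₗ (R := ℝ) (-1) 0 (-1))).contDiff

lemma star_eq_two_re (q : ℍ[ℝ]) : star q = (2 * q.re) • (1 : ℍ[ℝ]) - q := by
  ext
  · simp; ring
  · simp
  · simp
  · simp

lemma contDiff_star {n : ℕ∞ω} : ContDiff ℝ n (fun q : ℍ[ℝ] => star q) := by
  simp_rw [star_eq_two_re]
  exact ((contDiff_const.mul contDiff_re).smul contDiff_const).sub contDiff_id

/-- a quaternion from four reals -/
def mkq (x y z w : ℝ) : ℍ[ℝ] := ⟨x, y, z, w⟩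

lemma mkq_eq (x y z w : ℝ) : mkq x y z w =
    x • mkq 1 0 0 0 + y • mkq 0 1 0 0 + z • mkq 0 0 1 0 + w • mkq 0 0 0 1 := by
  ext <;> simp only [re_add, imI_add, imJ_add, imK_add, re_smul, imI_smul, imJ_smul, imK_smul]
    <;> simp [mkq]

/-- the ten coordinates -/
def Φ (q : H4) : E10 :=
  WithLp.toLp 2 ![q.1.imI, q.1.imJ, q.1.imK, q.2.2.2.imI, q.2.2.2.imJ, q.2.2.2.imK,
    q.2.1.re, q.2.1.imI, q.2.1.imJ, q.2.1.imK]

lemma contDiff_Φ {n : ℕ∞ω} : ContDiff ℝ n Φ := by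
  have h1 : ContDiff ℝ n (fun q : H4 => q.1) := contDiff_fst
  have h2 : ContDiff ℝ n (fun q : H4 => q.2.1) := contDiff_fst.comp contDiff_snd
  have h4 : ContDiff ℝ n (fun q : H4 => q.2.2.2) :=
    contDiff_snd.comp (contDiff_snd.comp contDiff_snd)
  rw [contDiff_euclidean]
  intro i
  fin_cases i
  · exact contDiff_imI.comp h1
  · exact contDiff_imJ.comp h1
  · exact contDiff_imK.comp h1
  · exact contDiff_imI.comp h4
  · exact contDiff_imJ.comp h4
  · exact contDiff_imK.comp h4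
  · exact contDiff_re.comp h2
  · exact contDiff_imI.comp h2
  · exact contDiff_imJ.comp h2
  · exact contDiff_imK.comp h2

/-- `1 + |b|²` -/
def Nv (v : E10) : ℝ := 1 + (v 6 ^ 2 + v 7 ^ 2 + v 8 ^ 2 + v 9 ^ 2)
/-- `(Re a)²` -/
def Av (v : E10) : ℝ := Nv v - (v 0 ^ 2 + v 1 ^ 2 + v 2 ^ 2)
/-- `(Re d)²` -/
def Dv (v : E10) : ℝ := Nv v - (v 3 ^ 2 + v 4 ^ 2 + v 5 ^ 2)

/-- target of the basic chart -/
def T : Set E10 := {v | 0 < Av v ∧ 0 < Dv v}

lemma contDiff_coord {n : ℕ∞ω} (i : Fin 10) : ContDiff ℝ n (fun v : E10 => v i) :=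
  contDiff_euclidean.1 contDiff_id i

lemma contDiff_Nv {n : ℕ∞ω} : ContDiff ℝ n Nv := by
  unfold Nv
  exact contDiff_const.add (((((contDiff_coord 6).pow 2).add ((contDiff_coord 7).pow 2)).add
    ((contDiff_coord 8).pow 2)).add ((contDiff_coord 9).pow 2))

lemma contDiff_Av {n : ℕ∞ω} : ContDiff ℝ n Av := by
  unfold Av
  exact contDiff_Nv.sub ((((contDiff_coord 0).pow 2).add ((contDiff_coord 1).pow 2)).add
    ((contDiff_coord 2).pow 2))

lemma contDiff_Dv {n : ℕ∞ω} : ContDiff ℝ n Dv := by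
  unfold Dv
  exact contDiff_Nv.sub ((((contDiff_coord 3).pow 2).add ((contDiff_coord 4).pow 2)).add
    ((contDiff_coord 5).pow 2))

lemma Nv_pos (v : E10) : 0 < Nv v := by unfold Nv; positivity

/-- the `a`-component -/
def qa (v : E10) : ℍ[ℝ] := mkq (√(Av v)) (v 0) (v 1) (v 2)
/-- the `d`-component -/
def qd (v : E10) : ℍ[ℝ] := mkq (√(Dv v)) (v 3) (v 4) (v 5)
/-- the `b`-component -/
def qb (v : E10) : ℍ[ℝ] := mkq (v 6) (v 7) (v 8) (v 9)
/-- the `c`-component -/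
def qc (v : E10) : ℍ[ℝ] := (Nv v)⁻¹ • (qd v * star (qb v) * qa v)

/-- the inverse of the basic chart, in `ℍ⁴` -/
def Ψ (v : E10) : H4 := (qa v, qb v, qc v, qd v)

lemma contDiffOn_mkq {n : ℕ∞ω} {f g h k : E10 → ℝ} {s : Set E10} (hf : ContDiffOn ℝ n f s)
    (hg : ContDiffOn ℝ n g s) (hh : ContDiffOn ℝ n h s) (hk : ContDiffOn ℝ n k s) :
    ContDiffOn ℝ n (fun v => mkq (f v) (g v) (h v) (k v)) s := by
  have e : (fun v => mkq (f v) (g v) (h v) (k v)) = fun v => f v • mkq 1 0 0 0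
      + g v • mkq 0 1 0 0 + h v • mkq 0 0 1 0 + k v • mkq 0 0 0 1 := by
    funext v; exact mkq_eq _ _ _ _
  rw [e]
  exact (((hf.smul contDiffOn_const).add (hg.smul contDiffOn_const)).add
    (hh.smul contDiffOn_const)).add (hk.smul contDiffOn_const)

lemma contDiffOn_qa {n : ℕ∞ω} : ContDiffOn ℝ n qa T :=
  contDiffOn_mkq (contDiff_Av.contDiffOn.sqrt fun _ hv => hv.1.ne')
    (contDiff_coord 0).contDiffOn (contDiff_coord 1).contDiffOn (contDiff_coord 2).contDiffOn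

lemma contDiffOn_qd {n : ℕ∞ω} : ContDiffOn ℝ n qd T :=
  contDiffOn_mkq (contDiff_Dv.contDiffOn.sqrt fun _ hv => hv.2.ne')
    (contDiff_coord 3).contDiffOn (contDiff_coord 4).contDiffOn (contDiff_coord 5).contDiffOn

lemma contDiffOn_qb {n : ℕ∞ω} : ContDiffOn ℝ n qb T :=
  contDiffOn_mkq (contDiff_coord 6).contDiffOn
    (contDiff_coord 7).contDiffOn (contDiff_coord 8).contDiffOn (contDiff_coord 9).contDiffOn

lemma contDiffOn_qc {n : ℕ∞ω} : ContDiffOn ℝ n qc T := by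
  unfold qc
  exact (contDiff_Nv.contDiffOn.inv fun v _ => (Nv_pos v).ne').smul
    ((contDiffOn_qd.mul (contDiff_star.comp_contDiffOn contDiffOn_qb)).mul contDiffOn_qa)

lemma contDiffOn_Ψ {n : ℕ∞ω} : ContDiffOn ℝ n Ψ T :=
  contDiffOn_qa.prodMk (contDiffOn_qb.prodMk (contDiffOn_qc.prodMk contDiffOn_qd))

lemma isOpen_T : IsOpen T :=
  (isOpen_lt continuous_const (contDiff_Av (n := 0)).continuous).inter
    (isOpen_lt continuous_const (contDiff_Dv (n := 0)).continuous)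

lemma normSq_mkq (x y z w : ℝ) : normSq (mkq x y z w) = x ^ 2 + y ^ 2 + z ^ 2 + w ^ 2 := by
  rw [normSq_def']; rfl

lemma normSq_qa {v : E10} (hv : v ∈ T) : normSq (qa v) = Nv v := by
  rw [qa, normSq_mkq, Real.sq_sqrt hv.1.le, Av]; ring

lemma normSq_qd {v : E10} (hv : v ∈ T) : normSq (qd v) = Nv v := by
  rw [qd, normSq_mkq, Real.sq_sqrt hv.2.le, Dv]; ring

lemma normSq_qb (v : E10) : 1 + normSq (qb v) = Nv v := by
  rw [qb, normSq_mkq, Nv]

/-- the point with given coordinates -/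
def pt (v : E10) (hv : v ∈ T) : Sp where
  a := qa v
  b := qb v
  c := qc v
  d := qd v
  h1 := by rw [normSq_qa hv, ← normSq_qb]; ring
  h2 := by
    have h0 := Nv_pos v
    rw [qc, normSq_smul, map_mul, map_mul, normSq_star, normSq_qa hv, normSq_qd hv]
    have h1 : normSq (qb v) = Nv v - 1 := by rw [← normSq_qb]; ring
    rw [h1]
    field_simp
    ring
  h3 := by
    have h0 := Nv_pos v
    rw [qc, Quaternion.star_smul, star_mul, star_mul, star_star, mul_smul_comm, ← mul_assoc, self_mul_star,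
      normSq_qa hv, coe_mul_eq_smul, smul_smul]
    simp [h0.ne']

/-- the inverse of the basic chart -/
def unchart (v : E10) : Sp := by
  classical
  exact if hv : v ∈ T then pt v hv else 1

lemma ι_unchart {v : E10} (hv : v ∈ T) : ι (unchart v) = Ψ v := by
  simp only [unchart, hv, dif_pos]; rfl

lemma Φ_Ψ (v : E10) : Φ (Ψ v) = v := by
  ext i
  fin_cases i <;> rfl

lemma Av_Φ (g : Sp) : Av (Φ (ι g)) = g.a.re ^ 2 := by
  have h := g.h1
  rw [normSq_def', normSq_def'] at h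
  have : Av (Φ (ι g)) = 1 + (g.b.re ^ 2 + g.b.imI ^ 2 + g.b.imJ ^ 2 + g.b.imK ^ 2)
    - (g.a.imI ^ 2 + g.a.imJ ^ 2 + g.a.imK ^ 2) := rfl
  rw [this]; linarith

lemma Dv_Φ (g : Sp) : Dv (Φ (ι g)) = g.d.re ^ 2 := by
  have h := g.h2
  rw [← normSq_b_eq, normSq_def', normSq_def'] at h
  have : Dv (Φ (ι g)) = 1 + (g.b.re ^ 2 + g.b.imI ^ 2 + g.b.imJ ^ 2 + g.b.imK ^ 2)
    - (g.d.imI ^ 2 + g.d.imJ ^ 2 + g.d.imK ^ 2) := rfl
  rw [this]; linarith

lemma Nv_Φ (g : Sp) : Nv (Φ (ι g)) = normSq g.a := by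
  have h := g.h1
  have : Nv (Φ (ι g)) = 1 + (g.b.re ^ 2 + g.b.imI ^ 2 + g.b.imJ ^ 2 + g.b.imK ^ 2) := rfl
  rw [this, ← normSq_def']; linarith

/-- source of the basic chart -/
def S : Set Sp := {g | 0 < g.a.re ∧ 0 < g.d.re}

lemma isOpen_S : IsOpen S :=
  (isOpen_lt continuous_const ((contDiff_re (n := 0)).continuous.comp continuous_a)).inter
    (isOpen_lt continuous_const ((contDiff_re (n := 0)).continuous.comp continuous_d))

lemma c_eq (g : Sp) : g.c = (normSq g.a : ℝ)⁻¹ • (g.d * star g.b * g.a) := by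
  have h : g.c * star g.a * g.a = g.d * star g.b * g.a := by rw [g.h3s]
  have hp : (normSq g.a : ℝ) ≠ 0 := by
    have := g.h1
    have h0 : 0 ≤ normSq g.b := normSq_nonneg
    have : 0 < normSq g.a := by linarith
    exact this.ne'
  rw [mul_assoc, star_mul_self, mul_coe_eq_smul] at h
  rw [← h, smul_smul, inv_mul_cancel₀ hp, one_smul]

lemma Ψ_Φ {g : Sp} (hg : g ∈ S) : Ψ (Φ (ι g)) = ι g := by
  have ha : qa (Φ (ι g)) = g.a := by
    rw [qa, Av_Φ, Real.sqrt_sq hg.1.le]; rfl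
  have hd : qd (Φ (ι g)) = g.d := by
    rw [qd, Dv_Φ, Real.sqrt_sq hg.2.le]; rfl
  have hb : qb (Φ (ι g)) = g.b := rfl
  have hc : qc (Φ (ι g)) = g.c := by
    rw [qc, ha, hd, hb, Nv_Φ]; exact (c_eq g).symm
  rw [Ψ, ha, hb, hc, hd, ι]

lemma mem_T_of_mem_S {g : Sp} (hg : g ∈ S) : Φ (ι g) ∈ T := by
  refine ⟨?_, ?_⟩
  · rw [Av_Φ]; have := hg.1; positivity
  · rw [Dv_Φ]; have := hg.2; positivity

lemma mem_S_of_mem_T {v : E10} (hv : v ∈ T) : unchart v ∈ S := by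
  have h := ι_unchart hv
  have ha : (unchart v).a = qa v := congrArg Prod.fst h
  have hd : (unchart v).d = qd v := congrArg (fun q : H4 => q.2.2.2) h
  refine ⟨?_, ?_⟩
  · rw [ha]; exact Real.sqrt_pos.2 hv.1
  · rw [hd]; exact Real.sqrt_pos.2 hv.2

/-- the basic chart -/
def chart1 : OpenPartialHomeomorph Sp E10 where
  toFun g := Φ (ι g)
  invFun := unchart
  source := S
  target := T
  map_source' g hg := mem_T_of_mem_S hg
  map_target' v hv := mem_S_of_mem_T hv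
  left_inv' g hg := by
    apply ι_injective
    rw [ι_unchart (mem_T_of_mem_S hg), Ψ_Φ hg]
  right_inv' v hv := by
    show Φ (ι (unchart v)) = v
    rw [ι_unchart hv, Φ_Ψ]
  open_source := isOpen_S
  open_target := isOpen_T
  continuousOn_toFun := ((contDiff_Φ (n := 0)).continuous.comp isInducing_ι.continuous).continuousOn
  continuousOn_invFun := by
    rw [isInducing_ι.continuousOn_iff]
    refine (contDiffOn_Ψ (n := 0)).continuousOn.congr ?_
    intro v hv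
    exact ι_unchart hv

/-- the chart centred at `g` -/
def chart (g : Sp) : OpenPartialHomeomorph Sp E10 :=
  (Homeomorph.mulLeft g⁻¹).transOpenPartialHomeomorph chart1

lemma chart_apply (g x : Sp) : chart g x = Φ (ι (g⁻¹ * x)) := rfl
lemma chart_symm_apply (g : Sp) (v : E10) : (chart g).symm v = g * unchart v := by
  show (g⁻¹)⁻¹ * unchart v = g * unchart v
  rw [inv_inv]
lemma chart_source (g : Sp) : (chart g).source = {x | g⁻¹ * x ∈ S} := rfl
lemma chart_target (g : Sp) : (chart g).target = T := rfl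

instance : ChartedSpace E10 Sp where
  atlas := Set.range chart
  chartAt := chart
  mem_chart_source g := by
    rw [chart_source, Set.mem_ofPred_eq, inv_mul_cancel]
    simp [S]
  chart_mem_atlas g := ⟨g, rfl⟩

/-- matrix multiplication on `ℍ⁴` -/
def mulH (p q : H4) : H4 :=
  (p.1 * q.1 + p.2.1 * q.2.2.1, p.1 * q.2.1 + p.2.1 * q.2.2.2,
    p.2.2.1 * q.1 + p.2.2.2 * q.2.2.1, p.2.2.1 * q.2.1 + p.2.2.2 * q.2.2.2)

lemma ι_mul (g h : Sp) : ι (g * h) = mulH (ι g) (ι h) := rfl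

/-- inversion on `ℍ⁴` -/
def invH (p : H4) : H4 := (star p.1, -star p.2.2.1, -star p.2.1, star p.2.2.2)

lemma ι_inv (g : Sp) : ι g⁻¹ = invH (ι g) := rfl

lemma contDiff_mulH {n : ℕ∞ω} : ContDiff ℝ n (fun p : H4 × H4 => mulH p.1 p.2) := by
  have h1 : ContDiff ℝ n (fun q : H4 => q.1) := contDiff_fst
  have h2 : ContDiff ℝ n (fun q : H4 => q.2.1) := contDiff_fst.comp contDiff_snd
  have h3 : ContDiff ℝ n (fun q : H4 => q.2.2.1) :=
    contDiff_fst.comp (contDiff_snd.comp contDiff_snd)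
  have h4 : ContDiff ℝ n (fun q : H4 => q.2.2.2) :=
    contDiff_snd.comp (contDiff_snd.comp contDiff_snd)
  have f : ContDiff ℝ n (fun p : H4 × H4 => p.1) := contDiff_fst
  have s : ContDiff ℝ n (fun p : H4 × H4 => p.2) := contDiff_snd
  unfold mulH
  exact (((h1.comp f).mul (h1.comp s)).add ((h2.comp f).mul (h3.comp s))).prodMk
    ((((h1.comp f).mul (h2.comp s)).add ((h2.comp f).mul (h4.comp s))).prodMk
    ((((h3.comp f).mul (h1.comp s)).add ((h4.comp f).mul (h3.comp s))).prodMk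
    (((h3.comp f).mul (h2.comp s)).add ((h4.comp f).mul (h4.comp s)))))

lemma contDiff_invH {n : ℕ∞ω} : ContDiff ℝ n invH := by
  have h1 : ContDiff ℝ n (fun q : H4 => q.1) := contDiff_fst
  have h2 : ContDiff ℝ n (fun q : H4 => q.2.1) := contDiff_fst.comp contDiff_snd
  have h3 : ContDiff ℝ n (fun q : H4 => q.2.2.1) :=
    contDiff_fst.comp (contDiff_snd.comp contDiff_snd)
  have h4 : ContDiff ℝ n (fun q : H4 => q.2.2.2) :=
    contDiff_snd.comp (contDiff_snd.comp contDiff_snd)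
  unfold invH
  exact (contDiff_star.comp h1).prodMk ((contDiff_star.comp h3).neg.prodMk
    ((contDiff_star.comp h2).neg.prodMk (contDiff_star.comp h4)))

/-- left multiplication on `ℍ⁴` is smooth -/
lemma contDiff_mulH_left {n : ℕ∞ω} (p : H4) : ContDiff ℝ n (mulH p) :=
  contDiff_mulH.comp (contDiff_const.prodMk contDiff_id)

instance {n : ℕ∞ω} : IsManifold 𝓘(ℝ, E10) n Sp := by
  apply isManifold_of_contDiffOn
  rintro _ _ ⟨g, rfl⟩ ⟨h, rfl⟩
  have hs : ContDiffOn ℝ n (fun v => Φ (mulH (ι (h⁻¹ * g)) (Ψ v))) T :=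
    contDiff_Φ.comp_contDiffOn ((contDiff_mulH_left _).comp_contDiffOn contDiffOn_Ψ)
  have hsub : (𝓘(ℝ, E10).symm ⁻¹' ((chart g).symm ≫ₕ chart h).source ∩
      Set.range 𝓘(ℝ, E10)) ⊆ T := by
    intro v hv
    exact hv.1.1
  refine (hs.mono hsub).congr ?_
  intro v hv
  have hvT : v ∈ T := hsub hv
  show chart h ((chart g).symm v) = _
  rw [chart_apply, chart_symm_apply, ← mul_assoc, ι_mul, ι_unchart hvT]

lemma contMDiff_ι {n : ℕ∞ω} : ContMDiff 𝓘(ℝ, E10) 𝓘(ℝ, H4) n ι := by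
  intro g
  rw [contMDiffAt_iff]
  refine ⟨isInducing_ι.continuous.continuousAt, ?_⟩
  have hs : ContDiffOn ℝ n (fun v => mulH (ι g) (Ψ v)) T :=
    (contDiff_mulH_left _).comp_contDiffOn contDiffOn_Ψ
  have hx : extChartAt 𝓘(ℝ, E10) g g ∈ T := by
    have := mem_extChartAt_target (I := 𝓘(ℝ, E10)) g
    rw [extChartAt_target] at this
    exact this.1
  have hs' := (hs.contDiffAt (isOpen_T.mem_nhds hx)).contDiffWithinAt
    (s := Set.range 𝓘(ℝ, E10))
  refine hs'.congr_of_eventuallyEq ?_ ?_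
  · filter_upwards [mem_nhdsWithin_of_mem_nhds (isOpen_T.mem_nhds hx)] with v hv
    show ι ((chart g).symm v) = _
    rw [chart_symm_apply, ι_mul, ι_unchart hv]
  · show ι ((chart g).symm (extChartAt 𝓘(ℝ, E10) g g)) = _
    rw [chart_symm_apply, ι_mul, ι_unchart hx]

/-- a continuous map into `Sp` is smooth if its composition with `ι` is -/
lemma contMDiff_of_ι {E : Type*} [NormedAddCommGroup E] [NormedSpace ℝ E] {H : Type*}
    [TopologicalSpace H] {I : ModelWithCorners ℝ E H} {M : Type*} [TopologicalSpace M]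
    [ChartedSpace H M] {n : ℕ∞ω} {f : M → Sp} (hf : Continuous f)
    (h : ContMDiff I 𝓘(ℝ, H4) n (fun x => ι (f x))) : ContMDiff I 𝓘(ℝ, E10) n f := by
  intro x
  rw [contMDiffAt_iff_target]
  refine ⟨hf.continuousAt, ?_⟩
  have h1 : ContDiff ℝ n (fun q : H4 => Φ (mulH (ι (f x)⁻¹) q)) :=
    contDiff_Φ.comp (contDiff_mulH_left _)
  have h2 : ContMDiff 𝓘(ℝ, H4) 𝓘(ℝ, E10) n (fun q : H4 => Φ (mulH (ι (f x)⁻¹) q)) :=
    h1.contMDiff
  have h3 : ContMDiff I 𝓘(ℝ, E10) n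
      ((fun q : H4 => Φ (mulH (ι (f x)⁻¹) q)) ∘ (fun x => ι (f x))) := h2.comp h
  have h4 : (extChartAt 𝓘(ℝ, E10) (f x) ∘ f) =
      ((fun q : H4 => Φ (mulH (ι (f x)⁻¹) q)) ∘ (fun x => ι (f x))) := by
    funext y
    show chart (f x) (f y) = Φ (mulH (ι (f x)⁻¹) (ι (f y)))
    rw [chart_apply, ι_mul]
  rw [h4]
  exact h3 x

instance {n : ℕ∞ω} : LieGroup 𝓘(ℝ, E10) n Sp where
  contMDiff_mul := by
    apply contMDiff_of_ι continuous_mul
    have h : ContMDiff (𝓘(ℝ, E10).prod 𝓘(ℝ, E10)) 𝓘(ℝ, H4 × H4) n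
        (fun p : Sp × Sp => (ι p.1, ι p.2)) :=
      (contMDiff_ι.comp contMDiff_fst).prodMk_space (contMDiff_ι.comp contMDiff_snd)
    exact contDiff_mulH.contMDiff.comp h
  contMDiff_inv := by
    apply contMDiff_of_ι continuous_inv
    exact contDiff_invH.contMDiff.comp contMDiff_ι

end Sp

end

end Pool.Agent.CR
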