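import Pool.Agent.CR.Defs

/-! # Positivity of roots and the strict fundamental domain -/

namespace Pool.Agent.CR

open Quaternion

noncomputable section

variable {S : Type} [Fintype S] [DecidableEq S]

namespace Sys

variable (Q : Sys S)

/-- a vector is positive if it is `≤ 0` against the chamber -/
def Pos (r : V) : Prop := ∀ x ∈ Q.P, B r x ≤ 0

lemma Pos.add {r r' : V} (h : Q.Pos r) (h' : Q.Pos r') : Q.Pos (r + r') := by
  intro x hx
  rw [B_add_left]
  have := h x hx
  have := h' x hx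
  linarith

lemma Pos.smul {r : V} (h : Q.Pos r) {c : ℝ} (hc : 0 ≤ c) : Q.Pos (c • r) := by
  intro x hx
  rw [B_smul_left]
  have := h x hx
  nlinarith

lemma pos_e (u : S) : Q.Pos (Q.e u) := by
  intro x hx
  rw [B_comm]
  exact hx.2 u

lemma B_ρ (w : Q.W) : ∀ x y : V, B (Q.ρ w x) (Q.ρ w y) = B x y := by
  induction w using Q.cs.simple_induction_left with
  | one => intro x y; rw [ρ_one, ρ_one]
  | mul_simple_left w u ih =>
    intro x y
    rw [ρ_mul, ρ_mul, ρ_s, reflB_B (Q.e_self u), ih]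

lemma B_ρ_left (w : Q.W) (x y : V) : B (Q.ρ w x) y = B x (Q.ρ w⁻¹ y) := by
  conv_lhs => rw [← Q.ρ_apply_inv w y]
  rw [B_ρ]

lemma length_mul_s (w : Q.W) (u : S) : Q.cs.length (w * Q.s u) = Q.cs.length w + 1 ∨
    Q.cs.length (w * Q.s u) + 1 = Q.cs.length w := Q.cs.length_mul_simple w u

lemma ss (u : S) : Q.s u * Q.s u = 1 := Q.cs.simple_mul_simple_self u

lemma s_comm {u v : S} (h : Q.adj u v = true) : Q.s u * Q.s v = Q.s v * Q.s u := by
  have h1 := Q.cs.simple_mul_simple_pow u v
  rw [M_apply] at h1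
  have hne : u ≠ v := by rintro rfl; rw [Q.adj_irrefl] at h; exact Bool.noConfusion h
  rw [if_neg hne, if_pos h, pow_two] at h1
  have h2 : Q.s u * Q.s v = (Q.s u * Q.s v)⁻¹ := by
    rw [eq_inv_iff_mul_eq_one]; exact h1
  rw [h2, mul_inv_rev, Q.cs.inv_simple, Q.cs.inv_simple]

/-- Tits' positivity of roots, right-angled case. -/
theorem tits (n : ℕ) : (∀ w : Q.W, Q.cs.length w = n → ∀ u, n < Q.cs.length (w * Q.s u) →
      Q.Pos (Q.ρ w (Q.e u))) ∧
    (∀ w : Q.W, Q.cs.length w = n → ∀ u v, u ≠ v → Q.adj u v = false → ∀ a b : ℝ, 0 ≤ b → b ≤ a →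
      n < Q.cs.length (w * Q.s u) → Q.Pos (Q.ρ w (a • Q.e u + b • Q.e v))) := by
  induction n using Nat.strong_induction_on with
  | _ n ih =>
  have main : ∀ w : Q.W, Q.cs.length w = n → ∀ u, n < Q.cs.length (w * Q.s u) →
      Q.Pos (Q.ρ w (Q.e u)) := by
    intro w hw u hu
    rcases Nat.eq_zero_or_pos n with hn | hn
    · subst hn
      rw [Q.cs.length_eq_zero_iff] at hw
      subst hw
      rw [ρ_one]
      exact Q.pos_e u
    · have hw1 : w ≠ 1 := by
        rintro rfl
        rw [Q.cs.length_one] at hw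
        omega
      obtain ⟨v, hv⟩ := Q.cs.exists_rightDescent_of_ne_one hw1
      rw [CoxeterSystem.IsRightDescent, hw] at hv
      have hvl : Q.cs.length (w * Q.s v) + 1 = n := by
        rcases Q.cs.length_mul_simple w v with h | h
        · rw [hw] at h; omega
        · rw [hw] at h; omega
      have huv : v ≠ u := by rintro rfl; omega
      have hww : w = (w * Q.s v) * Q.s v := by rw [mul_assoc, ss, mul_one]
      rcases hadj : Q.adj u v with _ | _
      · -- infinite dihedral
        have h2 := (ih (n - 1) (by omega)).2 (w * Q.s v) (by omega) v u huv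
          (by rw [Q.adj_symm]; exact hadj) (2 * (-B (Q.e u) (Q.e v))) 1 zero_le_one (by
            have := Q.e_nadj u v (Ne.symm huv) hadj
            linarith) (by rw [← hww, hw]; omega)
        have h3 : Q.ρ w (Q.e u) = Q.ρ (w * Q.s v) ((2 * (-B (Q.e u) (Q.e v))) • Q.e v
            + (1:ℝ) • Q.e u) := by
          conv_lhs => rw [hww]
          rw [ρ_mul, ρ_s, reflB_apply]
          congr 1
          module
        rw [h3]; exact h2
      · have hc := Q.s_comm hadj
        have h3 : Q.ρ w (Q.e u) = Q.ρ (w * Q.s v) (Q.e u) := by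
          conv_lhs => rw [hww]
          rw [ρ_mul, ρ_s, reflB_apply, Q.e_adj u v hadj]
          congr 1
          module
        rw [h3]
        refine (ih (n - 1) (by omega)).1 (w * Q.s v) (by omega) u ?_
        have h4 : w * Q.s v * Q.s u = w * Q.s u * Q.s v := by
          rw [mul_assoc, ← hc, ← mul_assoc]
        rw [h4]
        rcases Q.length_mul_s (w * Q.s u) v with h | h <;> omega
  refine ⟨main, ?_⟩
  intro w hw u v huv hadj a b hb hba hu
  rcases Q.length_mul_s w v with h | h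
  · rw [map_add, map_smul, map_smul]
    exact Pos.add Q (Pos.smul Q (main w hw u hu) (hb.trans hba))
      (Pos.smul Q (main w hw v (by omega)) hb)
  · have hww : w = (w * Q.s v) * Q.s v := by rw [mul_assoc, ss, mul_one]
    have hn : 0 < n := by omega
    have hB := Q.e_nadj u v huv hadj
    have h2 := (ih (n - 1) (by omega)).2 (w * Q.s v) (by omega) v u (Ne.symm huv)
      (by rw [Q.adj_symm]; exact hadj) (2 * (-B (Q.e u) (Q.e v)) * a - b) a (hb.trans hba) (by
        nlinarith) (by rw [← hww, hw]; omega)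
    have h3 : Q.ρ w (a • Q.e u + b • Q.e v) = Q.ρ (w * Q.s v)
        ((2 * (-B (Q.e u) (Q.e v)) * a - b) • Q.e v + a • Q.e u) := by
      conv_lhs => rw [hww]
      rw [ρ_mul, ρ_s, reflB_apply]
      congr 1
      rw [B_add_left, B_smul_left, B_smul_left, Q.e_self]
      module
    rw [h3]; exact h2

lemma pos_of_lt {w : Q.W} {u : S} (h : Q.cs.length w < Q.cs.length (w * Q.s u)) :
    Q.Pos (Q.ρ w (Q.e u)) := (Q.tits _).1 w rfl u h

/-- If `u` is a left descent of `w`, then the mirror of `u` separates `P` from `w P`. -/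
lemma nonneg_of_left_descent {w : Q.W} {u : S} (h : Q.cs.length (Q.s u * w) < Q.cs.length w)
    {x : V} (hx : x ∈ Q.P) : 0 ≤ B (Q.ρ w x) (Q.e u) := by
  have h1 : Q.cs.length (w⁻¹ * Q.s u) < Q.cs.length (w⁻¹ * Q.s u * Q.s u) := by
    rw [mul_assoc, ss, mul_one, Q.cs.length_inv]
    have : w⁻¹ * Q.s u = (Q.s u * w)⁻¹ := by rw [mul_inv_rev, Q.cs.inv_simple]
    rw [this, Q.cs.length_inv]; exact h
  have h2 := Q.pos_of_lt h1 x hx
  rw [ρ_mul, ρ_s, reflB_apply, Q.e_self, B_ρ_left, B_comm] at h2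
  have h3 : Q.e u - (2 * (1:ℝ)) • Q.e u = (-1 : ℝ) • Q.e u := by module
  rw [h3, B_smul_right, inv_inv] at h2
  linarith

/-- Strict fundamental domain. -/
theorem strict (w : Q.W) {x : V} (hx : x ∈ Q.P) (hwx : Q.ρ w x ∈ Q.P) :
    Q.ρ w x = x ∧ w ∈ Subgroup.closure (Q.s '' {u | B x (Q.e u) = 0}) := by
  induction hn : Q.cs.length w using Nat.strong_induction_on generalizing w with
  | _ n ih =>
  by_cases hw1 : w = 1
  · subst hw1
    exact ⟨Q.ρ_one x, Subgroup.one_mem _⟩
  · obtain ⟨u, hu⟩ := Q.cs.exists_leftDescent_of_ne_one hw1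
    rw [CoxeterSystem.IsLeftDescent] at hu
    have h1 := Q.nonneg_of_left_descent hu hx
    have h2 := hwx.2 u
    have h3 : B (Q.ρ w x) (Q.e u) = 0 := le_antisymm h2 h1
    have h4 : Q.ρ (Q.s u * w) x = Q.ρ w x := by
      rw [ρ_mul, ρ_s, reflB_apply, h3]; module
    have h5 := ih _ (by rw [← hn]; exact hu) (Q.s u * w) (by rw [h4]; exact hwx) rfl
    have h6 : Q.ρ w x = x := by rw [← h4]; exact h5.1
    refine ⟨h6, ?_⟩
    have h7 : w = Q.s u * (Q.s u * w) := by rw [← mul_assoc, ss, one_mul]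
    rw [h7]
    refine Subgroup.mul_mem _ (Subgroup.subset_closure ⟨u, ?_, rfl⟩) h5.2
    rw [h6] at h3
    exact h3

end Sys

end

end Pool.Agent.CR
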